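import Pool.Agent.Work.MP_85af13_lc.Defs

set_option autoImplicit false
set_option linter.unusedSectionVars false
set_option linter.unusedSimpArgs false

namespace Pool.Agent.Work.MP_85af13_lc

/-- Value of a position under a vertex labelling `y` and sink values `s`. -/
def ext {n : ℕ} (y : Fin n → ℝ) (s : Bool → ℝ) : Fin n ⊕ Bool → ℝ
  | Sum.inl v => y v
  | Sum.inr b => s b

section chain

variable {n : ℕ} (nx : Fin n → Bool → Fin n ⊕ Bool)

/-- Every vertex can reach a sink. -/
def ChainStopping : Prop :=
  ∀ v : Fin n, ∃ b : Bool, Relation.ReflTransGen (SSG.Move nx) (Sum.inl v) (Sum.inr b)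

/-- A sink is reachable within `k` moves. -/
def Near : ℕ → Fin n ⊕ Bool → Prop
  | _, Sum.inr _ => True
  | 0, Sum.inl _ => False
  | k + 1, Sum.inl v => ∃ i, Near k (nx v i)

variable {nx}

theorem near_succ {k : ℕ} : ∀ {p : Fin n ⊕ Bool}, Near nx k p → Near nx (k + 1) p := by
  induction k with
  | zero =>
    intro p h
    match p with
    | Sum.inr b => trivial
    | Sum.inl v => exact h.elim
  | succ k ih =>
    intro p h
    match p with
    | Sum.inr b => trivial
    | Sum.inl v =>
      obtain ⟨i, hi⟩ := h
      exact ⟨i, ih hi⟩

theorem near_all (h : ChainStopping nx) : ∀ v, Near nx n (Sum.inl v) := by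
  classical
  let A : ℕ → Finset (Fin n) := fun k => Finset.univ.filter (fun v => Near nx k (Sum.inl v))
  have key : ∀ k, A k = Finset.univ ∨ k ≤ (A k).card := by
    intro k
    induction k with
    | zero => right; exact Nat.zero_le _
    | succ k ih =>
      rcases ih with ih | ih
      · left
        apply Finset.eq_univ_of_forall
        intro v
        have : v ∈ A k := by rw [ih]; exact Finset.mem_univ v
        exact Finset.mem_filter.2 ⟨Finset.mem_univ _, near_succ (Finset.mem_filter.1 this).2⟩
      · have hsub : A k ⊆ A (k + 1) := by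
          intro v hv
          exact Finset.mem_filter.2 ⟨Finset.mem_univ _, near_succ (Finset.mem_filter.1 hv).2⟩
        by_cases heq : A k = A (k + 1)
        · left
          rw [← heq]
          apply Finset.eq_univ_of_forall
          intro v
          obtain ⟨b, hb⟩ := h v
          have : ∀ p : Fin n ⊕ Bool, Relation.ReflTransGen (SSG.Move nx) p (Sum.inr b) →
              Near nx k p := by
            intro p hp
            induction hp using Relation.ReflTransGen.head_induction_on with
            | refl => cases k <;> trivial
            | @head a c h1 h2 ih2 =>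
              rcases a with w | b'
              · obtain ⟨i, rfl⟩ := h1
                have hw : w ∈ A (k + 1) := Finset.mem_filter.2 ⟨Finset.mem_univ _, ⟨i, ih2⟩⟩
                rw [← heq] at hw
                exact (Finset.mem_filter.1 hw).2
              · exact False.elim h1
          exact Finset.mem_filter.2 ⟨Finset.mem_univ _, this _ hb⟩
        · right
          have : A k ⊂ A (k + 1) := lt_of_le_of_ne hsub heq
          have := Finset.card_lt_card this
          omega
  intro v
  have hA : A n = Finset.univ := by
    rcases key n with h1 | h1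
    · exact h1
    · apply Finset.eq_univ_of_card
      have := Finset.card_le_univ (A n)
      simp only [Fintype.card_fin] at this ⊢
      omega
  have : v ∈ A n := by rw [hA]; exact Finset.mem_univ v
  exact (Finset.mem_filter.1 this).2

/-- Maximum principle for a stopping chain, with an additive error `e` in each move. -/
theorem max_principle (h : ChainStopping nx) (y : Fin n → ℝ) (s : Bool → ℝ) (e : ℝ) (he : 0 ≤ e)
    (hs : ∀ b, s b ≤ 0)
    (hy : ∀ v, y v ≤ (ext y s (nx v false) + ext y s (nx v true)) / 2 + e) (v : Fin n) :
    y v ≤ 2 * e * 2 ^ n := by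
  obtain ⟨w, -, hw⟩ := Finset.exists_max_image Finset.univ y ⟨v, Finset.mem_univ _⟩
  by_cases hM : y w ≤ 0
  · have : y v ≤ y w := hw v (Finset.mem_univ v)
    have : 0 ≤ 2 * e * 2 ^ n := by positivity
    linarith
  · push Not at hM
    have hle : ∀ p, ext y s p ≤ y w := by
      intro p
      match p with
      | Sum.inl u => exact hw u (Finset.mem_univ u)
      | Sum.inr b => exact le_trans (hs b) hM.le
    have key : ∀ k : ℕ, ∀ p : Fin n ⊕ Bool, Near nx k p →
        ext y s p ≤ y w * (1 - (1 / 2) ^ k) + 2 * e := by
      intro k
      induction k with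
      | zero =>
        intro p hp
        match p with
        | Sum.inl u => exact hp.elim
        | Sum.inr b => simp only [ext, pow_zero, sub_self, mul_zero, zero_add]; linarith [hs b]
      | succ k ih =>
        intro p hp
        match p with
        | Sum.inr b =>
          simp only [ext]
          have h1 : (0 : ℝ) ≤ 1 - (1 / 2) ^ (k + 1) := by
            have : ((1 : ℝ) / 2) ^ (k + 1) ≤ 1 := pow_le_one₀ (by norm_num) (by norm_num)
            linarith
          have h2 : 0 ≤ y w * (1 - (1 / 2) ^ (k + 1)) := mul_nonneg hM.le h1
          linarith [hs b]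
        | Sum.inl u =>
          obtain ⟨i, hi⟩ := hp
          have h1 := ih _ hi
          have h2 := hy u
          have h3 : ext y s (nx u false) + ext y s (nx u true) ≤
              y w * (1 - (1 / 2) ^ k) + 2 * e + y w := by
            cases i with
            | false => linarith [hle (nx u true)]
            | true => linarith [hle (nx u false)]
          simp only [ext]
          have h4 : ((1 : ℝ) / 2) ^ (k + 1) = (1 / 2) ^ k / 2 := by rw [pow_succ]; ring
          rw [h4]
          nlinarith
    have h1 := key n (Sum.inl w) (near_all h w)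
    simp only [ext] at h1
    have h2 : y w * (1 / 2) ^ n ≤ 2 * e := by linarith
    have h3 : y w ≤ 2 * e * 2 ^ n := by
      have h5 : (0 : ℝ) < 2 ^ n := by positivity
      have h4 : y w * (1 / 2) ^ n * 2 ^ n ≤ 2 * e * 2 ^ n :=
        mul_le_mul_of_nonneg_right h2 h5.le
      have h6 : ((1 : ℝ) / 2) ^ n * 2 ^ n = 1 := by
        rw [← mul_pow]; norm_num
      have h7 : y w * (1 / 2) ^ n * 2 ^ n = y w := by rw [mul_assoc, h6, mul_one]
      linarith
    linarith [hw v (Finset.mem_univ v)]

/-- The value `1` at the `true` sink and `0` at the `false` sink. -/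
def sinkVal (b : Bool) : ℝ := if b then 1 else 0

/-- The coefficient matrix of the linear system of a chain. -/
def chainMat (nx : Fin n → Bool → Fin n ⊕ Bool) : Matrix (Fin n) (Fin n) ℤ :=
  Matrix.of fun v u => (if u = v then 2 else 0) - ((if nx v false = Sum.inl u then 1 else 0) +
    (if nx v true = Sum.inl u then 1 else 0))

/-- The right-hand side of the linear system of a chain. -/
def chainVec (nx : Fin n → Bool → Fin n ⊕ Bool) (v : Fin n) : ℤ :=
  (if nx v false = Sum.inr true then 1 else 0) + (if nx v true = Sum.inr true then 1 else 0)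

theorem chainMat_mulVec (y : Fin n → ℝ) (v : Fin n) :
    ((chainMat nx).map (fun a : ℤ => (a : ℝ))).mulVec y v =
      2 * y v - (ext y (fun _ => 0) (nx v false) + ext y (fun _ => 0) (nx v true)) := by
  have hone : ∀ p : Fin n ⊕ Bool, ∑ u, (if p = Sum.inl u then (1 : ℝ) else 0) * y u =
      ext y (fun _ => 0) p := by
    intro p
    rcases p with w | b
    · simp [ext]
    · simp [ext]
  unfold Matrix.mulVec dotProduct
  simp only [chainMat, Matrix.map_apply, Matrix.of_apply]
  push_cast
  simp only [sub_mul, add_mul, Finset.sum_sub_distrib, Finset.sum_add_distrib]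
  rw [hone, hone]
  congr 1
  simp

theorem chainMat_det_ne_zero (h : ChainStopping nx) : (chainMat nx).det ≠ 0 := by
  intro hdet
  have hdet' : ((chainMat nx).map (fun a : ℤ => (a : ℝ))).det = 0 := by
    have := (Int.castRingHom ℝ).map_det (chainMat nx)
    rw [hdet] at this
    simp only [map_zero] at this
    exact this.symm
  obtain ⟨y, hy0, hy⟩ := Matrix.exists_mulVec_eq_zero_iff.2 hdet'
  apply hy0
  have h1 : ∀ v, y v = (ext y (fun _ => 0) (nx v false) + ext y (fun _ => 0) (nx v true)) / 2 := by
    intro v
    have := congrFun hy v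
    rw [chainMat_mulVec] at this
    simp only [Pi.zero_apply] at this
    linarith
  have hneg : ∀ p, ext (-y) (fun _ => 0) p = - ext y (fun _ => 0) p := by
    intro p; rcases p with w | b <;> simp [ext]
  have h2 : ∀ v, y v ≤ 0 := by
    intro v
    have := max_principle h y (fun _ => 0) 0 le_rfl (fun _ => le_rfl)
      (fun v => by rw [add_zero]; exact (h1 v).le) v
    simpa using this
  have h3 : ∀ v, (-y) v ≤ 0 := by
    intro v
    have := max_principle h (-y) (fun _ => 0) 0 le_rfl (fun _ => le_rfl)
      (fun v => by rw [add_zero, hneg, hneg, Pi.neg_apply, h1 v]; linarith) v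
    simpa using this
  funext v
  have := h2 v
  have := h3 v
  simp only [Pi.neg_apply] at this
  simp only [Pi.zero_apply]
  linarith

theorem chainMat_det_le : |(chainMat nx).det| ≤ (n.factorial : ℤ) * 2 ^ n := by
  have := Matrix.det_le (A := chainMat nx) (abv := AbsoluteValue.abs) (x := (2 : ℤ)) ?_
  · simpa using this
  · intro i j
    simp only [chainMat, Matrix.of_apply, AbsoluteValue.abs_apply]
    rw [abs_le]
    constructor <;> split_ifs <;> norm_num

/-- The solution of the linear system of a stopping chain is rational with a bounded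
denominator. -/
theorem rational_value (h : ChainStopping nx) (p : Fin n → ℝ)
    (hp : ∀ v, p v = (ext p sinkVal (nx v false) + ext p sinkVal (nx v true)) / 2) (v : Fin n) :
    ∃ a d : ℤ, 0 < d ∧ d ≤ (n.factorial : ℤ) * 2 ^ n ∧ p v * d = a := by
  have hsplit : ∀ q, ext p sinkVal q = ext p (fun _ => 0) q +
      (if q = Sum.inr true then (1 : ℝ) else 0) := by
    intro q; rcases q with w | b
    · simp [ext]
    · cases b <;> simp [ext, sinkVal]
  have hsys : ((chainMat nx).map (fun a : ℤ => (a : ℝ))).mulVec p =
      fun v => ((chainVec nx v : ℤ) : ℝ) := by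
    funext v
    rw [chainMat_mulVec]
    have := hp v
    rw [hsplit, hsplit] at this
    simp only [chainVec]
    push_cast
    linarith
  have hadj : ((chainMat nx).map (fun a : ℤ => (a : ℝ))).adjugate.mulVec
      (((chainMat nx).map (fun a : ℤ => (a : ℝ))).mulVec p) =
      ((chainMat nx).map (fun a : ℤ => (a : ℝ))).det • p := by
    rw [Matrix.mulVec_mulVec, Matrix.adjugate_mul]
    simp [Matrix.smul_mulVec]
  have hdet : ((chainMat nx).map (fun a : ℤ => (a : ℝ))).det = (((chainMat nx).det : ℤ) : ℝ) :=
    ((Int.castRingHom ℝ).map_det (chainMat nx)).symm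
  have hadj2 : ((chainMat nx).map (fun a : ℤ => (a : ℝ))).adjugate =
      (chainMat nx).adjugate.map (fun a : ℤ => (a : ℝ)) :=
    ((Int.castRingHom ℝ).map_adjugate (chainMat nx)).symm
  rw [hsys, hadj2, hdet] at hadj
  have hint : p v * ((chainMat nx).det : ℝ) =
      (((chainMat nx).adjugate.mulVec (chainVec nx) v : ℤ) : ℝ) := by
    have := congrFun hadj v
    simp only [Pi.smul_apply, smul_eq_mul] at this
    rw [mul_comm, ← this]
    simp only [Matrix.mulVec, dotProduct, Matrix.map_apply]
    push_cast
    rfl
  have hne := chainMat_det_ne_zero h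
  have hle := chainMat_det_le (nx := nx)
  rcases lt_or_gt_of_ne hne with hneg | hpos
  · refine ⟨-((chainMat nx).adjugate.mulVec (chainVec nx) v), -(chainMat nx).det, by linarith, ?_, ?_⟩
    · exact le_trans (neg_le_abs _) hle
    · push_cast
      push_cast at hint
      linarith
  · refine ⟨((chainMat nx).adjugate.mulVec (chainVec nx) v), (chainMat nx).det, hpos, ?_, hint⟩
    exact le_trans (le_abs_self _) hle

end chain

end Pool.Agent.Work.MP_85af13_lc
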