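import Pool.Agent.Work.MP_85af13_lc.ChipFiring

/-!
Canonical representatives of chip configurations on Eulerian multidigraphs: for every vertex `q`
there is exactly one script `z` with prescribed `z q` such that the configuration `x - L z` is
stable away from `q` and passes the burning test from `q`.
-/

set_option autoImplicit false
set_option linter.unusedSectionVars false
set_option linter.unusedSimpArgs false

namespace Pool.Agent.Work.MP_85af13_lc

namespace MultiDigraph

variable {V : Type} [Fintype V] [DecidableEq V] (D : MultiDigraph V)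

/-- The vertex `v` can be fired in the configuration `x - L z`. -/
def Hot (x : V → ℕ) (z : V → ℤ) (v : V) : Prop := (D.outDeg v : ℤ) ≤ x v - D.lap z v

/-- The burning condition away from `q`. -/
def Burns (x : V → ℕ) (q : V) (z : V → ℤ) : Prop :=
  ∀ A : Finset V, A.Nonempty → q ∉ A → ∃ v ∈ A, (∑ u ∈ A, (D.m u v : ℤ)) ≤ x v - D.lap z v

theorem lap_mono (A : Finset V) (z z' : V → ℤ) (v : V) (hv : z' v = z v) (hA : ∀ u, z u ≤ z' u)
    (hB : ∀ u, u ∉ A → z u + 1 ≤ z' u) :
    D.lap z' v ≤ D.lap z v - ∑ u ∈ Aᶜ, (D.m u v : ℤ) := by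
  have h1 : ∑ u, (D.m u v : ℤ) * z u + ∑ u ∈ Aᶜ, (D.m u v : ℤ) ≤ ∑ u, (D.m u v : ℤ) * z' u := by
    have h2 : ∑ u ∈ Aᶜ, (D.m u v : ℤ) = ∑ u, (D.m u v : ℤ) * (if u ∈ A then 0 else 1) := by
      rw [← Finset.sum_compl_add_sum A]
      have h3 : ∑ u ∈ A, (D.m u v : ℤ) * (if u ∈ A then 0 else 1) = 0 :=
        Finset.sum_eq_zero (fun u hu => by simp [hu])
      have h4 : ∑ u ∈ Aᶜ, (D.m u v : ℤ) * (if u ∈ A then 0 else 1) = ∑ u ∈ Aᶜ, (D.m u v : ℤ) :=
        Finset.sum_congr rfl (fun u hu => by
          have : u ∉ A := by simpa using hu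
          simp [this])
      rw [h3, h4, add_zero]
    rw [h2, ← Finset.sum_add_distrib]
    refine Finset.sum_le_sum (fun u _ => ?_)
    rw [← mul_add]
    refine mul_le_mul_of_nonneg_left ?_ (by positivity)
    by_cases hu : u ∈ A
    · simp [hu, hA u]
    · simpa [hu] using hB u hu
  simp only [lap, hv]
  linarith

theorem lap_mono' (z z' : V → ℤ) (v : V) (hv : z' v = z v) (hA : ∀ u, z u ≤ z' u) :
    D.lap z' v ≤ D.lap z v := by
  have h := D.lap_mono Finset.univ z z' v hv hA (fun u hu => absurd (Finset.mem_univ u) hu)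
  simpa using h

theorem outDeg_split (hE : ∀ v, D.outDeg v = D.inDeg v) (A : Finset V) (v : V) :
    (D.outDeg v : ℤ) = ∑ u ∈ A, (D.m u v : ℤ) + ∑ u ∈ Aᶜ, (D.m u v : ℤ) := by
  rw [hE v, inDeg]
  push_cast
  rw [Finset.sum_add_sum_compl]

theorem lap_add_const (hE : ∀ v, D.outDeg v = D.inDeg v) (z : V → ℤ) (c : ℤ) (v : V) :
    D.lap (fun u => z u + c) v = D.lap z v := by
  have h := D.lap_add z (fun _ => c) v
  rw [D.lap_const hE c v, add_zero] at h
  exact h

/-- Comparison of a burning script with a stable one. -/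
theorem rep_le (hE : ∀ v, D.outDeg v = D.inDeg v) (x : V → ℕ) (q : V) (z z' : V → ℤ)
    (hq : z q ≤ z' q) (hb : D.Burns x q z) (hs : ∀ v, v ≠ q → ¬ D.Hot x z' v) (v : V) :
    z v ≤ z' v := by
  classical
  by_contra hcon
  push Not at hcon
  obtain ⟨w, -, hw⟩ := Finset.exists_max_image (Finset.univ : Finset V) (fun u => z u - z' u)
    ⟨q, Finset.mem_univ q⟩
  have hwpos : 0 < z w - z' w := by
    have := hw v (Finset.mem_univ v)
    linarith
  set t := z w - z' w with ht
  set A : Finset V := Finset.univ.filter (fun u => z u - z' u = t) with hAdef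
  have hwA : w ∈ A := by simp [hAdef, ht]
  have hqA : q ∉ A := by
    intro h
    have : z q - z' q = t := by simpa [hAdef] using h
    linarith
  obtain ⟨u, huA, hu⟩ := hb A ⟨w, hwA⟩ hqA
  have huq : u ≠ q := fun h => hqA (h ▸ huA)
  apply hs u huq
  have hut : z u - z' u = t := by simpa [hAdef] using huA
  have h1 := D.lap_mono A z (fun a => z' a + t) u (by linarith)
    (fun a => by
      have := hw a (Finset.mem_univ a)
      linarith)
    (fun a ha => by
      have h2 := hw a (Finset.mem_univ a)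
      have h3 : z a - z' a ≠ t := by
        intro h; exact ha (by simp [hAdef, h])
      have h4 : z a - z' a < t := lt_of_le_of_ne h2 h3
      linarith [Int.add_one_le_iff.2 h4])
  rw [D.lap_add_const hE] at h1
  unfold Hot
  rw [D.outDeg_split hE A u]
  linarith

/-- Uniqueness of the canonical script. -/
theorem rep_unique (hE : ∀ v, D.outDeg v = D.inDeg v) (x : V → ℕ) (q : V) (z z' : V → ℤ)
    (hq : z q = z' q) (hb : D.Burns x q z) (hs : ∀ v, v ≠ q → ¬ D.Hot x z v)
    (hb' : D.Burns x q z') (hs' : ∀ v, v ≠ q → ¬ D.Hot x z' v) : z = z' :=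
  funext fun v => le_antisymm (D.rep_le hE x q z z' hq.le hb hs' v)
    (D.rep_le hE x q z' z hq.ge hb' hs v)

/-- The canonical script decides the halting problem. -/
theorem terminates_iff_rep (hE : ∀ v, D.outDeg v = D.inDeg v) (x : V → ℕ) (q : V) (z : V → ℤ)
    (hb : D.Burns x q z) (hs : ∀ v, v ≠ q → ¬ D.Hot x z v) :
    D.Terminates x ↔ ¬ D.Hot x z q := by
  classical
  rw [D.terminates_iff hE]
  constructor
  · rintro ⟨y, hy⟩ hhot
    obtain ⟨w, -, hw⟩ := Finset.exists_min_image (Finset.univ : Finset V) (fun u => y u - z u)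
      ⟨q, Finset.mem_univ q⟩
    set t := y w - z w with ht
    set A : Finset V := Finset.univ.filter (fun u => y u - z u = t) with hAdef
    have hwA : w ∈ A := by simp [hAdef, ht]
    have key : ∀ u ∈ A, D.lap y u ≤ D.lap z u - ∑ a ∈ Aᶜ, (D.m a u : ℤ) := by
      intro u huA
      have hut : y u - z u = t := by simpa [hAdef] using huA
      have h1 := D.lap_mono A z (fun a => y a + (-t)) u (by linarith)
        (fun a => by
          have := hw a (Finset.mem_univ a)
          linarith)
        (fun a ha => by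
          have h2 := hw a (Finset.mem_univ a)
          have h3 : t ≠ y a - z a := by
            intro h; exact ha (by simp [hAdef, ← h])
          have h4 : t < y a - z a := lt_of_le_of_ne h2 h3
          linarith [Int.add_one_le_iff.2 h4])
      rwa [D.lap_add_const hE] at h1
    have hnn : ∀ u, (0 : ℤ) ≤ ∑ a ∈ Aᶜ, (D.m a u : ℤ) :=
      fun u => Finset.sum_nonneg (fun a _ => by positivity)
    by_cases hqA : q ∈ A
    · have h1 := key q hqA
      have h2 := hy q
      unfold Hot at hhot
      linarith [hnn q]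
    · obtain ⟨u, huA, hu⟩ := hb A ⟨w, hwA⟩ hqA
      have h1 := key u huA
      have h2 := hy u
      rw [D.outDeg_split hE A u] at h2
      linarith
  · intro hq
    refine ⟨z, fun v => ?_⟩
    by_cases hv : v = q
    · subst hv
      exact not_le.1 hq
    · exact not_le.1 (hs v hv)

/-! ### Cuts and bounds -/

/-- Every nonempty proper set of vertices is entered by an arc. -/
def Cuts : Prop := ∀ A : Finset V, A.Nonempty → A ≠ Finset.univ →
  1 ≤ ∑ v ∈ A, ∑ u ∈ Aᶜ, (D.m u v : ℤ)

theorem cut_balance (hE : ∀ v, D.outDeg v = D.inDeg v) (A : Finset V) :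
    ∑ v ∈ A, ∑ u ∈ Aᶜ, (D.m u v : ℤ) = ∑ v ∈ A, ∑ u ∈ Aᶜ, (D.m v u : ℤ) := by
  have h1 : ∀ v ∈ A, ∑ u ∈ Aᶜ, (D.m u v : ℤ) + ∑ u ∈ A, (D.m u v : ℤ) =
      ∑ u ∈ Aᶜ, (D.m v u : ℤ) + ∑ u ∈ A, (D.m v u : ℤ) := by
    intro v _
    rw [Finset.sum_compl_add_sum, Finset.sum_compl_add_sum]
    have := hE v
    simp only [outDeg, inDeg] at this
    exact_mod_cast this.symm
  have h2 := Finset.sum_congr rfl h1
  rw [Finset.sum_add_distrib, Finset.sum_add_distrib] at h2
  have h3 : ∑ v ∈ A, ∑ u ∈ A, (D.m u v : ℤ) = ∑ v ∈ A, ∑ u ∈ A, (D.m v u : ℤ) :=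
    Finset.sum_comm
  linarith

theorem cuts_of_eulerian (h : D.Eulerian) : D.Cuts := by
  classical
  intro A hA hne
  obtain ⟨a, ha⟩ := hA
  obtain ⟨b, hb⟩ : ∃ b, b ∉ A := by
    by_contra hcon
    push Not at hcon
    exact hne (Finset.eq_univ_iff_forall.2 hcon)
  have hcross : ∀ c, Relation.ReflTransGen (fun a b => 0 < D.m a b ∨ 0 < D.m b a) a c →
      c ∉ A → ∃ u v, v ∈ A ∧ u ∉ A ∧ (0 < D.m v u ∨ 0 < D.m u v) := by
    intro c hc
    induction hc with
    | refl => intro h; exact absurd ha h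
    | tail _ hstep ih =>
      rename_i u v _
      intro hv
      by_cases hu : u ∈ A
      · exact ⟨v, u, hu, hv, hstep⟩
      · exact ih hu
  obtain ⟨u, v, hv, hu, huv⟩ := hcross b (h.1 a b) hb
  have hu' : u ∈ Aᶜ := by simpa using hu
  have hle1 : (D.m u v : ℤ) ≤ ∑ v ∈ A, ∑ u ∈ Aᶜ, (D.m u v : ℤ) :=
    (Finset.single_le_sum (f := fun u => (D.m u v : ℤ)) (fun _ _ => by positivity) hu').trans
      (Finset.single_le_sum (f := fun v => ∑ u ∈ Aᶜ, (D.m u v : ℤ))
        (fun _ _ => Finset.sum_nonneg fun _ _ => by positivity) hv)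
  have hle2 : (D.m v u : ℤ) ≤ ∑ v ∈ A, ∑ u ∈ Aᶜ, (D.m v u : ℤ) :=
    (Finset.single_le_sum (f := fun u => (D.m v u : ℤ)) (fun _ _ => by positivity) hu').trans
      (Finset.single_le_sum (f := fun v => ∑ u ∈ Aᶜ, (D.m v u : ℤ))
        (fun _ _ => Finset.sum_nonneg fun _ _ => by positivity) hv)
  rcases huv with huv | huv
  · rw [D.cut_balance h.2 A]
    have : (1 : ℤ) ≤ D.m v u := by exact_mod_cast huv
    linarith
  · have : (1 : ℤ) ≤ D.m u v := by exact_mod_cast huv
    linarith

/-- The level set inequality. -/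
theorem level (hE : ∀ v, D.outDeg v = D.inDeg v) (A : Finset V) (z : V → ℤ) (t g : ℤ)
    (hA : ∀ v ∈ A, t ≤ z v) (hB : ∀ v, v ∉ A → z v ≤ t - g) :
    g * ∑ v ∈ A, ∑ u ∈ Aᶜ, (D.m u v : ℤ) ≤ ∑ v ∈ A, D.lap z v := by
  have h1 : ∀ v, D.lap z v = D.lap (fun u => z u + (-t)) v := fun v =>
    (D.lap_add_const hE z (-t) v).symm
  set w : V → ℤ := fun u => z u + (-t) with hw
  have hwA : ∀ v ∈ A, 0 ≤ w v := fun v hv => by
    have := hA v hv; simp only [hw]; linarith
  have hwB : ∀ v, v ∈ Aᶜ → w v ≤ -g := fun v hv => by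
    have := hB v (by simpa using hv); simp only [hw]; linarith
  rw [Finset.sum_congr rfl (fun v _ => h1 v)]
  simp only [lap]
  have h2 : ∀ v, ∑ u, (D.m u v : ℤ) * w u = ∑ u ∈ Aᶜ, (D.m u v : ℤ) * w u +
      ∑ u ∈ A, (D.m u v : ℤ) * w u := fun v => (Finset.sum_compl_add_sum A _).symm
  have h3 : ∀ v, (D.outDeg v : ℤ) * w v = (∑ u ∈ Aᶜ, (D.m v u : ℤ)) * w v +
      (∑ u ∈ A, (D.m v u : ℤ)) * w v := by
    intro v
    rw [← add_mul, Finset.sum_compl_add_sum]
    simp [outDeg]
  simp only [h2, h3]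
  rw [Finset.sum_sub_distrib, Finset.sum_add_distrib, Finset.sum_add_distrib]
  have h4 : ∑ v ∈ A, (∑ u ∈ A, (D.m v u : ℤ)) * w v = ∑ v ∈ A, ∑ u ∈ A, (D.m u v : ℤ) * w u := by
    simp only [Finset.sum_mul]
    rw [Finset.sum_comm]
  have h5 : 0 ≤ ∑ v ∈ A, (∑ u ∈ Aᶜ, (D.m v u : ℤ)) * w v :=
    Finset.sum_nonneg fun v hv => mul_nonneg (Finset.sum_nonneg fun _ _ => by positivity)
      (hwA v hv)
  have h6 : ∑ v ∈ A, ∑ u ∈ Aᶜ, (D.m u v : ℤ) * w u ≤
      - (g * ∑ v ∈ A, ∑ u ∈ Aᶜ, (D.m u v : ℤ)) := by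
    rw [Finset.mul_sum, ← Finset.sum_neg_distrib]
    refine Finset.sum_le_sum fun v _ => ?_
    rw [Finset.mul_sum, ← Finset.sum_neg_distrib]
    refine Finset.sum_le_sum fun u hu => ?_
    have h7 : (0 : ℤ) ≤ D.m u v := by positivity
    nlinarith [hwB u hu]
  linarith

theorem exists_stall (n : ℕ) (f : ℕ → ℕ) (h0 : f 0 < n) (hn : 0 < f n)
    (hanti : ∀ i, f (i + 1) ≤ f i) : ∃ i, i < n ∧ f i = f (i + 1) := by
  by_contra hcon
  push Not at hcon
  have key : ∀ i, i ≤ n → f i + i ≤ f 0 := by
    intro i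
    induction i with
    | zero => intro _; simp
    | succ i ih =>
      intro hi
      have h1 := ih (by omega)
      have h2 := hcon i (by omega)
      have h3 := hanti i
      omega
  have := key n le_rfl
  omega

/-- A script is bounded in terms of an upper bound for its Laplacian. -/
theorem script_le (hE : ∀ v, D.outDeg v = D.inDeg v) (hC : D.Cuts) (q : V) (z : V → ℤ)
    (c : V → ℕ) (hc : ∀ v, v ≠ q → D.lap z v ≤ c v) (v : V) :
    z v ≤ z q + Fintype.card V * ∑ u, c u := by
  classical
  by_contra hcon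
  push Not at hcon
  set N : ℕ := ∑ u, c u with hN
  set n := Fintype.card V with hn
  let S : ℕ → Finset V := fun i => Finset.univ.filter (fun u => z q + i * N < z u)
  have hanti : ∀ i, S (i + 1) ⊆ S i := by
    intro i u hu
    simp only [S, Finset.mem_filter, Finset.mem_univ, true_and] at hu ⊢
    have : (i : ℤ) * N ≤ ((i + 1 : ℕ) : ℤ) * N := by
      push_cast
      have : (0 : ℤ) ≤ N := by positivity
      nlinarith
    linarith
  have hq : ∀ i, q ∉ S i := by
    intro i hi
    simp only [S, Finset.mem_filter, Finset.mem_univ, true_and] at hi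
    have : (0 : ℤ) ≤ (i : ℤ) * N := by positivity
    linarith
  have h0 : (S 0).card < n := by
    rw [hn]
    exact Finset.card_lt_univ_of_notMem (hq 0)
  have hlast : 0 < (S n).card := by
    rw [Finset.card_pos]
    exact ⟨v, by simp only [S, Finset.mem_filter, Finset.mem_univ, true_and]; push_cast; exact hcon⟩
  obtain ⟨i, hi, heq⟩ := exists_stall n (fun i => (S i).card) h0 hlast
    (fun i => Finset.card_le_card (hanti i))
  have hSS : S (i + 1) = S i := Finset.eq_of_subset_of_card_le (hanti i) heq.le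
  have hne : (S i).Nonempty := by
    rw [← Finset.card_pos]
    have : ∀ j k, (S (j + k)).card ≤ (S j).card := by
      intro j k
      induction k with
      | zero => exact le_rfl
      | succ k ih => exact (Finset.card_le_card (hanti (j + k))).trans ih
    have h1 := this i (n - i)
    rw [show i + (n - i) = n by omega] at h1
    omega
  have hnu : S i ≠ Finset.univ := fun h => hq i (h ▸ Finset.mem_univ q)
  have h1 := D.level hE (S i) z (z q + (i + 1 : ℕ) * N + 1) (N + 1)
    (fun u hu => by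
      rw [← hSS] at hu
      simp only [S, Finset.mem_filter, Finset.mem_univ, true_and] at hu
      linarith [Int.add_one_le_iff.2 hu])
    (fun u hu => by
      simp only [S, Finset.mem_filter, Finset.mem_univ, true_and, not_lt] at hu
      push_cast
      linarith)
  have h2 := hC (S i) hne hnu
  have h3 : ∑ u ∈ S i, D.lap z u ≤ N := by
    calc ∑ u ∈ S i, D.lap z u ≤ ∑ u ∈ S i, (c u : ℤ) :=
          Finset.sum_le_sum fun u hu => hc u (fun h => hq i (h ▸ hu))
      _ ≤ ∑ u, (c u : ℤ) := Finset.sum_le_sum_of_subset_of_nonneg (Finset.subset_univ _)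
          (fun _ _ _ => by positivity)
      _ = N := by rw [hN]; push_cast; rfl
  have h4 : ((N : ℤ) + 1) * 1 ≤ (N + 1) * ∑ v ∈ S i, ∑ u ∈ (S i)ᶜ, (D.m u v : ℤ) :=
    mul_le_mul_of_nonneg_left h2 (by positivity)
  linarith

theorem burns_nonneg (x : V → ℕ) (q : V) (z : V → ℤ) (hb : D.Burns x q z) (v : V) (hv : v ≠ q) :
    D.lap z v ≤ x v := by
  obtain ⟨u, hu, h⟩ := hb {v} ⟨v, by simp⟩ (by simpa using fun h => hv h.symm)
  have hu' : u = v := by simpa using hu
  subst hu'
  have : (0 : ℤ) ≤ ∑ a ∈ {u}, (D.m a u : ℤ) := Finset.sum_nonneg fun _ _ => by positivity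
  linarith

/-- Upper bound for burning scripts. -/
theorem burns_le (hE : ∀ v, D.outDeg v = D.inDeg v) (hC : D.Cuts) (x : V → ℕ) (q : V)
    (z : V → ℤ) (hb : D.Burns x q z) (v : V) :
    z v ≤ z q + Fintype.card V * ∑ u, x u := by
  have := D.script_le hE hC q z x (fun v hv => D.burns_nonneg x q z hb v hv) v
  exact this

/-- Lower bound for scripts leading to configurations that are stable away from `q`. -/
theorem stable_ge (hE : ∀ v, D.outDeg v = D.inDeg v) (hC : D.Cuts) (x : V → ℕ) (q : V)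
    (z : V → ℤ) (hs : ∀ v, v ≠ q → ¬ D.Hot x z v) (v : V) :
    z q - Fintype.card V * ∑ u, D.outDeg u ≤ z v := by
  have := D.script_le hE hC q (-z) D.outDeg (fun v hv => by
    rw [D.lap_neg]
    have h1 := not_le.1 (hs v hv)
    have h2 : (0 : ℤ) ≤ x v := by positivity
    linarith) v
  simp only [Pi.neg_apply] at this
  push_cast at this ⊢
  linarith

/-! ### Existence -/

/-- Firing a hot vertex preserves the burning condition. -/
theorem burns_fire (x : V → ℕ) (q : V) (z : V → ℤ) (hb : D.Burns x q z) (v : V) (hv : v ≠ q)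
    (hh : D.Hot x z v) : D.Burns x q (z + Pi.single v 1) := by
  classical
  intro A hA hqA
  have hlap : ∀ u, (x u : ℤ) - D.lap (z + Pi.single v 1) u =
      x u - D.lap z u + (D.m v u : ℤ) - (if u = v then (D.outDeg v : ℤ) else 0) := by
    intro u
    rw [D.lap_add, D.lap_single]
    ring
  by_cases hvA : v ∈ A
  · by_cases hA' : (A.erase v).Nonempty
    · obtain ⟨u, huA, hu⟩ := hb (A.erase v) hA' (fun h => hqA (Finset.mem_of_mem_erase h))
      refine ⟨u, Finset.mem_of_mem_erase huA, ?_⟩
      have huv : u ≠ v := Finset.ne_of_mem_erase huA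
      rw [hlap, if_neg huv, ← Finset.add_sum_erase A _ hvA]
      linarith
    · have hAv : A = {v} := by
        rw [Finset.not_nonempty_iff_eq_empty] at hA'
        rw [← Finset.insert_erase hvA, hA']
        rfl
      subst hAv
      refine ⟨v, by simp, ?_⟩
      rw [hlap]
      simp only [Finset.sum_singleton, D.loopless v, if_true]
      unfold Hot at hh
      push_cast
      linarith
  · obtain ⟨u, huA, hu⟩ := hb A hA hqA
    refine ⟨u, huA, ?_⟩
    have huv : u ≠ v := fun h => hvA (h ▸ huA)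
    rw [hlap, if_neg huv]
    have : (0 : ℤ) ≤ D.m v u := by positivity
    linarith

theorem exists_rep_aux (hE : ∀ v, D.outDeg v = D.inDeg v) (hC : D.Cuts) (x : V → ℕ) (q : V)
    (B : ℤ) : ∀ (M : ℕ) (z : V → ℤ), z q = B → D.Burns x q z →
      (∑ v, (B + Fintype.card V * ∑ u, (x u : ℤ) - z v)).toNat ≤ M →
      ∃ z' : V → ℤ, z' q = B ∧ D.Burns x q z' ∧ ∀ v, v ≠ q → ¬ D.Hot x z' v := by
  intro M
  induction M with
  | zero =>
    intro z hq hb hM
    refine ⟨z, hq, hb, fun v hv hh => ?_⟩
    have h1 := D.burns_fire x q z hb v hv hh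
    have h2 := D.burns_le hE hC x q _ h1 v
    have h3 : ∀ u, 0 ≤ B + Fintype.card V * ∑ u, (x u : ℤ) - z u := fun u => by
      have := D.burns_le hE hC x q z hb u
      push_cast at this
      linarith
    have h4 : B + Fintype.card V * ∑ u, (x u : ℤ) - z v ≤
        ∑ v, (B + Fintype.card V * ∑ u, (x u : ℤ) - z v) :=
      Finset.single_le_sum (f := fun v => B + Fintype.card V * ∑ u, (x u : ℤ) - z v)
        (fun u _ => h3 u) (Finset.mem_univ v)
    simp only [Pi.add_apply, Pi.single_eq_same, Pi.single_eq_of_ne (Ne.symm hv)] at h2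
    push_cast at h2
    omega
  | succ M ih =>
    intro z hq hb hM
    by_cases hst : ∀ v, v ≠ q → ¬ D.Hot x z v
    · exact ⟨z, hq, hb, hst⟩
    · push Not at hst
      obtain ⟨v, hv, hh⟩ := hst
      have h1 := D.burns_fire x q z hb v hv hh
      refine ih (z + Pi.single v 1) (by simp [hq, Pi.single_eq_of_ne (Ne.symm hv)]) h1 ?_
      have h3 : ∀ u, 0 ≤ B + Fintype.card V * ∑ u, (x u : ℤ) -
          (z + (Pi.single v 1 : V → ℤ)) u := fun u => by
        have := D.burns_le hE hC x q _ h1 u
        simp only [Pi.add_apply, Pi.single_eq_of_ne (Ne.symm hv)] at this ⊢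
        push_cast at this
        linarith
      have hsum : ∑ u, (B + Fintype.card V * ∑ u, (x u : ℤ) - (z + (Pi.single v 1 : V → ℤ)) u) =
          (∑ u, (B + Fintype.card V * ∑ u, (x u : ℤ) - z u)) - 1 := by
        have : ∀ u, B + Fintype.card V * ∑ u, (x u : ℤ) - (z + (Pi.single v 1 : V → ℤ)) u =
            (B + Fintype.card V * ∑ u, (x u : ℤ) - z u) - (Pi.single v 1 : V → ℤ) u := by
          intro u; simp only [Pi.add_apply]; ring
        rw [Finset.sum_congr rfl (fun u _ => this u), Finset.sum_sub_distrib]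
        congr 1
        simp
      have h5 : 0 ≤ ∑ u, (B + Fintype.card V * ∑ u, (x u : ℤ) -
          (z + (Pi.single v 1 : V → ℤ)) u) := Finset.sum_nonneg fun u _ => h3 u
      rw [hsum] at h5 ⊢
      omega

/-- A potential whose Laplacian is positive away from `q`. -/
theorem exists_potential (hC : D.Cuts) (q : V) (hE : ∀ v, D.outDeg v = D.inDeg v) :
    ∃ f : V → ℤ, f q = 0 ∧ ∀ v, v ≠ q → 1 ≤ D.lap f v := by
  classical
  have key : ∀ (k : ℕ) (S : Finset V), q ∈ S → Sᶜ.card = k →
      (∃ f : V → ℤ, f q = 0 ∧ (∀ v ∈ S, v ≠ q → 1 ≤ D.lap f v) ∧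
        ∀ v, v ∉ S → ∀ u, f u ≤ f v) →
      ∃ f : V → ℤ, f q = 0 ∧ ∀ v, v ≠ q → 1 ≤ D.lap f v := by
    intro k
    induction k with
    | zero =>
      rintro S hqS hcard ⟨f, hfq, hf, -⟩
      have : S = Finset.univ := by
        rw [Finset.card_eq_zero] at hcard
        rwa [Finset.compl_eq_empty_iff] at hcard
      exact ⟨f, hfq, fun v hv => hf v (this ▸ Finset.mem_univ v) hv⟩
    | succ k ih =>
      rintro S hqS hcard ⟨f, hfq, hf, hmax⟩
      have hne : Sᶜ.Nonempty := by
        rw [← Finset.card_pos]; omega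
      have hnu : Sᶜ ≠ Finset.univ := fun h => by
        have : q ∈ Sᶜ := h ▸ Finset.mem_univ q
        simp at this; exact this hqS
      have hcut := hC Sᶜ hne hnu
      obtain ⟨w, hwS, hw⟩ : ∃ w ∈ Sᶜ, 1 ≤ ∑ u ∈ S, (D.m u w : ℤ) := by
        by_contra hcon
        push Not at hcon
        have : ∑ v ∈ Sᶜ, ∑ u ∈ Sᶜᶜ, (D.m u v : ℤ) ≤ 0 := by
          refine Finset.sum_nonpos fun v hv => ?_
          rw [compl_compl]
          have := hcon v hv
          omega
        omega
      have hwS' : w ∉ S := by simpa using hwS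
      set K : ℤ := 1 + ∑ v, (D.outDeg v : ℤ) with hK
      have hKpos : 1 ≤ K := by
        have : (0 : ℤ) ≤ ∑ v, (D.outDeg v : ℤ) := Finset.sum_nonneg fun _ _ => by positivity
        linarith
      let f' : V → ℤ := fun v => K * f v + (if v ∈ S then 0 else 1)
      have hf' : ∀ v, D.lap f' v = K * D.lap f v + D.lap (fun v => if v ∈ S then 0 else 1) v := by
        intro v
        have h1 : f' = (fun v => K * f v) + (fun v => if v ∈ S then (0 : ℤ) else 1) := rfl
        rw [h1, D.lap_add]
        congr 1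
        simp only [lap]
        rw [mul_sub, Finset.mul_sum]
        congr 1
        · ring
        · exact Finset.sum_congr rfl fun u _ => by ring
      refine ih (insert w S) (Finset.mem_insert_of_mem hqS) ?_ ⟨f', ?_, ?_, ?_⟩
      · rw [Finset.compl_insert, Finset.card_erase_of_mem hwS]
        omega
      · simp [f', hfq, hqS]
      · intro v hv hvq
        rw [hf']
        rcases Finset.mem_insert.1 hv with rfl | hvS
        · have h1 : 0 ≤ D.lap f v := by
            simp only [lap]
            have h2 : (D.outDeg v : ℤ) * f v = ∑ u, (D.m u v : ℤ) * f v := by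
              rw [hE v, inDeg]; push_cast; rw [Finset.sum_mul]
            rw [h2, ← Finset.sum_sub_distrib]
            refine Finset.sum_nonneg fun u _ => ?_
            rw [← mul_sub]
            exact mul_nonneg (by positivity) (by linarith [hmax v hwS' u])
          have h2 : 1 ≤ D.lap (fun v => if v ∈ S then (0 : ℤ) else 1) v := by
            simp only [lap, hwS', if_false]
            rw [D.outDeg_split hE S v]
            have h3 : ∑ u, (D.m u v : ℤ) * (if u ∈ S then 0 else 1) =
                ∑ u ∈ Sᶜ, (D.m u v : ℤ) := by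
              rw [← Finset.sum_compl_add_sum S]
              have h4 : ∑ u ∈ S, (D.m u v : ℤ) * (if u ∈ S then 0 else 1) = 0 :=
                Finset.sum_eq_zero (fun u hu => by simp [hu])
              rw [h4, add_zero]
              exact Finset.sum_congr rfl fun u hu => by
                have : u ∉ S := by simpa using hu
                simp [this]
            rw [h3]
            linarith
          nlinarith
        · have h1 := hf v hvS hvq
          have h2 : -(D.outDeg v : ℤ) ≤ D.lap (fun v => if v ∈ S then (0 : ℤ) else 1) v := by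
            simp only [lap, hvS, if_true, mul_zero, zero_sub, neg_le_neg_iff]
            rw [hE v, inDeg]
            push_cast
            refine Finset.sum_le_sum fun u _ => ?_
            split
            · simp
            · simp
          have h3 : (D.outDeg v : ℤ) ≤ ∑ v, (D.outDeg v : ℤ) :=
            Finset.single_le_sum (f := fun v => (D.outDeg v : ℤ)) (fun _ _ => by positivity)
              (Finset.mem_univ v)
          nlinarith
      · intro v hv u
        have hvS : v ∉ S := fun h => hv (Finset.mem_insert_of_mem h)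
        have h1 := hmax v hvS u
        simp only [f', hvS, if_false]
        have h2 : (if u ∈ S then (0 : ℤ) else 1) ≤ 1 := by split <;> norm_num
        nlinarith
  exact key _ {q} (by simp) rfl ⟨0, rfl, fun v hv hvq => absurd (by simpa using hv) hvq,
    fun _ _ _ => le_rfl⟩

/-- Existence of the canonical script. -/
theorem exists_rep (h : D.Eulerian) (x : V → ℕ) (q : V) (B : ℤ) :
    ∃ z : V → ℤ, z q = B ∧ D.Burns x q z ∧ ∀ v, v ≠ q → ¬ D.Hot x z v := by
  classical
  have hE := h.2
  have hC := D.cuts_of_eulerian h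
  obtain ⟨f, hfq, hf⟩ := D.exists_potential hC q hE
  set K : ℤ := ∑ v, (D.outDeg v : ℤ) with hK
  let z : V → ℤ := fun v => B + -(K * f v)
  have hz : ∀ v, D.lap z v = -(K * D.lap f v) := by
    intro v
    have h1 : D.lap z v = D.lap (fun v => -(K * f v)) v := by
      have h2 := D.lap_add_const hE (fun v => -(K * f v)) B v
      rw [← h2]
      simp only [z]
      congr 1
      funext u
      ring
    rw [h1]
    simp only [lap]
    rw [mul_sub, Finset.mul_sum, neg_sub, Finset.sum_congr rfl
      (fun u _ => show (D.m u v : ℤ) * -(K * f u) = -(K * ((D.m u v : ℤ) * f u)) by ring),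
      Finset.sum_neg_distrib]
    ring
  have hb : D.Burns x q z := by
    rintro A ⟨v, hv⟩ hqA
    refine ⟨v, hv, ?_⟩
    have hvq : v ≠ q := fun h => hqA (h ▸ hv)
    rw [hz]
    have h1 := hf v hvq
    have h2 : (D.outDeg v : ℤ) ≤ K :=
      Finset.single_le_sum (f := fun v => (D.outDeg v : ℤ)) (fun _ _ => by positivity)
        (Finset.mem_univ v)
    have h3 : ∑ u ∈ A, (D.m u v : ℤ) ≤ D.outDeg v := by
      rw [D.outDeg_split hE A v]
      have : (0 : ℤ) ≤ ∑ u ∈ Aᶜ, (D.m u v : ℤ) := Finset.sum_nonneg fun _ _ => by positivity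
      linarith
    have h4 : (0 : ℤ) ≤ D.outDeg v := by positivity
    have h5 : (0 : ℤ) ≤ x v := by positivity
    nlinarith
  exact D.exists_rep_aux hE hC x q B _ z (by simp [z, hfq]) hb le_rfl

/-- The canonical script exists, is unique, is bounded and decides whether the game terminates. -/
theorem rep_main (h : D.Eulerian) (x : V → ℕ) (q : V) (B : ℤ) :
    ∃ z : V → ℤ, (z q = B ∧ D.Burns x q z ∧ ∀ v, v ≠ q → ¬ D.Hot x z v) ∧
      (∀ z' : V → ℤ, (z' q = B ∧ D.Burns x q z' ∧ ∀ v, v ≠ q → ¬ D.Hot x z' v) → z' = z) ∧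
      (∀ v, z v ≤ B + Fintype.card V * ∑ u, x u) ∧
      (∀ v, B - Fintype.card V * ∑ u, D.outDeg u ≤ z v) ∧
      (D.Terminates x ↔ ¬ D.Hot x z q) := by
  obtain ⟨z, hq, hb, hs⟩ := D.exists_rep h x q B
  have hC := D.cuts_of_eulerian h
  refine ⟨z, ⟨hq, hb, hs⟩, ?_, ?_, ?_, D.terminates_iff_rep h.2 x q z hb hs⟩
  · rintro z' ⟨hq', hb', hs'⟩
    exact D.rep_unique h.2 x q z' z (hq'.trans hq.symm) hb' hs' hb hs
  · intro v
    have := D.burns_le h.2 hC x q z hb v
    rwa [hq] at this
  · intro v
    have := D.stable_ge h.2 hC x q z hs v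
    rwa [hq] at this

end MultiDigraph

end Pool.Agent.Work.MP_85af13_lc
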