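import Pool.Agent.Work.MP_85af13_lc.Grow
import Pool.Agent.Work.MP_85af13_lc.Rep

/-!
Polynomial-time tests: Eulerian multidigraphs and canonical scripts.
-/

set_option autoImplicit false
set_option linter.unusedSimpArgs false

namespace Pool.Agent.Work.MP_85af13_lc

open Pool.Agent.Work.PolyTime
open Pool.Agent.Work.MP_63b90e_lc (addB shiftB)
open Pool.Agent.Work.MP_62a643_lc (leB)

/-- Multiplicity in binary. -/
def mlB (I : Inst) (u v : ℕ) : List Bool :=
  bif decide (u = v) then [] else (I.1.getD u []).getD v []

theorem binVal_mlB (I : Inst) (u v : ℕ) : binVal (mlB I u v) = mult I u v := by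
  unfold mlB mult
  by_cases h : u = v <;> simp [h, binVal]

/-- Out-degree in binary. -/
def degL (I : Inst) (v : ℕ) : List Bool := sumL ((List.range I.2.length).map fun u => mlB I v u)

/-- In-degree in binary. -/
def inL (I : Inst) (v : ℕ) : List Bool := sumL ((List.range I.2.length).map fun u => mlB I u v)

theorem sum_range_fin {M : Type} [AddCommMonoid M] (n : ℕ) (f : ℕ → M) :
    ((List.range n).map f).sum = ∑ u : Fin n, f u := by
  rw [Fin.sum_univ_eq_sum_range f n]
  rfl

theorem binVal_degL (I : Inst) (v : Fin I.2.length) :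
    binVal (degL I v) = (graphOf I).outDeg v := by
  rw [degL, binVal_sumL, List.map_map, MultiDigraph.outDeg, sum_range_fin]
  exact Finset.sum_congr rfl fun u _ => binVal_mlB I v u

theorem binVal_inL (I : Inst) (v : Fin I.2.length) :
    binVal (inL I v) = (graphOf I).inDeg v := by
  rw [inL, binVal_sumL, List.map_map, MultiDigraph.inDeg, sum_range_fin]
  exact Finset.sum_congr rfl fun u _ => binVal_mlB I u v

/-- Is there an edge between `u` and `v`? -/
def adjB (I : Inst) (u v : ℕ) : Bool := leB [true] (mlB I u v) || leB [true] (mlB I v u)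

/-- Growth of the component of the vertex `0`. -/
def connB (I : Inst) (S : List ℕ) (v : ℕ) : Bool := decide (v = 0) || S.any fun u => adjB I u v

/-- Is the multidigraph Eulerian? -/
def eulB (I : Inst) : Bool :=
  ((List.range I.2.length).all fun v => leB (degL I v) (inL I v) && leB (inL I v) (degL I v)) &&
    decide ((growN I.2.length (connB I) I.2.length).length = I.2.length)

/-- Can `v` be fired after the script `Z` and one further firing of each vertex of `S`? -/
def hotB (I : Inst) (Z : List (List Bool)) (S : List ℕ) (v : ℕ) : Bool :=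
  leB (mulB (degL I v) (addB (Z.getD v []) [true]))
    (addB (I.2.getD v []) (sumL ((List.range I.2.length).map fun u =>
      mulB (mlB I u v) (addB (Z.getD u []) [memB u S]))))

/-- Growth of the set of burnt vertices. -/
def burnB (I : Inst) (Z : List (List Bool)) (S : List ℕ) (v : ℕ) : Bool :=
  decide (v = 0) || hotB I Z S v

/-- Is `Z` the canonical script of `I`, with entries of `w` digits? -/
def certB (I : Inst) (w : ℕ) (Z : List (List Bool)) : Bool :=
  decide (Z.length = I.2.length) && ((Z.all fun b => decide (b.length = w)) &&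
    (decide (Z.getD 0 [] = shiftB (w - 1) [true]) &&
      (((List.range I.2.length).all fun v => decide (v = 0) || !(hotB I Z [] v)) &&
        decide ((growN I.2.length (burnB I Z) I.2.length).length = I.2.length))))

/-! ### Polynomial time -/

section

variable {α β γ : Type} [Code α] [Code β] [Code γ]

theorem PTime.mlB {I : α → Inst} {u v : α → ℕ} (hI : PTime I) (hu : PTime u) (hv : PTime v) :
    PTime (fun x => MP_85af13_lc.mlB (I x) (u x) (v x)) := by
  unfold MP_85af13_lc.mlB
  exact PTime.cond (PTime.eq hu hv) (PTime.const _)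
    (PTime.nth (PTime.nth (PTime.fst.comp hI) hu (PTime.const _)) hv (PTime.const _))

theorem PTime.size {I : α → Inst} (hI : PTime I) : PTime (fun x => (I x).2.length) :=
  PTime.length (PTime.snd.comp hI)

theorem PTime.degL {I : α → Inst} {v : α → ℕ} (hI : PTime I) (hv : PTime v) :
    PTime (fun x => MP_85af13_lc.degL (I x) (v x)) := by
  unfold MP_85af13_lc.degL
  exact PTime.sumL (PTime.map (f := fun x u => MP_85af13_lc.mlB (I x) (v x) u)
    (PTime.range (PTime.size hI))
    (PTime.mlB (hI.comp PTime.fst) (hv.comp PTime.fst) PTime.snd))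

theorem PTime.inL {I : α → Inst} {v : α → ℕ} (hI : PTime I) (hv : PTime v) :
    PTime (fun x => MP_85af13_lc.inL (I x) (v x)) := by
  unfold MP_85af13_lc.inL
  exact PTime.sumL (PTime.map (f := fun x u => MP_85af13_lc.mlB (I x) u (v x))
    (PTime.range (PTime.size hI))
    (PTime.mlB (hI.comp PTime.fst) PTime.snd (hv.comp PTime.fst)))

theorem PTime.adjB {I : α → Inst} {u v : α → ℕ} (hI : PTime I) (hu : PTime u) (hv : PTime v) :
    PTime (fun x => MP_85af13_lc.adjB (I x) (u x) (v x)) := by
  unfold MP_85af13_lc.adjB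
  exact PTime.or (PTime.leB' (PTime.const _) (PTime.mlB hI hu hv))
    (PTime.leB' (PTime.const _) (PTime.mlB hI hv hu))

theorem PTime.connB {I : α → Inst} {S : α → List ℕ} {v : α → ℕ} (hI : PTime I) (hS : PTime S)
    (hv : PTime v) : PTime (fun x => MP_85af13_lc.connB (I x) (S x) (v x)) := by
  unfold MP_85af13_lc.connB
  refine PTime.or (PTime.eq hv (PTime.const _)) ?_
  exact PTime.any (p := fun x u => MP_85af13_lc.adjB (I x) u (v x)) hS
    (PTime.adjB (hI.comp PTime.fst) PTime.snd (hv.comp PTime.fst))

theorem PTime.eulB {I : α → Inst} (hI : PTime I) :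
    PTime (fun x => MP_85af13_lc.eulB (I x)) := by
  unfold MP_85af13_lc.eulB
  refine PTime.and ?_ ?_
  · refine PTime.all (p := fun x v => leB (MP_85af13_lc.degL (I x) v) (MP_85af13_lc.inL (I x) v) &&
      leB (MP_85af13_lc.inL (I x) v) (MP_85af13_lc.degL (I x) v)) (PTime.range (PTime.size hI)) ?_
    have h1 : PTime (fun y : α × ℕ => MP_85af13_lc.degL (I y.1) y.2) :=
      PTime.degL (hI.comp PTime.fst) PTime.snd
    have h2 : PTime (fun y : α × ℕ => MP_85af13_lc.inL (I y.1) y.2) :=
      PTime.inL (hI.comp PTime.fst) PTime.snd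
    exact PTime.and (PTime.leB' h1 h2) (PTime.leB' h2 h1)
  · refine PTime.eq (PTime.length (PTime.growN (t := fun x => MP_85af13_lc.connB (I x))
      (PTime.size hI) (PTime.size hI) ?_)) (PTime.size hI)
    exact PTime.connB (hI.comp PTime.fst) (by fun_prop) (by fun_prop)

theorem PTime.hotB {I : α → Inst} {Z : α → List (List Bool)} {S : α → List ℕ} {v : α → ℕ}
    (hI : PTime I) (hZ : PTime Z) (hS : PTime S) (hv : PTime v) :
    PTime (fun x => MP_85af13_lc.hotB (I x) (Z x) (S x) (v x)) := by
  unfold MP_85af13_lc.hotB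
  refine PTime.leB' (PTime.mulB (PTime.degL hI hv) (PTime.addB' (PTime.nth hZ hv (PTime.const _))
    (PTime.const _))) (PTime.addB' (PTime.nth (PTime.snd.comp hI) hv (PTime.const _)) ?_)
  refine PTime.sumL (PTime.map (f := fun x u => MP_85af13_lc.mulB (MP_85af13_lc.mlB (I x) u (v x))
    (addB ((Z x).getD u []) [memB u (S x)])) (PTime.range (PTime.size hI)) ?_)
  refine PTime.mulB (PTime.mlB (hI.comp PTime.fst) PTime.snd (hv.comp PTime.fst))
    (PTime.addB' (PTime.nth (hZ.comp PTime.fst) PTime.snd (PTime.const _)) ?_)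
  exact PTime.cons (PTime.memB PTime.snd (hS.comp PTime.fst)) (PTime.const _)

theorem PTime.certB {I : α → Inst} {w : α → ℕ} {Z : α → List (List Bool)}
    (hI : PTime I) (hw : PTime w) (hZ : PTime Z) :
    PTime (fun x => MP_85af13_lc.certB (I x) (w x) (Z x)) := by
  unfold MP_85af13_lc.certB
  refine PTime.and (PTime.eq (PTime.length hZ) (PTime.size hI)) (PTime.and ?_ (PTime.and ?_
    (PTime.and ?_ ?_)))
  · exact PTime.all (p := fun x b => decide (b.length = w x)) hZ
      (PTime.eq (PTime.length PTime.snd) (hw.comp PTime.fst))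
  · exact PTime.eq (PTime.nth hZ (PTime.const _) (PTime.const _))
      (PTime.shiftB' (PTime.natSub hw (PTime.const _)) (PTime.const _))
  · refine PTime.all (p := fun x v => decide (v = 0) || !(MP_85af13_lc.hotB (I x) (Z x) [] v))
      (PTime.range (PTime.size hI)) ?_
    exact PTime.or (PTime.eq PTime.snd (PTime.const _)) (PTime.not (PTime.hotB
      (hI.comp PTime.fst) (hZ.comp PTime.fst) (PTime.const _) PTime.snd))
  · refine PTime.eq (PTime.length (PTime.growN (t := fun x => MP_85af13_lc.burnB (I x) (Z x))
      (PTime.size hI) (PTime.size hI) ?_)) (PTime.size hI)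
    unfold MP_85af13_lc.burnB
    exact PTime.or (PTime.eq (by fun_prop) (PTime.const _)) (PTime.hotB
      (hI.comp PTime.fst) (hZ.comp PTime.fst) (by fun_prop) (by fun_prop))

end

/-! ### Correctness -/

theorem one_leB {a : List Bool} : leB [true] a = true ↔ 0 < binVal a := by
  rw [leB_iff']
  simp [binVal, Nat.succ_le_iff]

theorem adjB_iff (I : Inst) (u v : Fin I.2.length) :
    adjB I u v = true ↔ (0 < (graphOf I).m u v ∨ 0 < (graphOf I).m v u) := by
  simp [adjB, one_leB, binVal_mlB, graphOf]

theorem eulB_iff (I : Inst) : eulB I = true ↔ (graphOf I).Eulerian := by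
  have h1 : ((List.range I.2.length).all fun v => leB (degL I v) (inL I v) &&
      leB (inL I v) (degL I v)) = true ↔ ∀ v, (graphOf I).outDeg v = (graphOf I).inDeg v := by
    simp only [List.all_eq_true, List.mem_range, Bool.and_eq_true, leB_iff']
    constructor
    · intro h v
      have := h v v.2
      rw [binVal_degL, binVal_inL] at this
      exact le_antisymm this.1 this.2
    · intro h v hv
      have h1 := binVal_degL I ⟨v, hv⟩
      have h2 := binVal_inL I ⟨v, hv⟩
      have := h ⟨v, hv⟩
      simp only at h1 h2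
      rw [h1, h2, this]
      exact ⟨le_rfl, le_rfl⟩
  have h2 : (growN I.2.length (connB I) I.2.length).length = I.2.length ↔
      ∀ u v : Fin I.2.length, Relation.ReflTransGen
        (fun a b => 0 < (graphOf I).m a b ∨ 0 < (graphOf I).m b a) u v := by
    rw [growN_full]
    constructor
    · intro h
      have hpos : ∀ u : Fin I.2.length, 0 < I.2.length := fun u => lt_of_le_of_lt (Nat.zero_le _) u.2
      have key : ∀ (k : ℕ) (v : Fin I.2.length), (v : ℕ) ∈ growN I.2.length (connB I) k →
          Relation.ReflTransGen (fun a b => 0 < (graphOf I).m a b ∨ 0 < (graphOf I).m b a)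
            ⟨0, hpos v⟩ v := by
        intro k
        induction k with
        | zero => intro v hv; simp [growN] at hv
        | succ k ih =>
          intro v hv
          rcases (mem_growStep.1 hv).2 with hv | hv
          · exact ih v hv
          · simp only [connB, Bool.or_eq_true, decide_eq_true_eq, List.any_eq_true] at hv
            rcases hv with hv | ⟨u, hu, huv⟩
            · have : v = ⟨0, hpos v⟩ := Fin.ext hv
              rw [← this]
            · exact (ih ⟨u, growN_lt hu⟩ hu).tail ((adjB_iff I ⟨u, growN_lt hu⟩ v).1 huv)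
      intro u v
      have hs : ∀ a b : Fin I.2.length, Relation.ReflTransGen
          (fun a b => 0 < (graphOf I).m a b ∨ 0 < (graphOf I).m b a) a b →
          Relation.ReflTransGen
          (fun a b => 0 < (graphOf I).m a b ∨ 0 < (graphOf I).m b a) b a := by
        intro a b hab
        induction hab with
        | refl => exact Relation.ReflTransGen.refl
        | tail _ hstep ih => exact Relation.ReflTransGen.head hstep.symm ih
      exact (hs _ _ (key _ u (h u u.2))).trans (key _ v (h v v.2))
    · intro h v hv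
      have h0 : 0 < I.2.length := lt_of_le_of_lt (Nat.zero_le _) hv
      have h3 := h ⟨0, h0⟩ ⟨v, hv⟩
      have key : ∀ v : Fin I.2.length, Relation.ReflTransGen
          (fun a b => 0 < (graphOf I).m a b ∨ 0 < (graphOf I).m b a) ⟨0, h0⟩ v →
          (v : ℕ) ∈ growN I.2.length (connB I) I.2.length := by
        intro v hv
        induction hv with
        | refl => exact growN_closed h0 (by simp [connB])
        | tail _ hstep ih =>
          rename_i a b _
          refine growN_closed b.2 ?_
          simp only [connB, Bool.or_eq_true, decide_eq_true_eq, List.any_eq_true]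
          exact Or.inr ⟨a, ih, (adjB_iff I a b).2 hstep⟩
      exact key ⟨v, hv⟩ h3
  unfold eulB
  rw [Bool.and_eq_true, h1, decide_eq_true_eq, h2]
  unfold MultiDigraph.Eulerian
  exact and_comm

/-- The script given by a list of binary numbers. -/
def scr (n : ℕ) (Z : List (List Bool)) (v : Fin n) : ℤ := binVal (Z.getD v [])

theorem hotB_iff (I : Inst) (Z : List (List Bool)) (S : List ℕ) (v : Fin I.2.length) :
    hotB I Z S v = true ↔ ((graphOf I).outDeg v : ℤ) ≤ chipsOf I v -
      (graphOf I).lap (scr I.2.length Z) v +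
      ∑ u : Fin I.2.length, ((graphOf I).m u v : ℤ) * (if (u : ℕ) ∈ S then 1 else 0) := by
  unfold hotB
  rw [leB_iff', binVal_mulB, binVal_addB, binVal_addB, binVal_degL, binVal_sumL, List.map_map,
    sum_range_fin]
  have h1 : ∀ u : Fin I.2.length, (binVal ∘ fun u => mulB (mlB I u v) (addB (Z.getD u [])
      [memB u S])) (u : ℕ) = (graphOf I).m u v * (binVal (Z.getD u []) +
        (if (u : ℕ) ∈ S then 1 else 0)) := by
    intro u
    simp only [Function.comp, binVal_mulB, binVal_addB, binVal_mlB]
    congr 2
    by_cases hu : (u : ℕ) ∈ S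
    · have : memB (u : ℕ) S = true := memB_iff.2 hu
      simp [this, binVal, hu]
    · have : memB (u : ℕ) S = false := by
        rw [← Bool.not_eq_true]
        exact fun h => hu (memB_iff.1 h)
      simp [this, binVal, hu]
  rw [Finset.sum_congr rfl fun u _ => h1 u]
  simp only [MultiDigraph.lap, scr, chipsOf]
  rw [← Nat.cast_le (α := ℤ)]
  push_cast
  simp only [mul_add, Finset.sum_add_distrib, binVal, Bool.toNat_true, mul_one]
  constructor <;> intro h
  · push_cast at h ⊢
    linarith
  · push_cast at h ⊢
    linarith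

theorem hotB_nil (I : Inst) (Z : List (List Bool)) (v : Fin I.2.length) :
    hotB I Z [] v = true ↔ (graphOf I).Hot (chipsOf I) (scr I.2.length Z) v := by
  rw [hotB_iff]
  simp [MultiDigraph.Hot]

theorem burn_iff (I : Inst) (hE : (graphOf I).Eulerian) (Z : List (List Bool))
    (q : Fin I.2.length) (hq : (q : ℕ) = 0) :
    (growN I.2.length (burnB I Z) I.2.length).length = I.2.length ↔
      (graphOf I).Burns (chipsOf I) q (scr I.2.length Z) := by
  classical
  rw [growN_full]
  have hsplit : ∀ (S : List ℕ) (A : Finset (Fin I.2.length)) (v : Fin I.2.length),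
      (∀ u : Fin I.2.length, (u : ℕ) ∈ S → u ∉ A) →
      ∑ u : Fin I.2.length, ((graphOf I).m u v : ℤ) * (if (u : ℕ) ∈ S then 1 else 0) ≤
        ∑ u ∈ Aᶜ, ((graphOf I).m u v : ℤ) := by
    intro S A v hSA
    rw [← Finset.sum_compl_add_sum A]
    have h1 : ∑ u ∈ A, ((graphOf I).m u v : ℤ) * (if (u : ℕ) ∈ S then 1 else 0) = 0 :=
      Finset.sum_eq_zero fun u hu => by
        have : (u : ℕ) ∉ S := fun h => hSA u h hu
        simp [this]
    rw [h1, add_zero]
    refine Finset.sum_le_sum fun u _ => ?_
    split
    · simp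
    · simp
  constructor
  · rintro h A ⟨a, ha⟩ hqA
    have hex : ∃ k, ∃ v : Fin I.2.length, v ∈ A ∧ (v : ℕ) ∈ growN I.2.length (burnB I Z) k :=
      ⟨I.2.length, a, ha, h a a.2⟩
    set k := Nat.find hex with hk
    obtain ⟨v, hvA, hv⟩ := Nat.find_spec hex
    have hk0 : k ≠ 0 := by
      intro h0
      rw [← hk, h0] at hv
      simp [growN] at hv
    obtain ⟨j, hj⟩ : ∃ j, k = j + 1 := ⟨k - 1, by omega⟩
    have hmin : ∀ u : Fin I.2.length, (u : ℕ) ∈ growN I.2.length (burnB I Z) j → u ∉ A := by
      intro u hu huA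
      exact Nat.find_min hex (m := j) (by omega) ⟨u, huA, hu⟩
    rw [← hk, hj] at hv
    rcases (mem_growStep.1 hv).2 with hv | hv
    · exact absurd hvA (hmin v hv)
    · simp only [burnB, Bool.or_eq_true, decide_eq_true_eq] at hv
      rcases hv with hv | hv
      · exfalso
        have : v = q := Fin.ext (hv.trans hq.symm)
        exact hqA (this ▸ hvA)
      · refine ⟨v, hvA, ?_⟩
        rw [hotB_iff] at hv
        have h2 := hsplit _ A v hmin
        rw [(graphOf I).outDeg_split hE.2 A v] at hv
        linarith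
  · intro hb
    by_contra hcon
    push Not at hcon
    obtain ⟨w, hw, hwS⟩ := hcon
    set S := growN I.2.length (burnB I Z) I.2.length with hS
    let A : Finset (Fin I.2.length) := Finset.univ.filter fun u => (u : ℕ) ∉ S
    have hmemA : ∀ u, u ∈ A ↔ (u : ℕ) ∉ S := by intro u; simp [A]
    have hqA : q ∉ A := by
      rw [hmemA, not_not, hS]
      exact growN_closed q.2 (by simp [burnB, hq])
    obtain ⟨v, hvA, hv⟩ := hb A ⟨⟨w, hw⟩, (hmemA _).2 hwS⟩ hqA
    have hvS := (hmemA v).1 hvA
    apply hvS
    rw [hS]
    refine growN_closed v.2 ?_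
    simp only [burnB, Bool.or_eq_true, decide_eq_true_eq]
    right
    rw [hotB_iff, ← hS]
    have h3 : ∑ u ∈ Aᶜ, ((graphOf I).m u v : ℤ) =
        ∑ u : Fin I.2.length, ((graphOf I).m u v : ℤ) * (if (u : ℕ) ∈ S then 1 else 0) := by
      rw [← Finset.sum_compl_add_sum A]
      have h4 : ∑ u ∈ A, ((graphOf I).m u v : ℤ) * (if (u : ℕ) ∈ S then 1 else 0) = 0 :=
        Finset.sum_eq_zero fun u hu => by
          have := (hmemA u).1 hu
          simp [this]
      rw [h4, add_zero]
      refine Finset.sum_congr rfl fun u hu => ?_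
      have : (u : ℕ) ∈ S := by
        by_contra h
        exact (Finset.mem_compl.1 hu) ((hmemA u).2 h)
      simp [this]
    rw [(graphOf I).outDeg_split hE.2 A v, ← h3]
    linarith

theorem certB_iff (I : Inst) (hE : (graphOf I).Eulerian) (w : ℕ) (Z : List (List Bool))
    (q : Fin I.2.length) (hq : (q : ℕ) = 0) :
    certB I w Z = true ↔ Z.length = I.2.length ∧ (∀ b ∈ Z, b.length = w) ∧
      Z.getD 0 [] = shiftB (w - 1) [true] ∧
      (graphOf I).Burns (chipsOf I) q (scr I.2.length Z) ∧
      ∀ v, v ≠ q → ¬ (graphOf I).Hot (chipsOf I) (scr I.2.length Z) v := by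
  unfold certB
  simp only [Bool.and_eq_true, decide_eq_true_eq, burn_iff I hE Z q hq, List.all_eq_true,
    List.mem_range, Bool.or_eq_true, Bool.not_eq_true']
  constructor
  · rintro ⟨h1, h2, h3, h4, h5⟩
    refine ⟨h1, h2, h3, h5, fun v hv hh => ?_⟩
    rcases h4 v v.2 with h | h
    · exact hv (Fin.ext (h.trans hq.symm))
    · rw [(hotB_nil I Z v).2 hh] at h
      exact absurd h (by simp)
  · rintro ⟨h1, h2, h3, h4, h5⟩
    refine ⟨h1, h2, h3, fun v hv => ?_, h4⟩
    by_cases h : v = 0
    · exact Or.inl h
    · right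
      rw [← Bool.not_eq_true]
      intro hh
      exact h5 ⟨v, hv⟩ (fun h' => h (by rw [← hq, ← h'])) ((hotB_nil I Z ⟨v, hv⟩).1 hh)

end Pool.Agent.Work.MP_85af13_lc
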