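import Pool.Agent.Work.MP_85af13_lc.Defs

set_option autoImplicit false
set_option linter.unusedSectionVars false
set_option linter.unusedSimpArgs false

namespace Pool.Agent.Work.MP_85af13_lc

namespace MultiDigraph

variable {V : Type} [Fintype V] [DecidableEq V] (D : MultiDigraph V)

/-- Laplacian applied to a script. -/
def lap (z : V → ℤ) (v : V) : ℤ := D.outDeg v * z v - ∑ u, (D.m u v : ℤ) * z u

theorem lap_add (z w : V → ℤ) (v : V) : D.lap (z + w) v = D.lap z v + D.lap w v := by
  simp only [lap, Pi.add_apply, mul_add, Finset.sum_add_distrib]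
  ring

theorem lap_zero (v : V) : D.lap 0 v = 0 := by
  simp [lap]

theorem lap_neg (z : V → ℤ) (v : V) : D.lap (-z) v = - D.lap z v := by
  simp only [lap, Pi.neg_apply, mul_neg, Finset.sum_neg_distrib]
  ring

theorem lap_const (hE : ∀ v, D.outDeg v = D.inDeg v) (c : ℤ) (v : V) :
    D.lap (fun _ => c) v = 0 := by
  simp only [lap]
  rw [← Finset.sum_mul, hE v, inDeg]
  push_cast
  ring

theorem lap_single (v u : V) :
    D.lap (Pi.single v 1) u = (if u = v then (D.outDeg v : ℤ) else 0) - D.m v u := by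
  simp only [lap]
  have h1 : ∑ w, (D.m w u : ℤ) * (Pi.single v 1 : V → ℤ) w = D.m v u := by
    rw [Finset.sum_eq_single v]
    · simp
    · intro w _ hw
      simp [hw]
    · simp
  rw [h1]
  by_cases h : u = v
  · subst h; simp
  · simp [h]

theorem fire_cast (x : V → ℕ) (v : V) (h : D.Active x v) (u : V) :
    ((D.fire x v u : ℕ) : ℤ) = x u - D.lap (Pi.single v 1) u := by
  rw [lap_single]
  unfold fire
  by_cases huv : u = v
  · subst huv
    have h' : D.outDeg u ≤ x u := h
    simp [D.loopless]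
    omega
  · simp [huv]

theorem exists_script {x y : V → ℕ} (h : Relation.ReflTransGen D.Step x y) :
    ∃ z : V → ℤ, ∀ v, (y v : ℤ) = x v - D.lap z v := by
  induction h with
  | refl => exact ⟨0, fun v => by simp [lap_zero]⟩
  | tail _ hstep ih =>
    obtain ⟨z, hz⟩ := ih
    obtain ⟨v, hv, rfl⟩ := hstep
    refine ⟨z + Pi.single v 1, fun u => ?_⟩
    rw [fire_cast D _ v hv, hz u, lap_add]
    ring

/-- Least action principle. -/
theorem active_lt (x : V → ℕ) (z k : V → ℤ) (hz : ∀ v, (x v : ℤ) - D.lap z v < D.outDeg v)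
    (hk : ∀ v, k v ≤ z v) (y : V → ℕ) (hy : ∀ v, (y v : ℤ) = x v - D.lap k v) (v : V)
    (hv : D.Active y v) : k v < z v := by
  rcases lt_or_eq_of_le (hk v) with h | h
  · exact h
  · exfalso
    have h1 : D.lap z v ≤ D.lap k v := by
      simp only [lap]
      have : ∑ u, (D.m u v : ℤ) * k u ≤ ∑ u, (D.m u v : ℤ) * z u :=
        Finset.sum_le_sum (fun u _ => mul_le_mul_of_nonneg_left (hk u) (by positivity))
      rw [h]
      linarith
    have h2 := hz v
    have h3 := hy v
    have h4 : (D.outDeg v : ℤ) ≤ y v := by exact_mod_cast hv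
    linarith

theorem terminates_of_script_aux (x : V → ℕ) (z : V → ℤ)
    (hz : ∀ v, (x v : ℤ) - D.lap z v < D.outDeg v) :
    ∀ (M : ℕ) (k : V → ℤ), (∀ v, k v ≤ z v) → (∑ v, (z v - k v)).toNat ≤ M →
      ∀ y : V → ℕ, (∀ v, (y v : ℤ) = x v - D.lap k v) → D.Terminates y := by
  intro M
  induction M with
  | zero =>
    intro k hk hM y hy
    refine ⟨y, Relation.ReflTransGen.refl, fun v hv => ?_⟩
    have h1 := D.active_lt x z k hz hk y hy v hv
    have h2 : (z v - k v) ≤ ∑ v, (z v - k v) :=
      Finset.single_le_sum (f := fun v => z v - k v) (fun u _ => by linarith [hk u])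
        (Finset.mem_univ v)
    omega
  | succ M ih =>
    intro k hk hM y hy
    by_cases hst : ∀ v, ¬ D.Active y v
    · exact ⟨y, Relation.ReflTransGen.refl, hst⟩
    · push Not at hst
      obtain ⟨v, hv⟩ := hst
      have h1 := D.active_lt x z k hz hk y hy v hv
      have hk' : ∀ u, (k + (Pi.single v 1 : V → ℤ)) u ≤ z u := by
        intro u
        by_cases huv : u = v
        · subst huv; simp; omega
        · simp [huv, hk u]
      have hsum : ∑ u, (z u - (k + (Pi.single v 1 : V → ℤ)) u) = (∑ u, (z u - k u)) - 1 := by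
        have : ∀ u, z u - (k + (Pi.single v 1 : V → ℤ)) u = (z u - k u) - (Pi.single v 1 : V → ℤ) u := by
          intro u; simp; ring
        rw [Finset.sum_congr rfl (fun u _ => this u), Finset.sum_sub_distrib]
        congr 1
        simp
      have h2 : (z v - k v) ≤ ∑ v, (z v - k v) :=
        Finset.single_le_sum (f := fun v => z v - k v) (fun u _ => by linarith [hk u])
          (Finset.mem_univ v)
      obtain ⟨w, hw1, hw2⟩ := ih (k + (Pi.single v 1 : V → ℤ)) hk' (by rw [hsum]; omega) (D.fire y v)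
        (fun u => by rw [fire_cast D _ v hv, hy u, lap_add]; ring)
      exact ⟨w, Relation.ReflTransGen.head ⟨v, hv, rfl⟩ hw1, hw2⟩

theorem no_infinite_aux (x : V → ℕ) (z : V → ℤ)
    (hz : ∀ v, (x v : ℤ) - D.lap z v < D.outDeg v) :
    ∀ (M : ℕ) (k : V → ℤ), (∀ v, k v ≤ z v) → (∑ v, (z v - k v)).toNat ≤ M →
      ∀ y : V → ℕ, (∀ v, (y v : ℤ) = x v - D.lap k v) → ¬ D.HasInfiniteGame y := by
  intro M
  induction M with
  | zero =>
    rintro k hk hM y hy ⟨f, rfl, hf⟩
    obtain ⟨v, hv, _⟩ := hf 0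
    have h1 := D.active_lt x z k hz hk _ hy v hv
    have h2 : (z v - k v) ≤ ∑ v, (z v - k v) :=
      Finset.single_le_sum (f := fun v => z v - k v) (fun u _ => by linarith [hk u])
        (Finset.mem_univ v)
    omega
  | succ M ih =>
    rintro k hk hM y hy ⟨f, rfl, hf⟩
    obtain ⟨v, hv, hv2⟩ := hf 0
    have h1 := D.active_lt x z k hz hk _ hy v hv
    have hk' : ∀ u, (k + (Pi.single v 1 : V → ℤ)) u ≤ z u := by
      intro u
      by_cases huv : u = v
      · subst huv; simp; omega
      · simp [huv, hk u]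
    have hsum : ∑ u, (z u - (k + (Pi.single v 1 : V → ℤ)) u) = (∑ u, (z u - k u)) - 1 := by
      have : ∀ u, z u - (k + (Pi.single v 1 : V → ℤ)) u = (z u - k u) - (Pi.single v 1 : V → ℤ) u := by
        intro u; simp; ring
      rw [Finset.sum_congr rfl (fun u _ => this u), Finset.sum_sub_distrib]
      congr 1
      simp
    have h2 : (z v - k v) ≤ ∑ v, (z v - k v) :=
      Finset.single_le_sum (f := fun v => z v - k v) (fun u _ => by linarith [hk u])
        (Finset.mem_univ v)
    refine ih (k + (Pi.single v 1 : V → ℤ)) hk' (by rw [hsum]; omega) (f 1) (fun u => ?_)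
      ⟨fun i => f (i + 1), rfl, fun i => hf (i + 1)⟩
    rw [hv2, fire_cast D _ v hv, hy u, lap_add]; ring

theorem exists_nonneg_script (hE : ∀ v, D.outDeg v = D.inDeg v) (x : V → ℕ) (z : V → ℤ)
    (hz : ∀ v, (x v : ℤ) - D.lap z v < D.outDeg v) :
    ∃ z' : V → ℤ, (∀ v, 0 ≤ z' v) ∧ ∀ v, (x v : ℤ) - D.lap z' v < D.outDeg v := by
  refine ⟨z + fun _ => ∑ u, |z u|, fun v => ?_, fun v => ?_⟩
  · have h1 : |z v| ≤ ∑ u, |z u| :=
      Finset.single_le_sum (f := fun u => |z u|) (fun u _ => abs_nonneg _) (Finset.mem_univ v)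
    have h2 := neg_abs_le (z v)
    simp only [Pi.add_apply]
    linarith
  · rw [lap_add, lap_const D hE]
    have := hz v
    linarith

/-- The halting criterion on Eulerian multidigraphs. -/
theorem terminates_iff (hE : ∀ v, D.outDeg v = D.inDeg v) (x : V → ℕ) :
    D.Terminates x ↔ ∃ z : V → ℤ, ∀ v, (x v : ℤ) - D.lap z v < D.outDeg v := by
  constructor
  · rintro ⟨y, hxy, hy⟩
    obtain ⟨z, hz⟩ := D.exists_script hxy
    refine ⟨z, fun v => ?_⟩
    rw [← hz v]
    have := hy v
    unfold Active at this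
    exact_mod_cast not_le.1 this
  · rintro ⟨z, hz⟩
    obtain ⟨z', hz0, hz'⟩ := D.exists_nonneg_script hE x z hz
    exact D.terminates_of_script_aux x z' hz' _ 0 (fun v => by simpa using hz0 v) le_rfl x
      (fun v => by simp [lap_zero])

theorem terminates_iff_not_infinite (hE : ∀ v, D.outDeg v = D.inDeg v) (x : V → ℕ) :
    D.Terminates x ↔ ¬ D.HasInfiniteGame x := by
  constructor
  · intro h
    obtain ⟨z, hz⟩ := (D.terminates_iff hE x).1 h
    obtain ⟨z', hz0, hz'⟩ := D.exists_nonneg_script hE x z hz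
    exact D.no_infinite_aux x z' hz' _ 0 (fun v => by simpa using hz0 v) le_rfl x
      (fun v => by simp [lap_zero])
  · intro h
    by_contra hcon
    apply h
    have hnext : ∀ y : {y : V → ℕ // Relation.ReflTransGen D.Step x y},
        ∃ y' : {y : V → ℕ // Relation.ReflTransGen D.Step x y}, D.Step y.1 y'.1 := by
      rintro ⟨y, hy⟩
      have : ¬ ∀ v, ¬ D.Active y v := fun hst => hcon ⟨y, hy, hst⟩
      push Not at this
      obtain ⟨v, hv⟩ := this
      exact ⟨⟨D.fire y v, hy.tail ⟨v, hv, rfl⟩⟩, v, hv, rfl⟩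
    choose nxt hnxt using hnext
    let f : ℕ → {y : V → ℕ // Relation.ReflTransGen D.Step x y} :=
      fun i => nxt^[i] ⟨x, Relation.ReflTransGen.refl⟩
    refine ⟨fun i => (f i).1, rfl, fun i => ?_⟩
    have : f (i + 1) = nxt (f i) := Function.iterate_succ_apply' nxt i _
    change D.Step (f i).1 (f (i + 1)).1
    rw [this]
    exact hnxt (f i)

end MultiDigraph

end Pool.Agent.Work.MP_85af13_lc
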