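import Mathlib

set_option autoImplicit false

namespace Pool.Agent.Work.MP_85af13_lc

/-! ### Chip-firing on multidigraphs -/

/-- A loopless multidigraph on `V`: `m u v` is the number of edges from `u` to `v`. -/
structure MultiDigraph (V : Type) where
  /-- multiplicity of the edge `u → v` -/
  m : V → V → ℕ
  /-- there are no loops -/
  loopless : ∀ v, m v v = 0

namespace MultiDigraph

variable {V : Type} [Fintype V] [DecidableEq V] (D : MultiDigraph V)

/-- out-degree -/
def outDeg (v : V) : ℕ := ∑ u, D.m v u

/-- in-degree -/
def inDeg (v : V) : ℕ := ∑ u, D.m u v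

/-- Eulerian: connected, and in-degree equals out-degree at every vertex. -/
def Eulerian : Prop :=
  (∀ u v : V, Relation.ReflTransGen (fun a b => 0 < D.m a b ∨ 0 < D.m b a) u v) ∧
    ∀ v, D.outDeg v = D.inDeg v

/-- `v` is active in the chip configuration `x`. -/
def Active (x : V → ℕ) (v : V) : Prop := D.outDeg v ≤ x v

/-- The configuration obtained by firing `v`. -/
def fire (x : V → ℕ) (v : V) : V → ℕ :=
  fun u => if u = v then x v - D.outDeg v else x u + D.m v u

/-- One legal move of the chip-firing game. -/
def Step (x y : V → ℕ) : Prop := ∃ v, D.Active x v ∧ y = D.fire x v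

/-- The game started from `x` reaches a configuration with no active vertex. -/
def Terminates (x : V → ℕ) : Prop :=
  ∃ y, Relation.ReflTransGen D.Step x y ∧ ∀ v, ¬ D.Active y v

/-- There is an infinite legal game started from `x`. -/
def HasInfiniteGame (x : V → ℕ) : Prop :=
  ∃ f : ℕ → V → ℕ, f 0 = x ∧ ∀ i, D.Step (f i) (f (i + 1))

end MultiDigraph

/-! ### Simple stochastic games -/

/-- The three kinds of vertices. -/
inductive Kind
  | max
  | min
  | avg
deriving DecidableEq

/-- A simple stochastic game with `n` non-sink vertices. Every vertex belongs to the max player,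
to the min player, or is an average vertex, and has two successors (possibly equal); `Sum.inr true`
is the 1-sink and `Sum.inr false` is the 0-sink. -/
structure SSG (n : ℕ) where
  /-- kind of a vertex -/
  kind : Fin n → Kind
  /-- the two successors of a vertex -/
  succ : Fin n → Bool → Fin n ⊕ Bool

namespace SSG

variable {n : ℕ} (G : SSG n)

/-- Under the positional strategies `σ` (max) and `τ` (min) the play moves from `v` to
`next σ τ v false` or to `next σ τ v true` with probability one half each; for vertices of the
two players both are the chosen successor. -/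
def next (σ τ : Fin n → Bool) (v : Fin n) (i : Bool) : Fin n ⊕ Bool :=
  match G.kind v with
  | Kind.max => G.succ v (σ v)
  | Kind.min => G.succ v (τ v)
  | Kind.avg => G.succ v i

/-- Probability that the play from a position under `σ` and `τ` is in the 1-sink after at most `k`
moves. -/
noncomputable def reach (σ τ : Fin n → Bool) : ℕ → Fin n ⊕ Bool → ℝ
  | _, Sum.inr b => if b then 1 else 0
  | 0, Sum.inl _ => 0
  | k + 1, Sum.inl v =>
    (reach σ τ k (G.next σ τ v false) + reach σ τ k (G.next σ τ v true)) / 2

/-- The probability that the play from `v` under `σ` and `τ` reaches the 1-sink. -/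
noncomputable def winProb (σ τ : Fin n → Bool) (v : Fin n) : ℝ :=
  ⨆ k, G.reach σ τ k (Sum.inl v)

/-- The max player has a positional strategy that reaches the 1-sink from `v` with probability at
least `1/2` against every positional strategy of the min player, that is, the value of `v` is at
least `1/2`. -/
def ValueAtLeastHalf (v : Fin n) : Prop :=
  ∃ σ : Fin n → Bool, ∀ τ : Fin n → Bool, 1 / 2 ≤ G.winProb σ τ v

/-- `Move nx p q`: the position `p` is a vertex and `q` is one of its two next positions. -/
def Move (nx : Fin n → Bool → Fin n ⊕ Bool) : Fin n ⊕ Bool → Fin n ⊕ Bool → Prop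
  | Sum.inl v, q => ∃ i, q = nx v i
  | Sum.inr _, _ => False

/-- The game is stopping: under all positional strategies a sink can be reached from every vertex
(equivalently, a sink is reached almost surely). -/
def Stopping : Prop :=
  ∀ (σ τ : Fin n → Bool) (v : Fin n), ∃ b : Bool,
    Relation.ReflTransGen (Move (G.next σ τ)) (Sum.inl v) (Sum.inr b)

/-! ### The explicit reduction -/

/-- The scale `N`: the value `1` of the game is represented by this number. -/
def scale (n : ℕ) : ℕ := 2 ^ ((n + 1) ^ 2 + 1)

/-- The switch weight `H = 256 (n+1)^5 N^2`. -/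
def wtH (n : ℕ) : ℕ := 256 * (n + 1) ^ 5 * scale n ^ 2

/-- The tie weight `W = (n+2) H`. -/
def wtW (n : ℕ) : ℕ := (n + 2) * wtH n

/-- The threshold weight `Q = 16 (n+1)^3 N`. -/
def wtQ (n : ℕ) : ℕ := 16 * (n + 1) ^ 3 * scale n

/-- Vertices of the reduction multigraph: the ground `none`, and `s_v = some (v,0)`,
`a_v = some (v,1)`, `b_v = some (v,2)` for every vertex `v` of the game. -/
abbrev Vtx (n : ℕ) : Type := Option (Fin n × Fin 3)

/-- The vertex representing a position: `s_u` for a vertex `u`, the ground for a sink. -/
def port : Fin n ⊕ Bool → Vtx n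
  | Sum.inl u => some (u, 0)
  | Sum.inr _ => none

/-- First endpoint of the edge `(v, i)`. -/
def endA : Fin n × Fin 5 → Vtx n
  | (v, 0) => some (v, 1)
  | (v, 1) => some (v, 2)
  | (v, 2) => some (v, 1)
  | (v, 3) => if G.kind v = Kind.avg then some (v, 1) else some (v, 2)
  | (v, 4) => some (v, 0)

/-- Second endpoint of the edge `(v, i)`. -/
def endB : Fin n × Fin 5 → Vtx n
  | (v, 0) => some (v, 0)
  | (v, 1) => some (v, 1)
  | (v, 2) => port (G.succ v false)
  | (v, 3) => port (G.succ v true)
  | (_, 4) => none

/-- Multiplicity of the edge `(v, i)`. -/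
def wt (v0 : Fin n) : Fin n × Fin 5 → ℕ
  | (_, 0) => wtW n
  | (_, 1) => wtH n
  | (_, 2) => 1
  | (_, 3) => 1
  | (v, 4) => if v = v0 then wtQ n else 1

theorem endA_ne_endB (e : Fin n × Fin 5) : G.endA e ≠ G.endB e := by
  obtain ⟨v, i⟩ := e
  fin_cases i
  · simp [endA, endB]
  · simp [endA, endB]
  · cases h : G.succ v false <;> simp [endA, endB, port, h]
  · cases h : G.succ v true <;> by_cases hk : G.kind v = Kind.avg <;>
      simp [endA, endB, port, h, hk]
  · simp [endA, endB]

/-- The undirected multigraph assigned to a game and a start vertex `v0`: for every edge `e` in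
the list it has `wt v0 e` edges in both directions between `endA e` and `endB e`. -/
def graph (v0 : Fin n) : MultiDigraph (Vtx n) where
  m p q := ∑ e : Fin n × Fin 5, wt v0 e * ((if G.endA e = p ∧ G.endB e = q then 1 else 0) +
    (if G.endB e = p ∧ G.endA e = q then 1 else 0))
  loopless v := by
    apply Finset.sum_eq_zero
    intro e _
    have h1 : ¬ (G.endA e = v ∧ G.endB e = v) :=
      fun hh => G.endA_ne_endB e (hh.1.trans hh.2.symm)
    have h2 : ¬ (G.endB e = v ∧ G.endA e = v) :=
      fun hh => G.endA_ne_endB e (hh.2.trans hh.1.symm)
    simp [h1, h2]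

/-- The constant contributed by the `i`-th successor of `v`: `N` for the 1-sink, `0` otherwise,
plus the rounding allowance `1` for the first successor of an average vertex. -/
def cst (v : Fin n) (i : Bool) : ℤ :=
  (if G.succ v i = Sum.inr true then (scale n : ℤ) else 0) +
    (if G.kind v = Kind.avg ∧ i = false then 1 else 0)

/-- The initial slack: `slack p` is the number of chips that may be added to the initial
configuration at `p` without making `p` active. -/
def slack (v0 : Fin n) : Vtx n → ℤ
  | none => 2 * n - wtQ n * 2 ^ ((n + 1) ^ 2)
  | some (v, 0) => (if v = v0 then (wtQ n : ℤ) else 1) * scale n + 2 * n * (scale n + 1)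
  | some (v, 1) => match G.kind v with
    | Kind.max => G.cst v false + wtH n
    | Kind.min => G.cst v false
    | Kind.avg => G.cst v false + G.cst v true
  | some (v, 2) => if G.kind v = Kind.avg then 0 else G.cst v true

/-- The initial chip configuration: `deg p - 1 - slack p` chips at `p`. -/
def chips (v0 : Fin n) : Vtx n → ℕ :=
  fun p => (((G.graph v0).outDeg p : ℤ) - 1 - G.slack v0 p).toNat

end SSG

end Pool.Agent.Work.MP_85af13_lc
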