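import Pool.Agent.Work.MP_85af13_lc.Lang

/-!
The chip-firing halting problem on bipartite undirected multigraphs.
-/

set_option autoImplicit false

namespace Pool.Agent.Work.MP_85af13_lc

open Pool.Agent.Work.PolyTime

/-- The chip-firing halting problem on connected bipartite undirected multigraphs. -/
def haltingBipartite : Set (List Bool) :=
  {w | ∃ I : Inst, w = (code I).ser ∧ (graphOf I).Eulerian ∧
    (∀ u v, (graphOf I).m u v = (graphOf I).m v u) ∧
    (∃ c : Fin I.2.length → Bool, ∀ u v, 0 < (graphOf I).m u v → c u ≠ c v) ∧
    (graphOf I).Terminates (chipsOf I)}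

end Pool.Agent.Work.MP_85af13_lc
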