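import Pool.Agent.Work.MP_85af13_lc.Rep

/-!
Reduction of the halting problem on Eulerian multidigraphs to bipartite undirected multigraphs.
-/

set_option autoImplicit false
set_option linter.unusedSectionVars false
set_option linter.unusedSimpArgs false

namespace Pool.Agent.Work.MP_85af13_lc

namespace MultiDigraph

variable {V : Type} [Fintype V] [DecidableEq V] (D : MultiDigraph V)

/-- The refined level set inequality. -/
theorem level' (hE : ∀ v, D.outDeg v = D.inDeg v) (A : Finset V) (z : V → ℤ) (t : ℤ)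
    (hA : ∀ v ∈ A, t ≤ z v) :
    ∑ v ∈ A, ∑ u ∈ Aᶜ, (D.m u v : ℤ) * (t - z u) ≤ ∑ v ∈ A, D.lap z v := by
  have h1 : ∀ v, D.lap z v = D.lap (fun u => z u + (-t)) v := fun v =>
    (D.lap_add_const hE z (-t) v).symm
  set w : V → ℤ := fun u => z u + (-t) with hw
  have hwA : ∀ v ∈ A, 0 ≤ w v := fun v hv => by
    have := hA v hv; simp only [hw]; linarith
  rw [Finset.sum_congr rfl (fun v _ => h1 v)]
  simp only [lap]
  have h2 : ∀ v, ∑ u, (D.m u v : ℤ) * w u = ∑ u ∈ Aᶜ, (D.m u v : ℤ) * w u +
      ∑ u ∈ A, (D.m u v : ℤ) * w u := fun v => (Finset.sum_compl_add_sum A _).symm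
  have h3 : ∀ v, (D.outDeg v : ℤ) * w v = (∑ u ∈ Aᶜ, (D.m v u : ℤ)) * w v +
      (∑ u ∈ A, (D.m v u : ℤ)) * w v := by
    intro v
    rw [← add_mul, Finset.sum_compl_add_sum]
    simp [outDeg]
  simp only [h2, h3]
  rw [Finset.sum_sub_distrib, Finset.sum_add_distrib, Finset.sum_add_distrib]
  have h4 : ∑ v ∈ A, (∑ u ∈ A, (D.m v u : ℤ)) * w v = ∑ v ∈ A, ∑ u ∈ A, (D.m u v : ℤ) * w u := by
    simp only [Finset.sum_mul]
    rw [Finset.sum_comm]
  have h5 : 0 ≤ ∑ v ∈ A, (∑ u ∈ Aᶜ, (D.m v u : ℤ)) * w v :=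
    Finset.sum_nonneg fun v hv => mul_nonneg (Finset.sum_nonneg fun _ _ => by positivity)
      (hwA v hv)
  have h6 : ∑ v ∈ A, ∑ u ∈ Aᶜ, (D.m u v : ℤ) * (t - z u) =
      - ∑ v ∈ A, ∑ u ∈ Aᶜ, (D.m u v : ℤ) * w u := by
    rw [← Finset.sum_neg_distrib]
    refine Finset.sum_congr rfl fun v _ => ?_
    rw [← Finset.sum_neg_distrib]
    refine Finset.sum_congr rfl fun u _ => ?_
    simp only [hw]; ring
  linarith

theorem sum_lap (z : V → ℤ) : ∑ v, D.lap z v = 0 := by
  simp only [lap]
  rw [Finset.sum_sub_distrib, Finset.sum_comm]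
  have h : ∀ v, (D.outDeg v : ℤ) * z v = ∑ u, (D.m v u : ℤ) * z v := by
    intro v
    rw [← Finset.sum_mul, outDeg]
    push_cast
    rfl
  rw [Finset.sum_congr rfl fun v _ => h v]
  simp

/-- The flow along the arcs between two vertices is bounded by the total absorption. -/
theorem flow_le (hE : ∀ v, D.outDeg v = D.inDeg v) (z c : V → ℤ) (hc0 : ∀ v, 0 ≤ c v)
    (hc : ∀ v, - D.lap z v ≤ c v) (a b : V) : (D.m a b : ℤ) * (z b - z a) ≤ ∑ v, c v := by
  classical
  have hsum : 0 ≤ ∑ v, c v := Finset.sum_nonneg fun v _ => hc0 v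
  by_cases hab : z b ≤ z a
  · have h1 : (0 : ℤ) ≤ D.m a b := by positivity
    nlinarith
  · push Not at hab
    let A : Finset V := Finset.univ.filter fun u => z b ≤ z u
    have hmem : ∀ u, u ∈ A ↔ z b ≤ z u := by intro u; simp [A]
    have h1 := D.level' hE A z (z b) (fun v hv => (hmem v).1 hv)
    have h2 : ∑ v ∈ A, D.lap z v = - ∑ v ∈ Aᶜ, D.lap z v := by
      have h3 := D.sum_lap z
      rw [← Finset.sum_add_sum_compl A] at h3
      linarith
    have h3 : - ∑ v ∈ Aᶜ, D.lap z v ≤ ∑ v, c v := by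
      rw [← Finset.sum_neg_distrib]
      calc ∑ v ∈ Aᶜ, - D.lap z v ≤ ∑ v ∈ Aᶜ, c v := Finset.sum_le_sum fun v _ => hc v
        _ ≤ ∑ v, c v := Finset.sum_le_sum_of_subset_of_nonneg (Finset.subset_univ _)
            (fun v _ _ => hc0 v)
    have hbA : b ∈ A := (hmem b).2 le_rfl
    have haA : a ∈ Aᶜ := by
      rw [Finset.mem_compl, hmem]; exact not_le.2 hab
    have hnn : ∀ v, ∀ u ∈ Aᶜ, 0 ≤ (D.m u v : ℤ) * (z b - z u) := by
      intro v u hu
      rw [Finset.mem_compl, hmem, not_le] at hu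
      exact mul_nonneg (by positivity) (by linarith)
    have h4 : (D.m a b : ℤ) * (z b - z a) ≤ ∑ v ∈ A, ∑ u ∈ Aᶜ, (D.m u v : ℤ) * (z b - z u) :=
      (Finset.single_le_sum (f := fun u => (D.m u b : ℤ) * (z b - z u)) (hnn b) haA).trans
        (Finset.single_le_sum (f := fun v => ∑ u ∈ Aᶜ, (D.m u v : ℤ) * (z b - z u))
          (fun v _ => Finset.sum_nonneg (hnn v)) hbA)
    linarith

/-- The undirected bipartite multigraph of a multidigraph. -/
def bip (W : ℕ) : MultiDigraph (V ⊕ V) where
  m p q := match p, q with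
    | Sum.inl v, Sum.inr u => if u = v then W else D.m u v
    | Sum.inr u, Sum.inl v => if u = v then W else D.m u v
    | _, _ => 0
  loopless p := by cases p <;> rfl

theorem bip_inl_inl (W : ℕ) (u v : V) : (D.bip W).m (Sum.inl u) (Sum.inl v) = 0 := rfl
theorem bip_inr_inr (W : ℕ) (u v : V) : (D.bip W).m (Sum.inr u) (Sum.inr v) = 0 := rfl
theorem bip_inl_inr (W : ℕ) (v u : V) : (D.bip W).m (Sum.inl v) (Sum.inr u) =
    if u = v then W else D.m u v := rfl
theorem bip_inr_inl (W : ℕ) (u v : V) : (D.bip W).m (Sum.inr u) (Sum.inl v) =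
    if u = v then W else D.m u v := rfl

theorem bip_symm (W : ℕ) (p q : V ⊕ V) : (D.bip W).m p q = (D.bip W).m q p := by
  cases p <;> cases q <;> rfl

theorem sum_ite_row (W : ℕ) (v : V) (f : V → ℤ) :
    ∑ u, ((if u = v then W else D.m u v : ℕ) : ℤ) * f u = W * f v + ∑ u, (D.m u v : ℤ) * f u := by
  have h : ∀ u, ((if u = v then W else D.m u v : ℕ) : ℤ) * f u =
      (if u = v then (W : ℤ) * f v else 0) + (D.m u v : ℤ) * f u := by
    intro u
    by_cases hu : u = v
    · subst hu; simp [D.loopless]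
    · simp [hu]
  rw [Finset.sum_congr rfl fun u _ => h u, Finset.sum_add_distrib]
  simp

theorem sum_ite_col (W : ℕ) (u : V) (f : V → ℤ) :
    ∑ v, ((if u = v then W else D.m u v : ℕ) : ℤ) * f v = W * f u + ∑ v, (D.m u v : ℤ) * f v := by
  have h : ∀ v, ((if u = v then W else D.m u v : ℕ) : ℤ) * f v =
      (if v = u then (W : ℤ) * f u else 0) + (D.m u v : ℤ) * f v := by
    intro v
    by_cases hu : u = v
    · subst hu; simp [D.loopless]
    · simp [hu, Ne.symm hu]
  rw [Finset.sum_congr rfl fun u _ => h u, Finset.sum_add_distrib]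
  simp

theorem bip_deg_inl (hE : ∀ v, D.outDeg v = D.inDeg v) (W : ℕ) (v : V) :
    ((D.bip W).outDeg (Sum.inl v) : ℤ) = W + D.outDeg v := by
  rw [hE v]
  simp only [outDeg, inDeg, Fintype.sum_sum_type, bip_inl_inl, bip_inl_inr]
  have := D.sum_ite_row W v (fun _ => 1)
  simp only [mul_one] at this
  push_cast at this ⊢
  simp only [Finset.sum_const_zero, zero_add]
  exact this

theorem bip_deg_inr (W : ℕ) (u : V) :
    ((D.bip W).outDeg (Sum.inr u) : ℤ) = W + D.outDeg u := by
  simp only [outDeg, Fintype.sum_sum_type, bip_inr_inr, bip_inr_inl]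
  have := D.sum_ite_col W u (fun _ => 1)
  simp only [mul_one] at this
  push_cast at this ⊢
  simp only [Finset.sum_const_zero, add_zero]
  exact this

theorem bip_lap_inl (hE : ∀ v, D.outDeg v = D.inDeg v) (W : ℕ) (z : V ⊕ V → ℤ) (v : V) :
    (D.bip W).lap z (Sum.inl v) = W * (z (Sum.inl v) - z (Sum.inr v)) +
      (D.outDeg v * z (Sum.inl v) - ∑ u, (D.m u v : ℤ) * z (Sum.inr u)) := by
  rw [lap, D.bip_deg_inl hE, Fintype.sum_sum_type]
  simp only [bip_inl_inl, bip_inr_inl, Nat.cast_zero, zero_mul, Finset.sum_const_zero, zero_add]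
  rw [D.sum_ite_row W v (fun u => z (Sum.inr u))]
  ring

theorem bip_lap_inr (W : ℕ) (z : V ⊕ V → ℤ) (u : V) :
    (D.bip W).lap z (Sum.inr u) = W * (z (Sum.inr u) - z (Sum.inl u)) +
      (D.outDeg u * z (Sum.inr u) - ∑ v, (D.m u v : ℤ) * z (Sum.inl v)) := by
  rw [lap, D.bip_deg_inr, Fintype.sum_sum_type]
  simp only [bip_inr_inr, bip_inl_inr, Nat.cast_zero, zero_mul, Finset.sum_const_zero, add_zero]
  rw [D.sum_ite_col W u (fun v => z (Sum.inl v))]
  ring

/-- The configuration on the bipartite multigraph. -/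
def bipChips (W C : ℕ) (x : V → ℕ) : V ⊕ V → ℕ
  | Sum.inl v => W + x v
  | Sum.inr _ => C

theorem bip_balanced (W : ℕ) (p : V ⊕ V) : (D.bip W).outDeg p = (D.bip W).inDeg p := by
  simp only [outDeg, inDeg]
  exact Finset.sum_congr rfl fun q _ => D.bip_symm W p q

theorem bip_connected (W : ℕ) (hW : 0 < W)
    (h : ∀ u v : V, Relation.ReflTransGen (fun a b => 0 < D.m a b ∨ 0 < D.m b a) u v)
    (p q : V ⊕ V) : Relation.ReflTransGen
      (fun a b => 0 < (D.bip W).m a b ∨ 0 < (D.bip W).m b a) p q := by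
  set R : V ⊕ V → V ⊕ V → Prop := fun a b => 0 < (D.bip W).m a b ∨ 0 < (D.bip W).m b a with hR
  have hlr : ∀ v : V, R (Sum.inl v) (Sum.inr v) := fun v => by
    left; rw [bip_inl_inr]; simpa using hW
  have hrl : ∀ v : V, R (Sum.inr v) (Sum.inl v) := fun v => by
    left; rw [bip_inr_inl]; simpa using hW
  have harc : ∀ u v : V, 0 < D.m u v → R (Sum.inl v) (Sum.inr u) ∧ R (Sum.inr u) (Sum.inl v) := by
    intro u v huv
    have hne : ¬ u = v := by
      rintro rfl; rw [D.loopless] at huv; exact lt_irrefl _ huv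
    constructor
    · left; rw [bip_inl_inr, if_neg hne]; exact huv
    · left; rw [bip_inr_inl, if_neg hne]; exact huv
  have key : ∀ u v : V, Relation.ReflTransGen (fun a b => 0 < D.m a b ∨ 0 < D.m b a) u v →
      Relation.ReflTransGen R (Sum.inl u) (Sum.inl v) := by
    intro u v huv
    induction huv with
    | refl => exact Relation.ReflTransGen.refl
    | tail _ hstep ih =>
      rename_i a b _
      rcases hstep with hab | hab
      · exact (ih.tail (hlr a)).tail (harc a b hab).2
      · exact (ih.tail (harc b a hab).1).tail (hrl b)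
  rcases p with p | p <;> rcases q with q | q
  · exact key p q (h p q)
  · exact (key p q (h p q)).tail (hlr q)
  · exact Relation.ReflTransGen.head (hrl p) (key p q (h p q))
  · exact (Relation.ReflTransGen.head (hrl p) (key p q (h p q))).tail (hlr q)

/-- Correctness of the reduction. -/
theorem bip_terminates (hE : ∀ v, D.outDeg v = D.inDeg v) (x : V → ℕ) (K W C : ℕ)
    (hK : K = 1 + ∑ v, D.outDeg v) (hW : W = (Fintype.card V * Fintype.card V + 2) * K)
    (hC : C = (Fintype.card V * Fintype.card V - Fintype.card V + 2) * K) :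
    (D.bip W).Terminates (bipChips W C x) ↔ D.Terminates x := by
  rw [terminates_iff _ (D.bip_balanced W), terminates_iff _ hE]
  set n := Fintype.card V with hn
  set M : ℕ := ∑ v, D.outDeg v with hM
  have hWC : (W : ℤ) = C + n * K := by
    have h1 : n ≤ n * n := by
      rcases Nat.eq_zero_or_pos n with h | h
      · rw [h]
      · exact Nat.le_mul_of_pos_left _ h
    rw [hW, hC]
    have h2 : n * n + 2 = (n * n - n + 2) + n := by omega
    rw [h2]
    push_cast
    ring
  have hKM : (K : ℤ) = 1 + M := by rw [hK]; push_cast; rfl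
  have hMZ : (M : ℤ) = ∑ v, (D.outDeg v : ℤ) := by rw [hM]; push_cast; rfl
  constructor
  · rintro ⟨z, hz⟩
    -- the two copies of a vertex have the same value
    let c : V ⊕ V → ℤ := fun p => match p with
      | Sum.inl v => D.outDeg v
      | Sum.inr v => n * K + D.outDeg v
    have hc0 : ∀ p, 0 ≤ c p := by
      intro p
      rcases p with v | v
      · simp only [c]; positivity
      · simp only [c]; positivity
    have hc : ∀ p, - (D.bip W).lap z p ≤ c p := by
      intro p
      have h1 := hz p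
      rcases p with v | v
      · rw [D.bip_deg_inl hE] at h1
        simp only [bipChips, c] at h1 ⊢
        push_cast at h1
        have h2 : (0 : ℤ) ≤ x v := by positivity
        linarith
      · rw [D.bip_deg_inr] at h1
        simp only [bipChips, c] at h1 ⊢
        linarith
    have hsum : ∑ p, c p < W := by
      rw [Fintype.sum_sum_type]
      simp only [c]
      rw [Finset.sum_add_distrib, ← hMZ, Finset.sum_const, Finset.card_univ, ← hn, hW]
      push_cast
      rw [hKM]
      have : (0 : ℤ) ≤ M := by positivity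
      simp only [nsmul_eq_mul]
      nlinarith
    have hflow := (D.bip W).flow_le (D.bip_balanced W) z c hc0 hc
    have heq : ∀ v, z (Sum.inr v) = z (Sum.inl v) := by
      intro v
      have h1 := hflow (Sum.inl v) (Sum.inr v)
      have h2 := hflow (Sum.inr v) (Sum.inl v)
      rw [bip_inl_inr, if_pos rfl] at h1
      rw [bip_inr_inl, if_pos rfl] at h2
      have hWpos : (0 : ℤ) ≤ W := by positivity
      rcases lt_trichotomy (z (Sum.inr v)) (z (Sum.inl v)) with h | h | h
      · exfalso
        have : (1 : ℤ) ≤ z (Sum.inl v) - z (Sum.inr v) := by linarith [Int.add_one_le_iff.2 h]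
        nlinarith
      · exact h
      · exfalso
        have : (1 : ℤ) ≤ z (Sum.inr v) - z (Sum.inl v) := by linarith [Int.add_one_le_iff.2 h]
        nlinarith
    refine ⟨fun v => z (Sum.inl v), fun v => ?_⟩
    have h1 := hz (Sum.inl v)
    rw [D.bip_lap_inl hE, D.bip_deg_inl hE] at h1
    simp only [bipChips, heq] at h1
    simp only [lap]
    push_cast at h1
    linarith
  · rintro ⟨z, hz⟩
    refine ⟨Sum.elim z z, fun p => ?_⟩
    rcases p with v | v
    · rw [D.bip_lap_inl hE, D.bip_deg_inl hE]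
      simp only [bipChips, Sum.elim_inl, Sum.elim_inr]
      have h1 := hz v
      simp only [lap] at h1
      push_cast
      linarith
    · rw [D.bip_lap_inr, D.bip_deg_inr]
      simp only [bipChips, Sum.elim_inl, Sum.elim_inr, sub_self, mul_zero, zero_add]
      have hflow := D.flow_le hE z (fun v => D.outDeg v) (fun _ => by positivity) (fun u => by
        have h1 := hz u
        have h2 : (0 : ℤ) ≤ x u := by positivity
        linarith)
      have h2 : -(D.outDeg v * z v - ∑ w, (D.m v w : ℤ) * z w) =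
          ∑ w, (D.m v w : ℤ) * (z w - z v) := by
        simp only [mul_sub, Finset.sum_sub_distrib]
        rw [← Finset.sum_mul]
        have : ∑ w, (D.m v w : ℤ) = D.outDeg v := by simp [outDeg]
        rw [this]
        ring
      have h3 : ∑ w, (D.m v w : ℤ) * (z w - z v) ≤ n * M := by
        calc ∑ w, (D.m v w : ℤ) * (z w - z v) ≤ ∑ _w : V, ∑ v, (D.outDeg v : ℤ) :=
              Finset.sum_le_sum fun w _ => hflow v w
          _ = n * M := by rw [Finset.sum_const, Finset.card_univ, ← hMZ]; simp [hn]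
      have hn1 : 1 ≤ n := by
        rw [hn]; exact Fintype.card_pos_iff.2 ⟨v⟩
      have hn2 : (1 : ℤ) ≤ n := by exact_mod_cast hn1
      have h4 : (0 : ℤ) ≤ D.outDeg v := by positivity
      rw [hWC, hKM]
      nlinarith

/-- Isomorphic multidigraphs. -/
theorem iso_terminates {V' : Type} [Fintype V'] [DecidableEq V'] (D' : MultiDigraph V')
    (e : V ≃ V') (hm : ∀ u v, D'.m (e u) (e v) = D.m u v) (x : V → ℕ) (x' : V' → ℕ)
    (hx : ∀ v, x' (e v) = x v) (hE : ∀ v, D.outDeg v = D.inDeg v) :
    (∀ v, D'.outDeg v = D'.inDeg v) ∧ (D'.Terminates x' ↔ D.Terminates x) := by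
  have hout : ∀ v, D'.outDeg (e v) = D.outDeg v := by
    intro v
    rw [outDeg, ← e.sum_comp]
    exact Finset.sum_congr rfl fun u _ => hm v u
  have hin : ∀ v, D'.inDeg (e v) = D.inDeg v := by
    intro v
    rw [inDeg, ← e.sum_comp]
    exact Finset.sum_congr rfl fun u _ => hm u v
  have hE' : ∀ v, D'.outDeg v = D'.inDeg v := by
    intro v
    obtain ⟨u, rfl⟩ := e.surjective v
    rw [hout, hin, hE]
  have hlap : ∀ (z : V' → ℤ) (v : V), D'.lap z (e v) = D.lap (fun u => z (e u)) v := by
    intro z v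
    rw [lap, lap, hout, ← e.sum_comp]
    congr 1
    exact Finset.sum_congr rfl fun u _ => by rw [hm]
  refine ⟨hE', ?_⟩
  rw [terminates_iff _ hE', terminates_iff _ hE]
  constructor
  · rintro ⟨z, hz⟩
    refine ⟨fun u => z (e u), fun v => ?_⟩
    have := hz (e v)
    rwa [hlap, hout, hx] at this
  · rintro ⟨z, hz⟩
    refine ⟨fun u => z (e.symm u), fun v => ?_⟩
    obtain ⟨u, rfl⟩ := e.surjective v
    rw [hlap, hout, hx]
    simpa using hz u

end MultiDigraph

end Pool.Agent.Work.MP_85af13_lc
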