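import Pool.Agent.Work.MP_85af13_lc.UP
import Pool.Agent.Work.MP_85af13_lc.Undir
import Pool.Agent.Work.MP_85af13_lc.LangU

/-!
The reduction to bipartite undirected multigraphs is computable in polynomial time.
-/

set_option autoImplicit false
set_option linter.unusedSimpArgs false

namespace Pool.Agent.Work.MP_85af13_lc

open Pool.Agent.Work.PolyTime
open Pool.Agent.Work.MP_63b90e_lc (addB shiftB)
open Pool.Agent.Work.MP_62a643_lc (leB mulN)

theorem binVal_mulN' (k : ℕ) (a : List Bool) : binVal (mulN k a) = k * binVal a := by
  have h : binVal = Pool.Agent.Work.MP_62a643_lc.binVal := by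
    funext l
    induction l with
    | nil => rfl
    | cons b l ih => simp only [binVal, Pool.Agent.Work.MP_62a643_lc.binVal, ih]; omega
  rw [h]
  exact Pool.Agent.Work.MP_62a643_lc.binVal_mulN k a

/-- One plus the number of arcs. -/
def kB (I : Inst) : List Bool := addB [true] (sumL ((List.range I.2.length).map fun v => degL I v))

/-- The weight of the ties. -/
def wB (I : Inst) : List Bool := mulN (I.2.length * I.2.length + 2) (kB I)

/-- The number of chips at the second copies. -/
def cB (I : Inst) : List Bool := mulN (I.2.length * I.2.length - I.2.length + 2) (kB I)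

/-- Multiplicity between the first copy of `v` and the second copy of `u`. -/
def cross (I : Inst) (v u : ℕ) : List Bool := bif decide (u = v) then wB I else mlB I u v

/-- Entry of the new matrix. -/
def newEntry (I : Inst) (i j : ℕ) : List Bool :=
  bif decide (i + 1 ≤ I.2.length) then
    (bif decide (j + 1 ≤ I.2.length) then [] else cross I i (j - I.2.length))
  else (bif decide (j + 1 ≤ I.2.length) then cross I j (i - I.2.length) else [])

/-- The new configuration. -/
def newChips (I : Inst) (i : ℕ) : List Bool :=
  bif decide (i + 1 ≤ I.2.length) then addB (wB I) (I.2.getD i []) else cB I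

/-- The new instance. -/
def newInst (I : Inst) : Inst :=
  ((List.range (I.2.length + I.2.length)).map fun i =>
    (List.range (I.2.length + I.2.length)).map fun j => newEntry I i j,
   (List.range (I.2.length + I.2.length)).map fun i => newChips I i)

/-- The reduction. -/
def reduceW (w : List Bool) : List Bool :=
  ((parseW Inst w).bind fun I => some (bif eulB I then (code (newInst I)).ser else [])).getD []

section

variable {α : Type} [Code α]

theorem PTime.kB {I : α → Inst} (hI : PTime I) : PTime (fun x => MP_85af13_lc.kB (I x)) := by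
  unfold MP_85af13_lc.kB
  refine PTime.addB' (PTime.const _) (PTime.sumL (PTime.map
    (f := fun x v => MP_85af13_lc.degL (I x) v) (PTime.range (PTime.size hI)) ?_))
  exact PTime.degL (hI.comp PTime.fst) PTime.snd

theorem PTime.wB {I : α → Inst} (hI : PTime I) : PTime (fun x => MP_85af13_lc.wB (I x)) := by
  unfold MP_85af13_lc.wB
  exact Pool.Agent.Work.MP_62a643_lc.ptime_mulN (PTime.natAdd (PTime.natMul (PTime.size hI)
    (PTime.size hI)) (PTime.const _)) (PTime.kB hI)

theorem PTime.cB {I : α → Inst} (hI : PTime I) : PTime (fun x => MP_85af13_lc.cB (I x)) := by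
  unfold MP_85af13_lc.cB
  exact Pool.Agent.Work.MP_62a643_lc.ptime_mulN (PTime.natAdd (PTime.natSub (PTime.natMul
    (PTime.size hI) (PTime.size hI)) (PTime.size hI)) (PTime.const _)) (PTime.kB hI)

theorem PTime.cross {I : α → Inst} {u v : α → ℕ} (hI : PTime I) (hv : PTime v) (hu : PTime u) :
    PTime (fun x => MP_85af13_lc.cross (I x) (v x) (u x)) := by
  unfold MP_85af13_lc.cross
  exact PTime.cond (PTime.eq hu hv) (PTime.wB hI) (PTime.mlB hI hu hv)

theorem PTime.newEntry {I : α → Inst} {i j : α → ℕ} (hI : PTime I) (hi : PTime i) (hj : PTime j) :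
    PTime (fun x => MP_85af13_lc.newEntry (I x) (i x) (j x)) := by
  unfold MP_85af13_lc.newEntry
  have h1 : PTime (fun x => decide (i x + 1 ≤ (I x).2.length)) :=
    PTime.natLe (PTime.succ hi) (PTime.size hI)
  have h2 : PTime (fun x => decide (j x + 1 ≤ (I x).2.length)) :=
    PTime.natLe (PTime.succ hj) (PTime.size hI)
  exact PTime.cond h1 (PTime.cond h2 (PTime.const _)
    (PTime.cross hI hi (PTime.natSub hj (PTime.size hI))))
    (PTime.cond h2 (PTime.cross hI hj (PTime.natSub hi (PTime.size hI))) (PTime.const _))

theorem PTime.newChips {I : α → Inst} {i : α → ℕ} (hI : PTime I) (hi : PTime i) :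
    PTime (fun x => MP_85af13_lc.newChips (I x) (i x)) := by
  unfold MP_85af13_lc.newChips
  exact PTime.cond (PTime.natLe (PTime.succ hi) (PTime.size hI))
    (PTime.addB' (PTime.wB hI) (PTime.nth (PTime.snd.comp hI) hi (PTime.const _))) (PTime.cB hI)

theorem PTime.newInst {I : α → Inst} (hI : PTime I) :
    PTime (fun x => MP_85af13_lc.newInst (I x)) := by
  unfold MP_85af13_lc.newInst
  have h2n : PTime (fun x => List.range ((I x).2.length + (I x).2.length)) :=
    PTime.range (PTime.natAdd (PTime.size hI) (PTime.size hI))
  refine PTime.prodMk ?_ ?_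
  · refine PTime.map (f := fun x i => (List.range ((I x).2.length + (I x).2.length)).map
      fun j => MP_85af13_lc.newEntry (I x) i j) h2n ?_
    refine PTime.map (f := fun (y : α × ℕ) j => MP_85af13_lc.newEntry (I y.1) y.2 j)
      (h2n.comp PTime.fst) ?_
    exact PTime.newEntry (hI.comp (f := fun z : (α × ℕ) × ℕ => z.1.1) (by fun_prop))
      (by fun_prop) (by fun_prop)
  · refine PTime.map (f := fun x i => MP_85af13_lc.newChips (I x) i) h2n ?_
    exact PTime.newChips (hI.comp PTime.fst) PTime.snd

theorem PTime.reduceW : PTime MP_85af13_lc.reduceW := by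
  unfold MP_85af13_lc.reduceW
  refine PTime.getD (PTime.bind (PTime.parseW PTime.id) (PTime.mkSome ?_)) (PTime.const _)
  exact PTime.cond (PTime.eulB PTime.snd) (PTime.ser (PTime.newInst PTime.snd)) (PTime.const _)

end

/-! ### Correctness -/

theorem newInst_length (I : Inst) : (newInst I).2.length = I.2.length + I.2.length := by
  simp [newInst]

/-- The vertices of the new multigraph. -/
def newEquiv (I : Inst) : Fin I.2.length ⊕ Fin I.2.length ≃ Fin (newInst I).2.length :=
  finSumFinEquiv.trans (finCongr (newInst_length I).symm)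

theorem newEquiv_inl (I : Inst) (v : Fin I.2.length) :
    ((newEquiv I (Sum.inl v) : Fin _) : ℕ) = v := by
  simp [newEquiv]

theorem newEquiv_inr (I : Inst) (v : Fin I.2.length) :
    ((newEquiv I (Sum.inr v) : Fin _) : ℕ) = I.2.length + v := by
  simp [newEquiv, add_comm]

theorem binVal_kB (I : Inst) : binVal (kB I) = 1 + ∑ v, (graphOf I).outDeg v := by
  rw [kB, binVal_addB, binVal_sumL, List.map_map, sum_range_fin]
  congr 1
  exact Finset.sum_congr rfl fun v _ => binVal_degL I v

theorem newMult (I : Inst) (i j : ℕ) (hi : i < I.2.length + I.2.length)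
    (hj : j < I.2.length + I.2.length) :
    mult (newInst I) i j = if i = j then 0 else binVal (newEntry I i j) := by
  unfold mult
  congr 1
  have h1 : (newInst I).1.getD i [] =
      (List.range (I.2.length + I.2.length)).map fun j => newEntry I i j := by
    rw [List.getD_eq_getElem _ _ (by simp [newInst, hi])]
    simp [newInst]
  rw [h1, List.getD_eq_getElem _ _ (by simp [hj])]
  simp

theorem new_m (I : Inst) (p q : Fin I.2.length ⊕ Fin I.2.length) :
    (graphOf (newInst I)).m (newEquiv I p) (newEquiv I q) =
      ((graphOf I).bip (binVal (wB I))).m p q := by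
  have hlt : ∀ p, ((newEquiv I p : Fin _) : ℕ) < I.2.length + I.2.length := by
    intro p
    exact (newEquiv I p).2.trans_le (newInst_length I).le
  change mult (newInst I) (newEquiv I p) (newEquiv I q) = _
  rw [newMult I _ _ (hlt p) (hlt q)]
  rcases p with v | v <;> rcases q with u | u
  · rw [newEquiv_inl, newEquiv_inl, MultiDigraph.bip_inl_inl]
    have h1 := v.2
    have h2 := u.2
    simp [newEntry, Nat.succ_le_iff, h1, h2, binVal]
  · rw [newEquiv_inl, newEquiv_inr, MultiDigraph.bip_inl_inr]
    have h1 := v.2
    have hne : ¬ ((v : ℕ) = I.2.length + u) := by omega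
    have h2 : ¬ (I.2.length + (u : ℕ) + 1 ≤ I.2.length) := by omega
    simp only [newEntry, Nat.succ_le_iff, h1, decide_true, cond_true, h2, decide_false,
      cond_false, if_neg hne, cross, Nat.add_sub_cancel_left]
    by_cases huv : u = v
    · subst huv; simp
    · have : ¬ ((u : ℕ) = v) := fun h => huv (Fin.ext h)
      simp [huv, this, binVal_mlB, graphOf]
  · rw [newEquiv_inr, newEquiv_inl, MultiDigraph.bip_inr_inl]
    have h1 := u.2
    have hne : ¬ (I.2.length + (v : ℕ) = u) := by omega
    have h2 : ¬ (I.2.length + (v : ℕ) + 1 ≤ I.2.length) := by omega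
    simp only [newEntry, Nat.succ_le_iff, h1, decide_true, cond_true, h2, decide_false,
      cond_false, if_neg hne, cross, Nat.add_sub_cancel_left]
    by_cases huv : v = u
    · subst huv; simp
    · have : ¬ ((v : ℕ) = u) := fun h => huv (Fin.ext h)
      simp [huv, this, binVal_mlB, graphOf]
  · rw [newEquiv_inr, newEquiv_inr, MultiDigraph.bip_inr_inr]
    have h1 : ¬ (I.2.length + (v : ℕ) + 1 ≤ I.2.length) := by omega
    have h2 : ¬ (I.2.length + (u : ℕ) + 1 ≤ I.2.length) := by omega
    simp [newEntry, h1, h2, binVal]

theorem new_chips (I : Inst) (p : Fin I.2.length ⊕ Fin I.2.length) :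
    chipsOf (newInst I) (newEquiv I p) =
      MultiDigraph.bipChips (binVal (wB I)) (binVal (cB I)) (chipsOf I) p := by
  have hlt : ((newEquiv I p : Fin _) : ℕ) < I.2.length + I.2.length := by
    exact (newEquiv I p).2.trans_le (newInst_length I).le
  have h0 : chipsOf (newInst I) (newEquiv I p) = binVal (newChips I (newEquiv I p)) := by
    rw [chipsOf, List.getD_eq_getElem _ _ (newEquiv I p).2]
    simp [newInst]
  rw [h0]
  rcases p with v | v
  · rw [newEquiv_inl]
    have h1 := v.2
    simp only [newChips, Nat.succ_le_iff, h1, decide_true, cond_true, binVal_addB,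
      MultiDigraph.bipChips, chipsOf]
  · rw [newEquiv_inr]
    have h1 : ¬ (I.2.length + (v : ℕ) + 1 ≤ I.2.length) := by omega
    simp only [newChips, h1, decide_false, cond_false, MultiDigraph.bipChips]

theorem new_correct (I : Inst) (hE : (graphOf I).Eulerian) :
    (graphOf (newInst I)).Eulerian ∧
    (∀ u v, (graphOf (newInst I)).m u v = (graphOf (newInst I)).m v u) ∧
    (∃ c : Fin (newInst I).2.length → Bool, ∀ u v, 0 < (graphOf (newInst I)).m u v → c u ≠ c v) ∧
    ((graphOf (newInst I)).Terminates (chipsOf (newInst I)) ↔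
      (graphOf I).Terminates (chipsOf I)) := by
  have hW : binVal (wB I) = (Fintype.card (Fin I.2.length) * Fintype.card (Fin I.2.length) + 2) *
      binVal (kB I) := by
    rw [wB, binVal_mulN', Fintype.card_fin]
  have hC : binVal (cB I) = (Fintype.card (Fin I.2.length) * Fintype.card (Fin I.2.length) -
      Fintype.card (Fin I.2.length) + 2) * binVal (kB I) := by
    rw [cB, binVal_mulN', Fintype.card_fin]
  have hWpos : 0 < binVal (wB I) := by
    rw [hW, binVal_kB]; positivity
  obtain ⟨h1, h2⟩ := MultiDigraph.iso_terminates _ (graphOf (newInst I)) (newEquiv I)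
    (fun p q => new_m I p q) (MultiDigraph.bipChips (binVal (wB I)) (binVal (cB I)) (chipsOf I))
    (chipsOf (newInst I)) (new_chips I) ((graphOf I).bip_balanced (binVal (wB I)))
  refine ⟨⟨?_, h1⟩, ?_, ⟨fun i => ((newEquiv I).symm i).isLeft, ?_⟩, ?_⟩
  · intro u v
    obtain ⟨p, rfl⟩ := (newEquiv I).surjective u
    obtain ⟨q, rfl⟩ := (newEquiv I).surjective v
    have h3 := (graphOf I).bip_connected (binVal (wB I)) hWpos hE.1 p q
    induction h3 with
    | refl => exact Relation.ReflTransGen.refl
    | tail _ hstep ih =>
      refine ih.tail ?_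
      rw [new_m, new_m]
      exact hstep
  · intro u v
    obtain ⟨p, rfl⟩ := (newEquiv I).surjective u
    obtain ⟨q, rfl⟩ := (newEquiv I).surjective v
    rw [new_m, new_m, MultiDigraph.bip_symm]
  · intro u v
    obtain ⟨p, rfl⟩ := (newEquiv I).surjective u
    obtain ⟨q, rfl⟩ := (newEquiv I).surjective v
    rw [new_m]
    simp only [Equiv.symm_apply_apply]
    rcases p with p | p <;> rcases q with q | q
    · rw [MultiDigraph.bip_inl_inl]; intro h; exact absurd h (lt_irrefl _)
    · intro _; simp
    · intro _; simp
    · rw [MultiDigraph.bip_inr_inr]; intro h; exact absurd h (lt_irrefl _)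
  · rw [h2]
    exact (graphOf I).bip_terminates hE.2 (chipsOf I) (binVal (kB I)) _ _ (binVal_kB I) hW hC

theorem reducible_bipartite : PolyReducible haltingEulerian haltingBipartite := by
  refine ⟨reduceW, polyTimeComputable_of_PTime_word PTime.reduceW, fun w => ?_⟩
  have hnil : ([] : List Bool) ∉ haltingBipartite := by
    rintro ⟨I, hI, -⟩
    have := sz_pos I
    rw [sz, ← hI] at this
    simp at this
  cases hp : parseW Inst w with
  | none =>
    have h1 : reduceW w = [] := by simp [reduceW, hp]
    rw [h1]
    constructor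
    · rintro ⟨I, rfl, -⟩
      rw [parseW_ser] at hp
      cases hp
    · intro h; exact absurd h hnil
  | some I =>
    have hw := parseW_eq_some.1 hp
    subst hw
    by_cases hE : (graphOf I).Eulerian
    · have h1 : reduceW (code I).ser = (code (newInst I)).ser := by
        simp [reduceW, parseW_ser, (eulB_iff I).2 hE]
      rw [h1, haltingEulerian_mem]
      obtain ⟨h2, h3, h4, h5⟩ := new_correct I hE
      constructor
      · rintro ⟨-, hT⟩
        exact ⟨newInst I, rfl, h2, h3, h4, h5.2 hT⟩
      · rintro ⟨J, hJ, -, -, -, hT⟩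
        have : newInst I = J := Decode.injective (T.ser_inj hJ)
        subst this
        exact ⟨hE, h5.1 hT⟩
    · have h1 : reduceW (code I).ser = [] := by
        have : eulB I = false := by
          rw [← Bool.not_eq_true]; exact fun h => hE ((eulB_iff I).1 h)
        simp [reduceW, parseW_ser, this]
      rw [h1, haltingEulerian_mem]
      constructor
      · rintro ⟨h, -⟩; exact absurd h hE
      · intro h; exact absurd h hnil

end Pool.Agent.Work.MP_85af13_lc
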