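import Pool.Agent.Work.MP_85af13_lc.Check

/-!
The halting problem on Eulerian multidigraphs has unique polynomial-time checkable certificates.
-/

set_option autoImplicit false
set_option linter.unusedSimpArgs false

namespace Pool.Agent.Work.MP_85af13_lc

open Pool.Agent.Work.PolyTime
open Pool.Agent.Work.MP_63b90e_lc (addB shiftB)
open Pool.Agent.Work.MP_62a643_lc (leB)

/-- Criterion for membership in UP. -/
theorem inUP_of {L : Set (List Bool)} {V : List Bool × List Bool → Bool} (hV : PTime V)
    (p : Polynomial ℕ)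
    (h1 : ∀ x ∈ L, ∃! y : List Bool, y.length ≤ p.eval x.length ∧ V (x, y) = true)
    (h2 : ∀ x ∉ L, ∀ y, V (x, y) ≠ true) : InUP L := by
  refine ⟨fun w => [V (MP_0532f7_lc.fs w, MP_0532f7_lc.sn w)], p,
    polyTimeComputable_of_PTime_word ?_, fun x => ?_⟩
  · have h1 : PTime (fun w : List Bool => V (MP_0532f7_lc.fs w, MP_0532f7_lc.sn w)) :=
      hV.comp (PTime.prodMk (PTime.fs PTime.id) (PTime.sn PTime.id))
    exact PTime.cons h1 (PTime.const _)
  · simp only [pairW_eq_pr, MP_0532f7_lc.fs_pr, MP_0532f7_lc.sn_pr, List.cons.injEq, and_true]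
    exact ⟨h1 x, fun hx y _ h => h2 x hx y (by simpa using h)⟩

/-! ### Binary digits -/

/-- The `w` lowest digits of `k`. -/
def bitsOf : ℕ → ℕ → List Bool
  | 0, _ => []
  | w + 1, k => decide (k % 2 = 1) :: bitsOf w (k / 2)

theorem bitsOf_length (w k : ℕ) : (bitsOf w k).length = w := by
  induction w generalizing k with
  | zero => rfl
  | succ w ih => simp [bitsOf, ih]

theorem binVal_bitsOf (w k : ℕ) (h : k < 2 ^ w) : binVal (bitsOf w k) = k := by
  induction w generalizing k with
  | zero =>
    have : k = 0 := by simpa using h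
    subst this; rfl
  | succ w ih =>
    have h1 : k / 2 < 2 ^ w := by
      rw [Nat.div_lt_iff_lt_mul (by norm_num)]
      rw [pow_succ] at h
      exact h
    rw [bitsOf, binVal, ih _ h1]
    have h2 := Nat.mod_two_eq_zero_or_one k
    have h3 := Nat.div_add_mod k 2
    rcases h2 with h2 | h2 <;> simp [h2] <;> omega

theorem binVal_lt (l : List Bool) : binVal l < 2 ^ l.length := by
  induction l with
  | nil => simp [binVal]
  | cons b l ih =>
    rw [binVal, List.length_cons, pow_succ]
    cases b <;> simp <;> omega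

theorem binVal_inj {a b : List Bool} (h : a.length = b.length) (hv : binVal a = binVal b) :
    a = b := by
  induction a generalizing b with
  | nil => exact (List.length_eq_zero_iff.1 h.symm).symm
  | cons c a ih =>
    cases b with
    | nil => simp at h
    | cons d b =>
      simp only [List.length_cons, Nat.add_right_cancel_iff] at h
      simp only [binVal] at hv
      have h1 : c = d := by cases c <;> cases d <;> simp at hv ⊢ <;> omega
      have h2 : binVal a = binVal b := by subst h1; omega
      rw [h1, ih h h2]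

/-! ### Sizes of instances -/

theorem length_le_sz (l : List Bool) : l.length ≤ sz l := (length_lt_sz l).le

theorem entry_le (C : List (List Bool)) (v : ℕ) : binVal (C.getD v []) ≤ 2 ^ sz C := by
  by_cases hv : v < C.length
  · have h1 : C.getD v [] ∈ C := by
      rw [List.getD_eq_getElem _ _ hv]; exact List.getElem_mem hv
    exact (binVal_lt _).le.trans (Nat.pow_le_pow_right (by norm_num)
      ((length_le_sz _).trans (sz_mem h1).le))
  · rw [List.getD_eq_default _ _ (by omega)]
    simp [binVal]

theorem sz_fst_le (I : Inst) : sz I.1 ≤ sz I := by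
  obtain ⟨a, b⟩ := I
  rw [sz_pair]
  simp only
  omega

theorem sz_snd_le (I : Inst) : sz I.2 ≤ sz I := by
  obtain ⟨a, b⟩ := I
  rw [sz_pair]
  simp only
  omega

theorem mult_le (I : Inst) (u v : ℕ) : mult I u v ≤ 2 ^ sz I := by
  unfold mult
  have h1 : sz I.1 ≤ sz I := sz_fst_le I
  split
  · exact Nat.zero_le _
  · by_cases hu : u < I.1.length
    · have h2 : I.1.getD u [] ∈ I.1 := by
        rw [List.getD_eq_getElem _ _ hu]; exact List.getElem_mem hu
      exact (entry_le _ v).trans (Nat.pow_le_pow_right (by norm_num) ((sz_mem h2).le.trans h1))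
    · have h3 : I.1.getD u [] = [] := List.getD_eq_default _ _ (by omega)
      rw [h3]
      simp [binVal]

theorem card_lt (I : Inst) : I.2.length < sz I := by
  have h1 : sz I.2 ≤ sz I := sz_snd_le I
  exact (length_lt_sz I.2).trans_le h1

theorem bound_aux {n s : ℕ} (hn : n < s) : n * (n * (n * 2 ^ s)) < 2 ^ (5 * s + 2) := by
  have h1 : n ≤ 2 ^ s := (hn.trans Nat.lt_two_pow_self).le
  calc n * (n * (n * 2 ^ s)) ≤ 2 ^ s * (2 ^ s * (2 ^ s * 2 ^ s)) := by gcongr
    _ = 2 ^ (4 * s) := by rw [← pow_add, ← pow_add, ← pow_add]; congr 1; ring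
    _ < 2 ^ (5 * s + 2) := Nat.pow_lt_pow_right (by norm_num) (by omega)

theorem deg_bound (I : Inst) : I.2.length * ∑ u, (graphOf I).outDeg u < 2 ^ (5 * sz I + 2) := by
  refine lt_of_le_of_lt ?_ (bound_aux (card_lt I))
  refine Nat.mul_le_mul_left _ ?_
  calc ∑ u, (graphOf I).outDeg u ≤ ∑ _u : Fin I.2.length, I.2.length * 2 ^ sz I := by
        refine Finset.sum_le_sum fun u _ => ?_
        calc (graphOf I).outDeg u ≤ ∑ _v : Fin I.2.length, 2 ^ sz I :=
              Finset.sum_le_sum fun v _ => mult_le I u v
          _ = I.2.length * 2 ^ sz I := by simp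
    _ = I.2.length * (I.2.length * 2 ^ sz I) := by simp

theorem chips_bound (I : Inst) : I.2.length * ∑ u, chipsOf I u < 2 ^ (5 * sz I + 2) := by
  refine lt_of_le_of_lt ?_ (bound_aux (card_lt I))
  refine Nat.mul_le_mul_left _ ?_
  have h1 : sz I.2 ≤ sz I := sz_snd_le I
  calc ∑ u, chipsOf I u ≤ ∑ _u : Fin I.2.length, 2 ^ sz I :=
        Finset.sum_le_sum fun u _ => (entry_le I.2 u).trans
          (Nat.pow_le_pow_right (by norm_num) h1)
    _ = I.2.length * 2 ^ sz I := by simp
    _ ≤ I.2.length * (I.2.length * 2 ^ sz I) := by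
        rcases Nat.eq_zero_or_pos I.2.length with h | h
        · rw [h]; simp
        · exact Nat.mul_le_mul_left _ (Nat.le_mul_of_pos_left _ h)

/-! ### The canonical certificate -/

theorem exists_cert (I : Inst) (hE : (graphOf I).Eulerian) (h0 : 0 < I.2.length) :
    ∃ Z0 : List (List Bool), certB I (5 * sz I + 3) Z0 = true ∧
      (∀ Z, certB I (5 * sz I + 3) Z = true → Z = Z0) ∧
      ((graphOf I).Terminates (chipsOf I) ↔ hotB I Z0 [] 0 = false) ∧
      sz Z0 ≤ 1 + sz I * (1 + (4 * (5 * sz I + 3) + 1)) := by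
  set w := 5 * sz I + 3 with hw
  have hw1 : w - 1 = 5 * sz I + 2 := by omega
  set q : Fin I.2.length := ⟨0, h0⟩ with hq
  obtain ⟨z, ⟨hzq, hzb, hzs⟩, huniq, hup, hlow, hterm⟩ :=
    (graphOf I).rep_main hE (chipsOf I) q ((2 : ℤ) ^ (w - 1))
  have hcard : Fintype.card (Fin I.2.length) = I.2.length := Fintype.card_fin _
  have hz0 : ∀ v, 0 ≤ z v := by
    intro v
    have h1 := hlow v
    have h2 := deg_bound I
    rw [hcard] at h1
    have h3 : ((I.2.length * ∑ u, (graphOf I).outDeg u : ℕ) : ℤ) < 2 ^ (w - 1) := by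
      rw [hw1]; exact_mod_cast h2
    push_cast at h1 h3
    linarith
  have hz1 : ∀ v, (z v).toNat < 2 ^ w := by
    intro v
    have h1 := hup v
    have h2 := chips_bound I
    rw [hcard] at h1
    have h3 : ((I.2.length * ∑ u, chipsOf I u : ℕ) : ℤ) < 2 ^ (w - 1) := by
      rw [hw1]; exact_mod_cast h2
    have h4 : (z v) < 2 ^ w := by
      have h5 : (2 : ℤ) ^ w = 2 ^ (w - 1) + 2 ^ (w - 1) := by
        rw [show w = (w - 1) + 1 by omega, pow_succ]; simp; ring
      rw [h5]
      push_cast at h1 h3
      linarith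
    have h5 := hz0 v
    zify
    rw [Int.toNat_of_nonneg h5]
    exact h4
  set Z0 : List (List Bool) := List.ofFn fun v : Fin I.2.length => bitsOf w (z v).toNat with hZ0
  have hget : ∀ v : Fin I.2.length, Z0.getD v [] = bitsOf w (z v).toNat := by
    intro v
    rw [List.getD_eq_getElem _ _ (by simp [hZ0])]
    simp [hZ0]
  have hscr : scr I.2.length Z0 = z := by
    funext v
    rw [scr, hget, binVal_bitsOf _ _ (hz1 v), Int.toNat_of_nonneg (hz0 v)]
  have hshift : bitsOf w (z q).toNat = shiftB (w - 1) [true] := by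
    have hl : (shiftB (w - 1) [true]).length = w := by
      simp [shiftB]; omega
    refine binVal_inj (by rw [bitsOf_length, hl]) ?_
    rw [binVal_bitsOf _ _ (hz1 q), binVal_shiftB, hzq]
    simp only [binVal, Bool.toNat_true, mul_zero, add_zero, mul_one]
    have : ((2 : ℤ) ^ (w - 1)) = ((2 ^ (w - 1) : ℕ) : ℤ) := by push_cast; rfl
    rw [this, Int.toNat_natCast]
  refine ⟨Z0, ?_, ?_, ?_, ?_⟩
  · rw [certB_iff I hE w Z0 q rfl]
    refine ⟨by simp [hZ0], ?_, ?_, ?_, ?_⟩
    · intro b hb
      rw [hZ0, List.mem_ofFn] at hb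
      obtain ⟨v, rfl⟩ := hb
      exact bitsOf_length _ _
    · have := hget q
      simp only [hq] at this
      rw [this]
      exact hshift
    · rw [hscr]; exact hzb
    · rw [hscr]; exact hzs
  · intro Z hZ
    rw [certB_iff I hE w Z q rfl] at hZ
    obtain ⟨h1, h2, h3, h4, h5⟩ := hZ
    have h6 : scr I.2.length Z = z := by
      refine huniq _ ⟨?_, h4, h5⟩
      have : (q : ℕ) = 0 := rfl
      rw [scr, this, h3, binVal_shiftB]
      simp [binVal]
    refine List.ext_getElem (by simp [hZ0, h1]) fun i hi hi' => ?_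
    have hin : i < I.2.length := by omega
    have h7 := congrFun h6 ⟨i, hin⟩
    have h8 := congrFun hscr ⟨i, hin⟩
    rw [← h8] at h7
    simp only [scr] at h7
    rw [List.getD_eq_getElem _ _ hi, List.getD_eq_getElem _ _ hi'] at h7
    refine binVal_inj ?_ (by exact_mod_cast h7)
    rw [h2 _ (List.getElem_mem hi)]
    simp [hZ0, bitsOf_length]
  · rw [hterm, ← hscr, ← hotB_nil I Z0 q, Bool.not_eq_true]
  · have h1 : ∀ a ∈ Z0, sz a ≤ 4 * w + 1 := by
      intro a ha
      rw [hZ0, List.mem_ofFn] at ha
      obtain ⟨v, rfl⟩ := ha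
      have := sz_word (bitsOf w (z v).toNat)
      rw [bitsOf_length] at this
      exact this
    have h2 := sz_list_le Z0 _ h1
    have h3 : Z0.length = I.2.length := by simp [hZ0]
    rw [h3] at h2
    refine h2.trans ?_
    have := (card_lt I).le
    gcongr

/-- The test of certificates for termination (`b = false`) or non-termination (`b = true`) of an
Eulerian instance. -/
def coreT (b : Bool) (z : (List Bool × List Bool) × Inst) : Bool :=
  ((parseW (List (List Bool)) z.1.2).bind fun Z => some
    (certB z.2 (5 * z.1.1.length + 3) Z && decide (hotB z.2 Z [] 0 = b))).getD false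

/-- The test for the halting problem. -/
def testHalt (z : List Bool × List Bool) : Bool :=
  ((parseW Inst z.1).bind fun I => some (eulB I && (bif decide (I.2.length = 0)
    then decide (z.2 = []) else coreT false (z, I)))).getD false

/-- The test for the complement of the halting problem. -/
def testCo (z : List Bool × List Bool) : Bool :=
  ((parseW Inst z.1).bind fun I => some (bif eulB I
    then (!(decide (I.2.length = 0)) && coreT true (z, I)) else decide (z.2 = []))).getD
    (decide (z.2 = []))

theorem PTime.coreT (b : Bool) : PTime (MP_85af13_lc.coreT b) := by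
  unfold MP_85af13_lc.coreT
  refine PTime.parseTest (β := List (List Bool))
    (w := fun z : (List Bool × List Bool) × Inst => z.1.2) (by fun_prop)
    (t := fun z Z => MP_85af13_lc.certB z.2 (5 * z.1.1.length + 3) Z &&
      decide (MP_85af13_lc.hotB z.2 Z [] 0 = b)) ?_
  refine PTime.and (PTime.certB (by fun_prop) ?_ (by fun_prop)) (PTime.eq (PTime.hotB
    (by fun_prop) (by fun_prop) (PTime.const _) (PTime.const _)) (PTime.const _))
  exact PTime.natAdd (PTime.natMul (PTime.const _) (PTime.length (by fun_prop))) (PTime.const _)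

theorem PTime.testHalt : PTime MP_85af13_lc.testHalt := by
  unfold MP_85af13_lc.testHalt
  refine PTime.parseTest (β := Inst) (w := fun z : List Bool × List Bool => z.1) PTime.fst
    (t := fun z I => MP_85af13_lc.eulB I && (bif decide (I.2.length = 0)
      then decide (z.2 = []) else MP_85af13_lc.coreT false (z, I))) ?_
  refine PTime.and (PTime.eulB PTime.snd) (PTime.cond (PTime.eq (PTime.size PTime.snd)
    (PTime.const _)) (PTime.eq (by fun_prop) (PTime.const _)) ?_)
  exact (PTime.coreT false).comp (by fun_prop)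

theorem PTime.testCo : PTime MP_85af13_lc.testCo := by
  unfold MP_85af13_lc.testCo
  refine PTime.getD (PTime.bind (PTime.parseW PTime.fst) (PTime.mkSome ?_))
    (PTime.eq PTime.snd (PTime.const _))
  refine PTime.cond (PTime.eulB PTime.snd) (PTime.and (PTime.not (PTime.eq
    (PTime.size PTime.snd) (PTime.const _))) ?_) (PTime.eq (by fun_prop) (PTime.const _))
  exact (PTime.coreT true).comp (by fun_prop)

theorem coreT_iff (b : Bool) (I : Inst) (hE : (graphOf I).Eulerian) (h0 : 0 < I.2.length)
    (Z0 : List (List Bool)) (h1 : certB I (5 * sz I + 3) Z0 = true)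
    (h2 : ∀ Z, certB I (5 * sz I + 3) Z = true → Z = Z0) (y : List Bool) :
    coreT b (((code I).ser, y), I) = true ↔ y = (code Z0).ser ∧ hotB I Z0 [] 0 = b := by
  unfold coreT
  rw [parseTest_iff]
  simp only [Bool.and_eq_true, decide_eq_true_eq]
  have hs : (code I).ser.length = sz I := rfl
  rw [hs]
  constructor
  · rintro ⟨Z, rfl, h3, h4⟩
    have := h2 Z h3
    subst this
    exact ⟨rfl, h4⟩
  · rintro ⟨rfl, h4⟩
    exact ⟨Z0, rfl, h1, h4⟩

/-- The bound for the length of certificates. -/
noncomputable def certPoly : Polynomial ℕ :=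
  1 + Polynomial.X * (1 + (4 * (5 * Polynomial.X + 3) + 1))

theorem certPoly_eval (s : ℕ) : certPoly.eval s = 1 + s * (1 + (4 * (5 * s + 3) + 1)) := by
  simp [certPoly]

theorem terminates_of_empty (I : Inst) (h0 : I.2.length = 0) :
    (graphOf I).Terminates (chipsOf I) := by
  refine ⟨chipsOf I, Relation.ReflTransGen.refl, fun v => ?_⟩
  exact absurd v.2 (by omega)

theorem haltingEulerian_mem (I : Inst) : (code I).ser ∈ haltingEulerian ↔
    (graphOf I).Eulerian ∧ (graphOf I).Terminates (chipsOf I) := by
  constructor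
  · rintro ⟨J, hJ, h1, h2⟩
    have : I = J := Decode.injective (T.ser_inj hJ)
    subst this
    exact ⟨h1, h2⟩
  · rintro ⟨h1, h2⟩
    exact ⟨I, rfl, h1, h2⟩

theorem halting_inUP : InUP haltingEulerian := by
  refine inUP_of PTime.testHalt certPoly ?_ ?_
  · rintro x ⟨I, rfl, hE, hT⟩
    have hs : (code I).ser.length = sz I := rfl
    have htest : ∀ y, testHalt ((code I).ser, y) = (bif decide (I.2.length = 0)
        then decide (y = []) else coreT false (((code I).ser, y), I)) := by
      intro y
      simp [testHalt, parseW_ser, (eulB_iff I).2 hE]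
    by_cases h0 : I.2.length = 0
    · refine ⟨[], ⟨Nat.zero_le _, by rw [htest]; simp [h0]⟩, ?_⟩
      rintro y ⟨-, hy⟩
      rw [htest] at hy
      simpa [h0] using hy
    · obtain ⟨Z0, h1, h2, h3, h4⟩ := exists_cert I hE (Nat.pos_of_ne_zero h0)
      have hc := coreT_iff false I hE (Nat.pos_of_ne_zero h0) Z0 h1 h2
      refine ⟨(code Z0).ser, ⟨?_, ?_⟩, ?_⟩
      · rw [hs, certPoly_eval]
        exact h4
      · rw [htest]
        simp only [h0, decide_false, cond_false, hc]
        exact ⟨trivial, h3.1 hT⟩
      · rintro y ⟨-, hy⟩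
        rw [htest] at hy
        simp only [h0, decide_false, cond_false, hc] at hy
        exact hy.1
  · intro x hx y hy
    unfold testHalt at hy
    rw [parseTest_iff] at hy
    obtain ⟨I, rfl, hI⟩ := hy
    rw [Bool.and_eq_true] at hI
    have hE := (eulB_iff I).1 hI.1
    apply hx
    rw [haltingEulerian_mem]
    refine ⟨hE, ?_⟩
    by_cases h0 : I.2.length = 0
    · exact terminates_of_empty I h0
    · obtain ⟨Z0, h1, h2, h3, h4⟩ := exists_cert I hE (Nat.pos_of_ne_zero h0)
      have hc := coreT_iff false I hE (Nat.pos_of_ne_zero h0) Z0 h1 h2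
      have h5 := hI.2
      simp only [h0, decide_false, cond_false, hc] at h5
      exact h3.2 h5.2

theorem halting_inCoUP : InUP haltingEulerianᶜ := by
  have hpars : ∀ x y, parseW Inst x = none → (testCo (x, y) = true ↔ y = []) := by
    intro x y h
    simp [testCo, h]
  have hneul : ∀ (I : Inst) y, ¬ (graphOf I).Eulerian →
      (testCo ((code I).ser, y) = true ↔ y = []) := by
    intro I y h
    have : eulB I = false := by
      rw [← Bool.not_eq_true]; exact fun h' => h ((eulB_iff I).1 h')
    simp [testCo, parseW_ser, this]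
  have heul : ∀ (I : Inst) y, (graphOf I).Eulerian → testCo ((code I).ser, y) =
      (!(decide (I.2.length = 0)) && coreT true (((code I).ser, y), I)) := by
    intro I y h
    simp [testCo, parseW_ser, (eulB_iff I).2 h]
  refine inUP_of PTime.testCo certPoly ?_ ?_
  · intro x hx
    cases hp : parseW Inst x with
    | none =>
      refine ⟨[], ⟨Nat.zero_le _, (hpars x _ hp).2 rfl⟩, ?_⟩
      rintro y ⟨-, hy⟩
      exact (hpars x y hp).1 hy
    | some I =>
      have hxI := parseW_eq_some.1 hp
      subst hxI
      by_cases hE : (graphOf I).Eulerian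
      · have hT : ¬ (graphOf I).Terminates (chipsOf I) := fun h =>
          hx ((haltingEulerian_mem I).2 ⟨hE, h⟩)
        have h0 : I.2.length ≠ 0 := fun h => hT (terminates_of_empty I h)
        obtain ⟨Z0, h1, h2, h3, h4⟩ := exists_cert I hE (Nat.pos_of_ne_zero h0)
        have hc := coreT_iff true I hE (Nat.pos_of_ne_zero h0) Z0 h1 h2
        have hhot : hotB I Z0 [] 0 = true := by
          rw [← Bool.not_eq_false]; exact fun h => hT (h3.2 h)
        refine ⟨(code Z0).ser, ⟨?_, ?_⟩, ?_⟩
        · have hs : (code I).ser.length = sz I := rfl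
          rw [hs, certPoly_eval]
          exact h4
        · rw [heul I _ hE]
          simp [h0, hc, hhot]
        · rintro y ⟨-, hy⟩
          rw [heul I _ hE] at hy
          simp only [h0, decide_false, Bool.not_false, Bool.true_and, hc] at hy
          exact hy.1
      · refine ⟨[], ⟨Nat.zero_le _, (hneul I _ hE).2 rfl⟩, ?_⟩
        rintro y ⟨-, hy⟩
        exact (hneul I y hE).1 hy
  · intro x hx y hy
    rw [Set.mem_compl_iff, not_not] at hx
    obtain ⟨I, rfl, hE, hT⟩ := hx
    rw [heul I _ hE, Bool.and_eq_true, Bool.not_eq_true', decide_eq_false_iff_not] at hy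
    obtain ⟨h0, hy⟩ := hy
    obtain ⟨Z0, h1, h2, h3, h4⟩ := exists_cert I hE (Nat.pos_of_ne_zero h0)
    have hc := coreT_iff true I hE (Nat.pos_of_ne_zero h0) Z0 h1 h2
    have := (hc y).1 hy
    rw [h3.1 hT] at this
    exact absurd this.2 (by simp)

end Pool.Agent.Work.MP_85af13_lc
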