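import Pool.Agent.Work.MP_85af13_lc.Sound

set_option autoImplicit false
set_option linter.unusedSectionVars false
set_option linter.unusedSimpArgs false

namespace Pool.Agent.Work.MP_85af13_lc

variable {ι : Type} [Fintype ι] [DecidableEq ι] {S : Sys ι} {P : Params} {v0 : ι}

theorem complete {C Dl U L T : ℕ} (hg : Good S P C Dl U L T) (x : ι → ℤ) (hx0 : ∀ v, 0 ≤ x v)
    (hxR : ∀ v, x v ≤ P.R) (hsol : IsSol S P v0 x) :
    ∃ z : Vtx ι → ℤ, ∀ p, (gadget S P v0).lap z p ≤ slack S P v0 p := by
  classical
  set xt : Option ι → ℤ := fun t => t.elim 0 x with hxt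
  have hxt0 : ∀ t, 0 ≤ xt t := by
    intro t; cases t with
    | none => simp [hxt]
    | some u => simp [hxt, hx0]
  have hR0 : (0 : ℤ) ≤ P.R := by positivity
  have hxtR : ∀ t, xt t ≤ P.R := by
    intro t; cases t with
    | none => simp [hxt]
    | some u => simp [hxt, hxR]
  set δ : ι → ℤ := fun v => if S.kind v = Kind.max ∧ ¬ (x v ≤ xt (S.tgt v true) + S.c v true)
    then -1 else 0 with hδ
  have hδ1 : ∀ v, -1 ≤ δ v := by intro v; simp only [hδ]; split_ifs <;> norm_num
  have hδ2 : ∀ v, δ v ≤ 0 := by intro v; simp only [hδ]; split_ifs <;> norm_num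
  obtain ⟨z, hz0, hzs, hza, hzb⟩ : ∃ z : Vtx ι → ℤ, z none = 0 ∧ (∀ v, z (some (v, 0)) = x v) ∧
      (∀ v, z (some (v, 1)) = x v) ∧ (∀ v, z (some (v, 2)) = x v + δ v) :=
    ⟨fun p => match p with
      | none => 0
      | some (v, 0) => x v
      | some (v, 1) => x v
      | some (v, 2) => x v + δ v, rfl, fun _ => rfl, fun _ => rfl, fun _ => rfl⟩
  have hport : ∀ t, z (port t) = xt t := by
    intro t; cases t with
    | none => exact hz0
    | some u => exact hzs u
  have htail : ∀ u, -1 ≤ z (tailE S (u, 3)) := by
    intro u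
    simp only [tailE]
    split_ifs
    · rw [hza]; linarith [hx0 u]
    · rw [hzb]; linarith [hx0 u, hδ1 u]
  have hHC : ((2 * C + 2 * (U + L) : ℕ) : ℤ) < P.H := by exact_mod_cast hg.hH
  have hUR : ((P.R + 2 * Fintype.card ι * (P.R + 1) + Fintype.card ι * Dl : ℕ) : ℤ) ≤ U := by
    exact_mod_cast hg.hU
  push_cast at hHC hUR
  have hC0 : (0 : ℤ) ≤ C := by positivity
  have hL0 : (0 : ℤ) ≤ L := by positivity
  have hn0 : (0 : ℤ) ≤ 2 * (Fintype.card ι : ℤ) * (P.R + 1) := by positivity
  have hn1 : (0 : ℤ) ≤ (Fintype.card ι : ℤ) * Dl := by positivity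
  have hRU : (P.R : ℤ) ≤ U := by linarith
  have hcardsum : ∀ (f : ι → ℤ) (B : ℤ), (∀ u, f u ≤ B) → ∑ u, f u ≤ Fintype.card ι * B := by
    intro f B hf
    calc ∑ u, f u ≤ ∑ _u : ι, B := Finset.sum_le_sum (fun u _ => hf u)
      _ = Fintype.card ι * B := by simp
  refine ⟨z, fun p => ?_⟩
  match p with
  | none =>
    rw [row_g]
    simp only [slack]
    have h1 : ∑ u, (if u = v0 then (P.Q : ℤ) else 1) * (z none - z (some (u, 0))) ≤
        - (P.Q * P.θ) := by
      have h := Finset.add_sum_erase Finset.univ
        (fun u : ι => (if u = v0 then (P.Q : ℤ) else 1) * (z none - z (some (u, 0))))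
        (Finset.mem_univ v0)
      rw [← h]
      simp only [if_true]
      have h2 : ∑ u ∈ Finset.univ.erase v0,
          (if u = v0 then (P.Q : ℤ) else 1) * (z none - z (some (u, 0))) ≤ 0 := by
        apply Finset.sum_nonpos
        intro u hu
        rw [if_neg (Finset.ne_of_mem_erase hu), hz0, hzs]
        linarith [hx0 u]
      have h3 : (P.Q : ℤ) * (z none - z (some (v0, 0))) ≤ -(P.Q * P.θ) := by
        rw [hz0, hzs]
        have := hsol.1
        have hq : (0 : ℤ) ≤ P.Q := by positivity
        nlinarith
      linarith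
    have h2 : ∑ u, (if S.tgt u false = none then z none - z (some (u, 1)) else 0) ≤
        Fintype.card ι * 1 := by
      apply hcardsum
      intro u
      split_ifs
      · rw [hz0, hza]; linarith [hx0 u]
      · norm_num
    have h3 : ∑ u, (if S.tgt u true = none then z none - z (tailE S (u, 3)) else 0) ≤
        Fintype.card ι * 1 := by
      apply hcardsum
      intro u
      split_ifs
      · rw [hz0]; linarith [htail u]
      · norm_num
    linarith
  | some (v, 0) =>
    rw [row_s]
    simp only [slack]
    have h1 : ∑ u, (if S.tgt u false = some v then z (some (v, 0)) - z (some (u, 1)) else 0) ≤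
        Fintype.card ι * (P.R + 1) := by
      apply hcardsum
      intro u
      split_ifs
      · rw [hzs, hza]; linarith [hx0 u, hxR v]
      · linarith
    have h2 : ∑ u, (if S.tgt u true = some v then z (some (v, 0)) - z (tailE S (u, 3)) else 0) ≤
        Fintype.card ι * (P.R + 1) := by
      apply hcardsum
      intro u
      split_ifs
      · rw [hzs]; linarith [htail u, hxR v]
      · linarith
    have h3 : (if v = v0 then (P.Q : ℤ) else 1) * (z (some (v, 0)) - z none) ≤
        (if v = v0 then (P.Q : ℤ) else 1) * P.R := by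
      apply mul_le_mul_of_nonneg_left
      · rw [hzs, hz0]; linarith [hxR v]
      · split_ifs <;> positivity
    have h4 : z (some (v, 0)) - z (some (v, 1)) = 0 := by rw [hzs, hza]; ring
    rw [h4]
    linarith
  | some (v, 1) =>
    rw [row_a, hport, hport]
    simp only [slack]
    rw [hzs, hza, hzb]
    have hv := hsol.2 v
    have c0 := abs_le.1 (hg.hc v false)
    have c1 := abs_le.1 (hg.hc v true)
    cases hk : S.kind v with
    | max =>
      simp only [hk] at hv
      simp only [reduceCtorEq, if_false]
      by_cases hch : x v ≤ xt (S.tgt v true) + S.c v true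
      · have hd : δ v = 0 := by simp only [hδ]; rw [if_neg]; intro h; exact h.2 hch
        rw [hd]
        linarith [hxR v, hxt0 (S.tgt v false)]
      · have hd : δ v = -1 := by simp only [hδ]; rw [if_pos]; exact ⟨hk, hch⟩
        rw [hd]
        have hv' : x v ≤ xt (S.tgt v false) + S.c v false := by
          rcases hv with h | h
          · exact h
          · exact absurd h hch
        linarith
    | min =>
      simp only [hk] at hv
      have hd : δ v = 0 := by simp only [hδ]; rw [if_neg]; intro h; simp [hk] at h
      simp only [reduceCtorEq, if_false]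
      rw [hd]
      have hv' : x v ≤ xt (S.tgt v false) + S.c v false := hv.1
      linarith
    | avg =>
      simp only [hk] at hv
      have hd : δ v = 0 := by simp only [hδ]; rw [if_neg]; intro h; simp [hk] at h
      simp only [if_true]
      rw [hd]
      have hv' : 2 * x v ≤ xt (S.tgt v false) + xt (S.tgt v true) + S.c v false + S.c v true := hv
      linarith
  | some (v, 2) =>
    rw [row_b, hport]
    simp only [slack]
    rw [hza, hzb]
    have hv := hsol.2 v
    have c0 := abs_le.1 (hg.hc v false)
    have c1 := abs_le.1 (hg.hc v true)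
    cases hk : S.kind v with
    | max =>
      simp only [hk] at hv
      simp only [reduceCtorEq, if_false]
      by_cases hch : x v ≤ xt (S.tgt v true) + S.c v true
      · have hd : δ v = 0 := by simp only [hδ]; rw [if_neg]; intro h; exact h.2 hch
        rw [hd]
        linarith
      · have hd : δ v = -1 := by simp only [hδ]; rw [if_pos]; exact ⟨hk, hch⟩
        rw [hd]
        linarith [hxR v, hxt0 (S.tgt v true)]
    | min =>
      simp only [hk] at hv
      have hd : δ v = 0 := by simp only [hδ]; rw [if_neg]; intro h; simp [hk] at h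
      simp only [reduceCtorEq, if_false]
      rw [hd]
      have hv' : x v ≤ xt (S.tgt v true) + S.c v true := hv.2
      linarith
    | avg =>
      have hd : δ v = 0 := by simp only [hδ]; rw [if_neg]; intro h; simp [hk] at h
      simp only [if_true]
      rw [hd]
      linarith

theorem sound {C Dl U L T : ℕ} (hg : Good S P C Dl U L T) (z : Vtx ι → ℤ)
    (hz : ∀ p, (gadget S P v0).lap z p ≤ slack S P v0 p) :
    ∃ x : ι → ℤ, IsSol S P v0 x := by
  classical
  have hT := sum_slack (v0 := v0) hg
  have hflow : ∀ p q, ((gadget S P v0).m p q : ℤ) * (z q - z p) ≤ T := fun p q =>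
    le_trans (flow_bound _ (gadget_symm S P v0) z _ hz p q) hT
  have hW : (T : ℤ) < P.W := by exact_mod_cast hg.hW
  have hHC : ((2 * C + 2 * (U + L) : ℕ) : ℤ) < P.H := by exact_mod_cast hg.hH
  have hUR : ((P.R + 2 * Fintype.card ι * (P.R + 1) + Fintype.card ι * Dl : ℕ) : ℤ) ≤ U := by
    exact_mod_cast hg.hU
  have hQ : ((2 * Fintype.card ι + 3 * Fintype.card ι * U + Fintype.card ι * Dl : ℕ) : ℤ) < P.Q := by
    exact_mod_cast hg.hQ
  have hL : ((2 * Fintype.card ι + (P.Q + Fintype.card ι) * U + Fintype.card ι * U +
    Fintype.card ι * (U + Dl) : ℕ) : ℤ) ≤ L := by exact_mod_cast hg.hL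
  have hTD : ((T : ℕ) : ℤ) < ((Dl + 1) * P.H : ℕ) := by exact_mod_cast hg.hD
  push_cast at hHC hUR hQ hL hTD
  -- ties
  have htie : ∀ v, z (some (v, 1)) = z (some (v, 0)) := by
    intro v
    have hm : ((P.W : ℕ) : ℤ) ≤ (gadget S P v0).m (some (v, 1)) (some (v, 0)) := by
      exact_mod_cast le_mult S P v0 (v, 0)
    have hm' : ((P.W : ℕ) : ℤ) ≤ (gadget S P v0).m (some (v, 0)) (some (v, 1)) := by
      rw [gadget_symm]; exact hm
    have h1 := hflow (some (v, 1)) (some (v, 0))
    have h2 := hflow (some (v, 0)) (some (v, 1))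
    rcases lt_trichotomy (z (some (v, 1))) (z (some (v, 0))) with h | h | h
    · exfalso
      nlinarith
    · exact h
    · exfalso
      nlinarith
  have hdl : ∀ v, z (some (v, 2)) - z (some (v, 1)) ≤ Dl ∧
      z (some (v, 1)) - z (some (v, 2)) ≤ Dl := by
    intro v
    have hm : ((P.H : ℕ) : ℤ) ≤ (gadget S P v0).m (some (v, 2)) (some (v, 1)) := by
      exact_mod_cast le_mult S P v0 (v, 1)
    have hm' : ((P.H : ℕ) : ℤ) ≤ (gadget S P v0).m (some (v, 1)) (some (v, 2)) := by
      rw [gadget_symm]; exact hm
    have h1 := hflow (some (v, 2)) (some (v, 1))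
    have h2 := hflow (some (v, 1)) (some (v, 2))
    have hH0 : (0 : ℤ) ≤ P.H := by positivity
    have hDl0 : (0 : ℤ) ≤ Dl := by positivity
    constructor
    · by_contra hcon
      push Not at hcon
      nlinarith
    · by_contra hcon
      push Not at hcon
      nlinarith
  -- normalised values
  set n : ℤ := (Fintype.card ι : ℤ) with hn
  have hn0 : 0 ≤ n := by rw [hn]; positivity
  have hR0 : (0 : ℤ) ≤ P.R := by positivity
  have hDl0 : (0 : ℤ) ≤ Dl := by positivity
  have hU0 : (0 : ℤ) ≤ U := by positivity
  have hQ0 : (0 : ℤ) ≤ P.Q := by positivity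
  have hθ0 : (0 : ℤ) ≤ P.θ := by positivity
  have hC0 : (0 : ℤ) ≤ C := by positivity
  have hL0 : (0 : ℤ) ≤ L := by positivity
  set x : ι → ℤ := fun v => z (some (v, 0)) - z none with hx
  have hcardsum : ∀ (f : ι → ℤ) (B : ℤ), (∀ u, B ≤ f u) → n * B ≤ ∑ u, f u := by
    intro f B hf
    calc n * B = ∑ _u : ι, B := by simp [hn]
      _ ≤ ∑ u, f u := Finset.sum_le_sum (fun u _ => hf u)
  have htailU : ∀ u, z (tailE S (u, 3)) ≤ z (some (u, 0)) + Dl := by
    intro u
    simp only [tailE]
    split_ifs
    · rw [htie]; linarith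
    · linarith [(hdl u).1, htie u]
  -- upper bound
  have hxU : ∀ v, x v ≤ U := by
    obtain ⟨v, -, hv⟩ := Finset.exists_max_image Finset.univ x ⟨v0, Finset.mem_univ _⟩
    have hv' : ∀ u, z (some (u, 0)) ≤ z (some (v, 0)) := by
      intro u
      have := hv u (Finset.mem_univ u)
      simp only [hx] at this
      linarith
    have hrow := hz (some (v, 0))
    rw [row_s, htie v] at hrow
    simp only [slack] at hrow
    have h1 : n * 0 ≤ ∑ u, (if S.tgt u false = some v then z (some (v, 0)) - z (some (u, 1))
        else 0) := by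
      apply hcardsum
      intro u
      split_ifs
      · rw [htie]; linarith [hv' u]
      · exact le_rfl
    have h2 : n * (-Dl) ≤ ∑ u, (if S.tgt u true = some v then z (some (v, 0)) -
        z (tailE S (u, 3)) else 0) := by
      apply hcardsum
      intro u
      split_ifs
      · linarith [hv' u, htailU u]
      · linarith
    have hK : (1 : ℤ) ≤ (if v = v0 then (P.Q : ℤ) else 1) := by
      split_ifs
      · have : 0 ≤ 2 * n + 3 * n * U + n * Dl := by positivity
        linarith
      · exact le_rfl
    have h3 : (if v = v0 then (P.Q : ℤ) else 1) * (x v - P.R) ≤ 2 * n * (P.R + 1) + n * Dl := by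
      simp only [hx]
      nlinarith
    have h4 : x v ≤ U := by
      by_contra hcon
      push Not at hcon
      have h5 : 0 ≤ x v - P.R := by nlinarith
      nlinarith
    intro w
    exact le_trans (hv w (Finset.mem_univ w)) h4
  have hrowg := hz none
  rw [row_g] at hrowg
  simp only [slack] at hrowg
  have hg1 : n * (-U) ≤ ∑ u, (if S.tgt u false = none then z none - z (some (u, 1)) else 0) := by
    apply hcardsum
    intro u
    split_ifs
    · rw [htie]
      have := hxU u
      simp only [hx] at this
      linarith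
    · linarith
  have hg2 : n * (-(U + Dl)) ≤ ∑ u, (if S.tgt u true = none then z none -
      z (tailE S (u, 3)) else 0) := by
    apply hcardsum
    intro u
    split_ifs
    · have := hxU u
      simp only [hx] at this
      linarith [htailU u]
    · linarith
  have hKx : ∀ w, (if w = v0 then (P.Q : ℤ) else 1) * (- x w) -
      (∑ u ∈ Finset.univ.erase w, (if u = v0 then (P.Q : ℤ) else 1)) * U ≤
      ∑ u, (if u = v0 then (P.Q : ℤ) else 1) * (z none - z (some (u, 0))) := by
    intro w
    rw [← Finset.add_sum_erase Finset.univ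
      (fun u : ι => (if u = v0 then (P.Q : ℤ) else 1) * (z none - z (some (u, 0))))
      (Finset.mem_univ w)]
    have h1 : - ((∑ u ∈ Finset.univ.erase w, (if u = v0 then (P.Q : ℤ) else 1)) * U) ≤
        ∑ u ∈ Finset.univ.erase w,
          (if u = v0 then (P.Q : ℤ) else 1) * (z none - z (some (u, 0))) := by
      rw [Finset.sum_mul, ← Finset.sum_neg_distrib]
      apply Finset.sum_le_sum
      intro u _
      have h2 := hxU u
      simp only [hx] at h2
      have h3 : (0 : ℤ) ≤ (if u = v0 then (P.Q : ℤ) else 1) := by split_ifs <;> positivity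
      nlinarith
    have h2 : (if w = v0 then (P.Q : ℤ) else 1) * (- x w) =
        (if w = v0 then (P.Q : ℤ) else 1) * (z none - z (some (w, 0))) := by
      simp only [hx]; ring
    rw [h2]
    linarith
  have hsumK := sum_K P v0
  have hxθ : (P.θ : ℤ) ≤ x v0 := by
    have h1 := hKx v0
    have h2 : ∑ u ∈ Finset.univ.erase v0, (if u = v0 then (P.Q : ℤ) else 1) ≤ n := by
      have h := Finset.add_sum_erase Finset.univ (fun u : ι => (if u = v0 then (P.Q : ℤ) else 1))
        (Finset.mem_univ v0)
      simp only [if_true] at h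
      rw [hsumK] at h
      linarith
    simp only [if_true] at h1
    have h3 : (∑ u ∈ Finset.univ.erase v0, (if u = v0 then (P.Q : ℤ) else 1)) * U ≤ n * U :=
      mul_le_mul_of_nonneg_right h2 hU0
    by_contra hcon
    push Not at hcon
    have h4 : (P.Q : ℤ) * (P.θ - x v0) ≤ 2 * n + 3 * n * U + n * Dl := by
      nlinarith
    have h5 : (P.Q : ℤ) ≤ (P.Q : ℤ) * (P.θ - x v0) := by nlinarith
    linarith
  have hxL : ∀ v, -(L : ℤ) ≤ x v := by
    intro w
    have h1 := hKx w
    have h2 : ∑ u ∈ Finset.univ.erase w, (if u = v0 then (P.Q : ℤ) else 1) ≤ P.Q + n := by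
      have h := Finset.add_sum_erase Finset.univ (fun u : ι => (if u = v0 then (P.Q : ℤ) else 1))
        (Finset.mem_univ w)
      rw [hsumK] at h
      have h3 : (0 : ℤ) ≤ (if w = v0 then (P.Q : ℤ) else 1) := by split_ifs <;> positivity
      linarith
    have h3 : (∑ u ∈ Finset.univ.erase w, (if u = v0 then (P.Q : ℤ) else 1)) * U ≤
        (P.Q + n) * U := mul_le_mul_of_nonneg_right h2 hU0
    have h4 : 0 ≤ (P.Q : ℤ) * P.θ := by positivity
    have h5 : (if w = v0 then (P.Q : ℤ) else 1) * (- x w) ≤ L := by nlinarith
    by_contra hcon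
    push Not at hcon
    have hK : (1 : ℤ) ≤ (if w = v0 then (P.Q : ℤ) else 1) := by
      split_ifs
      · have : 0 ≤ 2 * n + 3 * n * U + n * Dl := by positivity
        linarith
      · exact le_rfl
    nlinarith
  set xt : Option ι → ℤ := fun t => t.elim 0 x with hxt
  have hxtU : ∀ t, xt t ≤ U := by
    intro t; cases t with
    | none => simp only [hxt, Option.elim]; exact hU0
    | some u => simp only [hxt, Option.elim]; exact hxU u
  have hxtL : ∀ t, -(L : ℤ) ≤ xt t := by
    intro t; cases t with
    | none => simp only [hxt, Option.elim]; linarith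
    | some u => simp only [hxt, Option.elim]; exact hxL u
  have hport : ∀ t, z (port t) = xt t + z none := by
    intro t; cases t with
    | none => simp [hxt, port]
    | some u => simp [hxt, port, hx]
  have hzs : ∀ v, z (some (v, 0)) = x v + z none := by intro v; simp [hx]
  refine ⟨x, hxθ, fun v => ?_⟩
  have hra := hz (some (v, 1))
  have hrb := hz (some (v, 2))
  rw [row_a, hport, hport, htie, hzs] at hra
  rw [row_b, hport, htie, hzs] at hrb
  simp only [slack] at hra hrb
  set d : ℤ := z (some (v, 2)) - (x v + z none) with hd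
  have hzb : z (some (v, 2)) = d + (x v + z none) := by rw [hd]; ring
  rw [hzb] at hra hrb
  have c0 := abs_le.1 (hg.hc v false)
  have c1 := abs_le.1 (hg.hc v true)
  have b1 := hxU v
  have b2 := hxL v
  have b3 := hxtU (S.tgt v false)
  have b4 := hxtL (S.tgt v false)
  have b5 := hxtU (S.tgt v true)
  have b6 := hxtL (S.tgt v true)
  cases hk : S.kind v with
  | max =>
    simp only [hk, reduceCtorEq, if_false] at hra hrb
    have hd0 : d ≤ 0 := by
      by_contra hcon
      push Not at hcon
      nlinarith
    have hd1 : -1 ≤ d := by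
      by_contra hcon
      push Not at hcon
      nlinarith
    rcases (by omega : d = 0 ∨ d = -1) with h | h
    · right
      rw [h] at hrb
      change x v ≤ xt (S.tgt v true) + S.c v true
      linarith
    · left
      rw [h] at hra
      change x v ≤ xt (S.tgt v false) + S.c v false
      linarith
  | min =>
    simp only [hk, reduceCtorEq, if_false] at hra hrb
    have hd0 : d ≤ 0 := by
      by_contra hcon
      push Not at hcon
      nlinarith
    have hd1 : 0 ≤ d := by
      by_contra hcon
      push Not at hcon
      nlinarith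
    have h : d = 0 := by omega
    rw [h] at hra hrb
    constructor
    · change x v ≤ xt (S.tgt v false) + S.c v false
      linarith
    · change x v ≤ xt (S.tgt v true) + S.c v true
      linarith
  | avg =>
    simp only [hk, if_true] at hra hrb
    have hd0 : d ≤ 0 := by
      by_contra hcon
      push Not at hcon
      nlinarith
    have hd1 : 0 ≤ d := by
      by_contra hcon
      push Not at hcon
      nlinarith
    have h : d = 0 := by omega
    rw [h] at hra
    change 2 * x v ≤ xt (S.tgt v false) + xt (S.tgt v true) + S.c v false + S.c v true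
    linarith

end Pool.Agent.Work.MP_85af13_lc
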