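import Pool.Agent.Work.MP_85af13_lc.Gadget

set_option autoImplicit false
set_option linter.unusedSectionVars false
set_option linter.unusedSimpArgs false

namespace Pool.Agent.Work.MP_85af13_lc

section flow

variable {V : Type} [Fintype V] [DecidableEq V] (D : MultiDigraph V)

theorem lap_eq_sum (hs : ∀ p q, D.m p q = D.m q p) (z : V → ℤ) (r : V) :
    D.lap z r = ∑ q, (D.m q r : ℤ) * (z r - z q) := by
  unfold MultiDigraph.lap MultiDigraph.outDeg
  simp only [mul_sub, Finset.sum_sub_distrib]
  congr 1
  push_cast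
  rw [Finset.sum_mul]
  exact Finset.sum_congr rfl (fun q _ => by rw [hs r q])

/-- In an undirected multigraph, if `lap z ≤ d` then the flow across every edge is bounded by the
sum of the positive parts of `d`. -/
theorem flow_bound (hs : ∀ p q, D.m p q = D.m q p) (z d : V → ℤ) (hz : ∀ p, D.lap z p ≤ d p)
    (p q : V) : (D.m p q : ℤ) * (z q - z p) ≤ ∑ r, max (d r) 0 := by
  classical
  by_cases hpq : z q ≤ z p
  · have h1 : (D.m p q : ℤ) * (z q - z p) ≤ 0 :=
      mul_nonpos_of_nonneg_of_nonpos (by positivity) (by linarith)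
    have h2 : 0 ≤ ∑ r, max (d r) 0 := Finset.sum_nonneg (fun r _ => le_max_right _ _)
    linarith
  · push Not at hpq
    set A : Finset V := Finset.univ.filter (fun r => z q ≤ z r) with hA
    have h1 : ∑ r ∈ A, D.lap z r ≤ ∑ r, max (d r) 0 := by
      calc ∑ r ∈ A, D.lap z r ≤ ∑ r ∈ A, max (d r) 0 :=
            Finset.sum_le_sum (fun r _ => le_trans (hz r) (le_max_left _ _))
        _ ≤ ∑ r, max (d r) 0 :=
            Finset.sum_le_sum_of_subset_of_nonneg (Finset.subset_univ _)
              (fun r _ _ => le_max_right _ _)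
    have h2 : ∑ r ∈ A, D.lap z r = ∑ r ∈ A, ∑ w ∈ A, (D.m w r : ℤ) * (z r - z w) +
        ∑ r ∈ A, ∑ w ∈ Aᶜ, (D.m w r : ℤ) * (z r - z w) := by
      rw [← Finset.sum_add_distrib]
      apply Finset.sum_congr rfl
      intro r _
      rw [lap_eq_sum D hs, Finset.sum_add_sum_compl]
    have h3 : ∑ r ∈ A, ∑ w ∈ A, (D.m w r : ℤ) * (z r - z w) = 0 := by
      simp only [mul_sub, Finset.sum_sub_distrib]
      rw [sub_eq_zero, Finset.sum_comm]
      exact Finset.sum_congr rfl (fun r _ => Finset.sum_congr rfl (fun w _ => by rw [hs]))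
    have h4 : (D.m p q : ℤ) * (z q - z p) ≤
        ∑ r ∈ A, ∑ w ∈ Aᶜ, (D.m w r : ℤ) * (z r - z w) := by
      have hnn : ∀ r ∈ A, ∀ w ∈ Aᶜ, 0 ≤ (D.m w r : ℤ) * (z r - z w) := by
        intro r hr w hw
        have hr' : z q ≤ z r := (Finset.mem_filter.1 hr).2
        have hw' : ¬ z q ≤ z w := by
          intro hh
          exact (Finset.mem_compl.1 hw) (Finset.mem_filter.2 ⟨Finset.mem_univ _, hh⟩)
        exact mul_nonneg (by positivity) (by linarith [not_le.1 hw'])
      have hqA : q ∈ A := Finset.mem_filter.2 ⟨Finset.mem_univ _, le_rfl⟩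
      have hpA : p ∈ Aᶜ := by
        rw [Finset.mem_compl]
        intro hh
        exact absurd (Finset.mem_filter.1 hh).2 (not_le.2 hpq)
      calc (D.m p q : ℤ) * (z q - z p)
          ≤ ∑ w ∈ Aᶜ, (D.m w q : ℤ) * (z q - z w) :=
            Finset.single_le_sum (f := fun w => (D.m w q : ℤ) * (z q - z w))
              (fun w hw => hnn q hqA w hw) hpA
        _ ≤ ∑ r ∈ A, ∑ w ∈ Aᶜ, (D.m w r : ℤ) * (z r - z w) :=
            Finset.single_le_sum (f := fun r => ∑ w ∈ Aᶜ, (D.m w r : ℤ) * (z r - z w))
              (fun r hr => Finset.sum_nonneg (fun w hw => hnn r hr w hw)) hqA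
    rw [h3, zero_add] at h2
    linarith

end flow

section gadget

variable {ι : Type} [Fintype ι] [DecidableEq ι] (S : Sys ι) (P : Params) (v0 : ι)

theorem gadget_symm (p q : Vtx ι) : (gadget S P v0).m p q = (gadget S P v0).m q p :=
  ofEdges_symm _ _ _ _ p q

theorem le_mult (e : ι × Fin 5) : wtE P v0 e ≤ (gadget S P v0).m (tailE S e) (headE S e) := by
  unfold gadget ofEdges
  simp only
  have h := Finset.single_le_sum (f := fun e' : ι × Fin 5 => wtE P v0 e' *
    ((if tailE S e' = tailE S e ∧ headE S e' = headE S e then 1 else 0) +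
    (if headE S e' = tailE S e ∧ tailE S e' = headE S e then 1 else 0)))
    (fun _ _ => Nat.zero_le _) (Finset.mem_univ e)
  refine le_trans ?_ h
  simp only [and_self, if_true]
  exact Nat.le_mul_of_pos_right _ (by omega)

theorem gadget_eulerian (hW : 0 < P.W) (hH : 0 < P.H) (hQ : 0 < P.Q) :
    (gadget S P v0).Eulerian := by
  constructor
  · have key : ∀ p : Vtx ι, Relation.ReflTransGen
        (fun a b => 0 < (gadget S P v0).m a b ∨ 0 < (gadget S P v0).m b a) p none := by
      have hs : ∀ v : ι, Relation.ReflTransGen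
          (fun a b => 0 < (gadget S P v0).m a b ∨ 0 < (gadget S P v0).m b a)
          (some (v, 0)) none := by
        intro v
        apply Relation.ReflTransGen.single
        left
        have h := le_mult S P v0 (v, 4)
        simp only [tailE, headE, wtE] at h
        refine lt_of_lt_of_le ?_ h
        split_ifs
        · exact hQ
        · exact one_pos
      have ha : ∀ v : ι, Relation.ReflTransGen
          (fun a b => 0 < (gadget S P v0).m a b ∨ 0 < (gadget S P v0).m b a)
          (some (v, 1)) none := by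
        intro v
        refine Relation.ReflTransGen.head ?_ (hs v)
        left
        have h := le_mult S P v0 (v, 0)
        simp only [tailE, headE, wtE] at h
        exact lt_of_lt_of_le hW h
      have hb : ∀ v : ι, Relation.ReflTransGen
          (fun a b => 0 < (gadget S P v0).m a b ∨ 0 < (gadget S P v0).m b a)
          (some (v, 2)) none := by
        intro v
        refine Relation.ReflTransGen.head ?_ (ha v)
        left
        have h := le_mult S P v0 (v, 1)
        simp only [tailE, headE, wtE] at h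
        exact lt_of_lt_of_le hH h
      intro p
      match p with
      | none => exact Relation.ReflTransGen.refl
      | some (v, 0) => exact hs v
      | some (v, 1) => exact ha v
      | some (v, 2) => exact hb v
    intro p q
    have h1 := key p
    have h2 := key q
    refine h1.trans ?_
    have hsym : Std.Symm (fun a b => 0 < (gadget S P v0).m a b ∨ 0 < (gadget S P v0).m b a) :=
      ⟨fun a b h => h.symm⟩
    exact (Relation.ReflTransGen.stdSymm (r := fun a b => 0 < (gadget S P v0).m a b ∨
      0 < (gadget S P v0).m b a)).symm _ _ h2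
  · intro p
    unfold MultiDigraph.outDeg MultiDigraph.inDeg
    exact Finset.sum_congr rfl (fun q _ => gadget_symm S P v0 p q)

/-- Numerical conditions on the parameters under which the gadget works. -/
structure Good (C Dl U L T : ℕ) : Prop where
  hc : ∀ v i, |S.c v i| ≤ C
  hU : P.R + 2 * Fintype.card ι * (P.R + 1) + Fintype.card ι * Dl ≤ U
  hQ : 2 * Fintype.card ι + 3 * Fintype.card ι * U + Fintype.card ι * Dl < P.Q
  hL : 2 * Fintype.card ι + (P.Q + Fintype.card ι) * U + Fintype.card ι * U +
    Fintype.card ι * (U + Dl) ≤ L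
  hH : 2 * C + 2 * (U + L) < P.H
  hT : Fintype.card ι * (3 * C + P.H) + (P.Q + Fintype.card ι) * P.R +
    2 * Fintype.card ι * Fintype.card ι * (P.R + 1) + 2 * Fintype.card ι ≤ T
  hW : T < P.W
  hD : T < (Dl + 1) * P.H

/-- A solution of the system whose value at `v0` is at least the threshold. -/
def IsSol (x : ι → ℤ) : Prop :=
  (P.θ : ℤ) ≤ x v0 ∧ ∀ v, match S.kind v with
    | Kind.max => x v ≤ (S.tgt v false).elim 0 x + S.c v false ∨
        x v ≤ (S.tgt v true).elim 0 x + S.c v true
    | Kind.min => x v ≤ (S.tgt v false).elim 0 x + S.c v false ∧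
        x v ≤ (S.tgt v true).elim 0 x + S.c v true
    | Kind.avg => 2 * x v ≤ (S.tgt v false).elim 0 x + (S.tgt v true).elim 0 x +
        S.c v false + S.c v true

variable {S P v0}

theorem sum_K (P : Params) (v0 : ι) :
    ∑ u : ι, (if u = v0 then (P.Q : ℤ) else 1) = P.Q + (Fintype.card ι - 1 : ℤ) := by
  have h := Finset.add_sum_erase Finset.univ (fun u : ι => (if u = v0 then (P.Q : ℤ) else 1))
    (Finset.mem_univ v0)
  rw [← h]
  simp only [if_true]
  congr 1
  rw [Finset.sum_congr rfl (g := fun _ => (1 : ℤ))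
    (fun u hu => by rw [if_neg (Finset.ne_of_mem_erase hu)])]
  simp only [Finset.sum_const, nsmul_eq_mul, mul_one]
  rw [Finset.card_erase_of_mem (Finset.mem_univ v0), Finset.card_univ]
  have : 0 < Fintype.card ι := Fintype.card_pos_iff.2 ⟨v0⟩
  push_cast [Nat.cast_sub this]
  ring

theorem sum_slack {C Dl U L T : ℕ} (hg : Good S P C Dl U L T) :
    ∑ r, max (slack S P v0 r) 0 ≤ T := by
  rw [Fintype.sum_option, Fintype.sum_prod_type]
  simp only [Fin.sum_univ_three]
  have hb : ∀ v : ι, max (slack S P v0 (some (v, 0))) 0 + max (slack S P v0 (some (v, 1))) 0 +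
      max (slack S P v0 (some (v, 2))) 0 ≤ (if v = v0 then (P.Q : ℤ) else 1) * P.R +
        2 * Fintype.card ι * (P.R + 1) + (3 * C + P.H) := by
    intro v
    have h0 : max (slack S P v0 (some (v, 0))) 0 = (if v = v0 then (P.Q : ℤ) else 1) * P.R +
        2 * Fintype.card ι * (P.R + 1) := by
      simp only [slack]
      apply max_eq_left
      split_ifs <;> positivity
    have c0 := abs_le.1 (hg.hc v false)
    have c1 := abs_le.1 (hg.hc v true)
    have hC : (0 : ℤ) ≤ C := by positivity
    have hH : (0 : ℤ) ≤ P.H := by positivity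
    have h1 : max (slack S P v0 (some (v, 1))) 0 + max (slack S P v0 (some (v, 2))) 0 ≤
        3 * C + P.H := by
      simp only [slack]
      cases hk : S.kind v with
      | max =>
        simp only [reduceCtorEq, if_false]
        have : max (S.c v false + (P.H : ℤ)) 0 ≤ C + P.H := max_le (by linarith) (by linarith)
        have : max (S.c v true) 0 ≤ (C : ℤ) := max_le (by linarith) (by linarith)
        linarith
      | min =>
        simp only [reduceCtorEq, if_false]
        have : max (S.c v false) 0 ≤ (C : ℤ) := max_le (by linarith) (by linarith)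
        have : max (S.c v true) 0 ≤ (C : ℤ) := max_le (by linarith) (by linarith)
        linarith
      | avg =>
        simp only [if_true]
        have : max (S.c v false + S.c v true) 0 ≤ (2 * C : ℤ) :=
          max_le (by linarith) (by linarith)
        have : max (0 : ℤ) 0 = 0 := max_self 0
        linarith
    rw [h0]
    linarith
  have h2 : ∑ v : ι, (max (slack S P v0 (some (v, 0))) 0 + max (slack S P v0 (some (v, 1))) 0 +
      max (slack S P v0 (some (v, 2))) 0) ≤ ∑ v : ι, ((if v = v0 then (P.Q : ℤ) else 1) * P.R +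
        2 * Fintype.card ι * (P.R + 1) + (3 * C + P.H)) :=
    Finset.sum_le_sum (fun v _ => hb v)
  have h3 : ∑ v : ι, ((if v = v0 then (P.Q : ℤ) else 1) * P.R +
        2 * Fintype.card ι * (P.R + 1) + (3 * C + P.H)) =
      (P.Q + (Fintype.card ι - 1 : ℤ)) * P.R + Fintype.card ι * (2 * Fintype.card ι * (P.R + 1)) +
        Fintype.card ι * (3 * C + P.H) := by
    rw [Finset.sum_add_distrib, Finset.sum_add_distrib, ← Finset.sum_mul, sum_K]
    simp only [Finset.sum_const, nsmul_eq_mul, Finset.card_univ]
  have h4 : max (slack S P v0 none) 0 ≤ 2 * Fintype.card ι := by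
    simp only [slack]
    apply max_le
    · have : (0 : ℤ) ≤ P.Q * P.θ := by positivity
      linarith
    · positivity
  have h5 : ((Fintype.card ι * (3 * C + P.H) + (P.Q + Fintype.card ι) * P.R +
    2 * Fintype.card ι * Fintype.card ι * (P.R + 1) + 2 * Fintype.card ι : ℕ) : ℤ) ≤ T := by
    exact_mod_cast hg.hT
  push_cast at h5
  have h6 : (0 : ℤ) ≤ P.R := by positivity
  rw [h3] at h2
  nlinarith

theorem deg_a (v : ι) : P.W + P.H ≤ (gadget S P v0).outDeg (some (v, 1)) := by
  unfold gadget
  rw [ofEdges_outDeg, Fintype.sum_prod_type]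
  refine le_trans ?_ (Finset.single_le_sum (fun _ _ => Nat.zero_le _) (Finset.mem_univ v))
  simp only [Fin.sum_univ_five, tailE, headE, wtE]
  simp
  omega

theorem deg_b (v : ι) : P.H ≤ (gadget S P v0).outDeg (some (v, 2)) := by
  unfold gadget
  rw [ofEdges_outDeg, Fintype.sum_prod_type]
  refine le_trans ?_ (Finset.single_le_sum (fun _ _ => Nat.zero_le _) (Finset.mem_univ v))
  simp only [Fin.sum_univ_five, tailE, headE, wtE]
  simp
  omega

theorem deg_s (v : ι) : P.W ≤ (gadget S P v0).outDeg (some (v, 0)) := by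
  unfold gadget
  rw [ofEdges_outDeg, Fintype.sum_prod_type]
  refine le_trans ?_ (Finset.single_le_sum (fun _ _ => Nat.zero_le _) (Finset.mem_univ v))
  simp only [Fin.sum_univ_five, tailE, headE, wtE]
  simp
  omega

theorem deg_g : P.Q ≤ (gadget S P v0).outDeg none := by
  unfold gadget
  rw [ofEdges_outDeg, Fintype.sum_prod_type]
  refine le_trans ?_ (Finset.single_le_sum (fun _ _ => Nat.zero_le _) (Finset.mem_univ v0))
  simp only [Fin.sum_univ_five, tailE, headE, wtE]
  simp

theorem slack_le {C Dl U L T : ℕ} (hg : Good S P C Dl U L T) (p : Vtx ι) :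
    slack S P v0 p ≤ ((gadget S P v0).outDeg p : ℤ) - 1 := by
  have hT := sum_slack (v0 := v0) hg
  have hs : ∀ p, slack S P v0 p ≤ T := by
    intro p
    calc slack S P v0 p ≤ max (slack S P v0 p) 0 := le_max_left _ _
      _ ≤ ∑ r, max (slack S P v0 r) 0 :=
        Finset.single_le_sum (f := fun r => max (slack S P v0 r) 0)
          (fun _ _ => le_max_right _ _) (Finset.mem_univ p)
      _ ≤ T := hT
  have hW : (T : ℤ) < P.W := by exact_mod_cast hg.hW
  have hH : ((2 * C + 2 * (U + L) : ℕ) : ℤ) < P.H := by exact_mod_cast hg.hH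
  push_cast at hH
  match p with
  | none =>
    have h1 : ((P.Q : ℕ) : ℤ) ≤ (gadget S P v0).outDeg none := by
      exact_mod_cast deg_g (S := S) (P := P) (v0 := v0)
    have h2 : ((2 * Fintype.card ι + 3 * Fintype.card ι * U + Fintype.card ι * Dl : ℕ) : ℤ) < P.Q :=
      by exact_mod_cast hg.hQ
    push_cast at h2
    simp only [slack]
    have h3 : (0 : ℤ) ≤ P.Q * P.θ := by positivity
    have h4 : (0 : ℤ) ≤ 3 * Fintype.card ι * U + Fintype.card ι * Dl := by positivity
    linarith
  | some (v, 0) =>
    have h1 : ((P.W : ℕ) : ℤ) ≤ (gadget S P v0).outDeg (some (v, 0)) := by exact_mod_cast deg_s v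
    have h2 := hs (some (v, 0))
    linarith
  | some (v, 1) =>
    have h1 : ((P.W + P.H : ℕ) : ℤ) ≤ (gadget S P v0).outDeg (some (v, 1)) := by
      exact_mod_cast deg_a v
    push_cast at h1
    have h2 := hs (some (v, 1))
    have : (0 : ℤ) ≤ P.H := by positivity
    linarith
  | some (v, 2) =>
    have h1 : ((P.H : ℕ) : ℤ) ≤ (gadget S P v0).outDeg (some (v, 2)) := by exact_mod_cast deg_b v
    have c1 := abs_le.1 (hg.hc v true)
    have h3 : (0 : ℤ) ≤ C := by positivity
    have h4 : (0 : ℤ) ≤ 2 * (U + L) := by positivity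
    simp only [slack]
    split_ifs <;> linarith

theorem slack_ge {C Dl U L T : ℕ} (hg : Good S P C Dl U L T) (p : Vtx ι) :
    -((P.Q * P.θ : ℕ) : ℤ) - 2 * C ≤ slack S P v0 p := by
  have hQ : (0 : ℤ) ≤ ((P.Q * P.θ : ℕ) : ℤ) := by positivity
  have hC : (0 : ℤ) ≤ (C : ℤ) := by positivity
  match p with
  | none =>
    simp only [slack]
    push_cast
    have : (0 : ℤ) ≤ 2 * (Fintype.card ι : ℤ) := by positivity
    linarith
  | some (v, 0) =>
    have : (0 : ℤ) ≤ slack S P v0 (some (v, 0)) := by
      simp only [slack]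
      split_ifs <;> positivity
    linarith
  | some (v, 1) =>
    simp only [slack]
    have c0 := abs_le.1 (hg.hc v false)
    have c1 := abs_le.1 (hg.hc v true)
    have hH : (0 : ℤ) ≤ P.H := by positivity
    cases S.kind v <;> simp only <;> linarith
  | some (v, 2) =>
    simp only [slack]
    have c1 := abs_le.1 (hg.hc v true)
    split_ifs <;> linarith

theorem chips_cast {C Dl U L T : ℕ} (hg : Good S P C Dl U L T) (p : Vtx ι) :
    ((chips S P v0 p : ℕ) : ℤ) = ((gadget S P v0).outDeg p : ℤ) - 1 - slack S P v0 p := by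
  unfold chips
  have := slack_le (v0 := v0) hg p
  rw [Int.toNat_of_nonneg]
  linarith

theorem terminates_gadget_iff {C Dl U L T : ℕ} (hg : Good S P C Dl U L T)
    (hE : ∀ p, (gadget S P v0).outDeg p = (gadget S P v0).inDeg p) :
    (gadget S P v0).Terminates (chips S P v0) ↔
      ∃ z : Vtx ι → ℤ, ∀ p, (gadget S P v0).lap z p ≤ slack S P v0 p := by
  rw [MultiDigraph.terminates_iff _ hE]
  constructor
  · rintro ⟨z, hz⟩
    refine ⟨-z, fun p => ?_⟩
    have h1 := hz p
    rw [chips_cast hg] at h1
    rw [MultiDigraph.lap_neg]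
    linarith
  · rintro ⟨z, hz⟩
    refine ⟨-z, fun p => ?_⟩
    have h1 := hz p
    rw [chips_cast hg, MultiDigraph.lap_neg]
    linarith

end gadget

end Pool.Agent.Work.MP_85af13_lc
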