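import Pool.Agent.Work.MP_85af13_lc.Lang
import Pool.Agent.Work.PolyTime.NPClose
import Pool.Agent.Work.MP_62a643_lc.TimeA
import Pool.Agent.Work.MP_62a643_lc.Values

/-!
Binary arithmetic on instances, in polynomial time.
-/

set_option autoImplicit false
set_option linter.unusedSimpArgs false

namespace Pool.Agent.Work.MP_85af13_lc

open Pool.Agent.Work.PolyTime
open Pool.Agent.Work.MP_63b90e_lc (addB shiftB)
open Pool.Agent.Work.MP_62a643_lc (leB)

theorem binVal_eq : binVal = valL := by
  funext l
  induction l with
  | nil => rfl
  | cons b l ih => simp only [binVal, valL, ih]; cases b <;> simp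

theorem binVal_addB (a b : List Bool) : binVal (addB a b) = binVal a + binVal b := by
  rw [binVal_eq]; exact Pool.Agent.Work.MP_63b90e_lc.addB_val a b

theorem binVal_shiftB (j : ℕ) (a : List Bool) : binVal (shiftB j a) = 2 ^ j * binVal a := by
  rw [binVal_eq]; exact Pool.Agent.Work.MP_63b90e_lc.shiftB_val j a

theorem leB_iff' (a b : List Bool) : leB a b = true ↔ binVal a ≤ binVal b := by
  have h : binVal = Pool.Agent.Work.MP_62a643_lc.binVal := by
    funext l
    induction l with
    | nil => rfl
    | cons b l ih => simp only [binVal, Pool.Agent.Work.MP_62a643_lc.binVal, ih]; omega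
  rw [h]
  exact Pool.Agent.Work.MP_62a643_lc.leB_iff a b

/-- Sum of a list of binary numbers. -/
def sumL (l : List (List Bool)) : List Bool := l.foldl addB []

theorem binVal_sumL (l : List (List Bool)) : binVal (sumL l) = (l.map binVal).sum := by
  have key : ∀ (l : List (List Bool)) (s : List Bool), binVal (l.foldl addB s) =
      binVal s + (l.map binVal).sum := by
    intro l
    induction l with
    | nil => intro s; simp
    | cons a l ih => intro s; rw [List.foldl_cons, ih, binVal_addB, List.map_cons, List.sum_cons]; ring
  rw [sumL, key]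
  simp [binVal]

/-- Product of binary numbers. -/
def mulB (a b : List Bool) : List Bool :=
  sumL (a.zipIdx.map fun p => bif p.1 then shiftB p.2 b else [])

theorem binVal_mulB (a b : List Bool) : binVal (mulB a b) = binVal a * binVal b := by
  rw [mulB, binVal_sumL, List.map_map]
  have key : ∀ (a : List Bool) (k : ℕ), ((a.zipIdx k).map
      (binVal ∘ fun p : Bool × ℕ => bif p.1 then shiftB p.2 b else [])).sum =
      2 ^ k * (binVal a * binVal b) := by
    intro a
    induction a with
    | nil => intro k; simp [binVal]
    | cons c a ih =>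
      intro k
      rw [List.zipIdx_cons, List.map_cons, List.sum_cons, ih]
      cases c
      · simp [binVal, pow_succ]; ring
      · simp [binVal, binVal_shiftB, pow_succ]; ring
  rw [key]
  simp

section

variable {α β γ : Type} [Code α] [Code β] [Code γ]

@[fun_prop]
theorem PTime.addB' {a b : α → List Bool} (ha : PTime a) (hb : PTime b) :
    PTime (fun x => addB (a x) (b x)) := Pool.Agent.Work.MP_63b90e_lc.PTime.addB ha hb

@[fun_prop]
theorem PTime.shiftB' {j : α → ℕ} {a : α → List Bool} (hj : PTime j) (ha : PTime a) :
    PTime (fun x => shiftB (j x) (a x)) := Pool.Agent.Work.MP_63b90e_lc.PTime.shiftB hj ha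

@[fun_prop]
theorem PTime.leB' {a b : α → List Bool} (ha : PTime a) (hb : PTime b) :
    PTime (fun x => leB (a x) (b x)) := Pool.Agent.Work.MP_62a643_lc.ptime_leB ha hb

@[fun_prop]
theorem PTime.sumL {l : α → List (List Bool)} (hl : PTime l) :
    PTime (fun x => MP_85af13_lc.sumL (l x)) := Pool.Agent.Work.MP_62a643_lc.ptime_sumB hl

@[fun_prop]
theorem PTime.mulB {a b : α → List Bool} (ha : PTime a) (hb : PTime b) :
    PTime (fun x => MP_85af13_lc.mulB (a x) (b x)) := by
  unfold MP_85af13_lc.mulB
  refine PTime.sumL (PTime.map (f := fun x (p : Bool × ℕ) => bif p.1 then shiftB p.2 (b x) else [])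
    (PTime.zipIdx ha) ?_)
  exact PTime.cond (by fun_prop) (PTime.shiftB' (by fun_prop) (hb.comp PTime.fst)) (by fun_prop)

end

end Pool.Agent.Work.MP_85af13_lc
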