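import Pool.Agent.Work.MP_85af13_lc.Main
import Pool.Agent.Work.MP_85af13_lc.Chain

set_option autoImplicit false
set_option linter.unusedSectionVars false
set_option linter.unusedSimpArgs false

namespace Pool.Agent.Work.MP_85af13_lc

namespace SSG

variable {n : ℕ} (G : SSG n)

theorem chainStopping (hG : G.Stopping) (σ τ : Fin n → Bool) : ChainStopping (G.next σ τ) :=
  hG σ τ

theorem reach_inr (σ τ : Fin n → Bool) (k : ℕ) (b : Bool) :
    G.reach σ τ k (Sum.inr b) = sinkVal b := by
  cases k <;> rfl

theorem reach_succ (σ τ : Fin n → Bool) (k : ℕ) (v : Fin n) :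
    G.reach σ τ (k + 1) (Sum.inl v) =
      (G.reach σ τ k (G.next σ τ v false) + G.reach σ τ k (G.next σ τ v true)) / 2 := rfl

theorem reach_nonneg (σ τ : Fin n → Bool) : ∀ (k : ℕ) (p : Fin n ⊕ Bool), 0 ≤ G.reach σ τ k p := by
  intro k
  induction k with
  | zero =>
    intro p
    rcases p with w | b
    · simp [reach]
    · rw [reach_inr]; cases b <;> simp [sinkVal]
  | succ k ih =>
    intro p
    rcases p with w | b
    · rw [reach_succ]; linarith [ih (G.next σ τ w false), ih (G.next σ τ w true)]
    · rw [reach_inr]; cases b <;> simp [sinkVal]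

theorem reach_le_one (σ τ : Fin n → Bool) : ∀ (k : ℕ) (p : Fin n ⊕ Bool), G.reach σ τ k p ≤ 1 := by
  intro k
  induction k with
  | zero =>
    intro p
    rcases p with w | b
    · simp [reach]
    · rw [reach_inr]; cases b <;> simp [sinkVal]
  | succ k ih =>
    intro p
    rcases p with w | b
    · rw [reach_succ]; linarith [ih (G.next σ τ w false), ih (G.next σ τ w true)]
    · rw [reach_inr]; cases b <;> simp [sinkVal]

theorem reach_mono_succ (σ τ : Fin n → Bool) : ∀ (k : ℕ) (p : Fin n ⊕ Bool),
    G.reach σ τ k p ≤ G.reach σ τ (k + 1) p := by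
  intro k
  induction k with
  | zero =>
    intro p
    rcases p with w | b
    · exact G.reach_nonneg σ τ 1 _
    · rw [reach_inr, reach_inr]
  | succ k ih =>
    intro p
    rcases p with w | b
    · rw [reach_succ, reach_succ]
      linarith [ih (G.next σ τ w false), ih (G.next σ τ w true)]
    · rw [reach_inr, reach_inr]

theorem reach_tendsto (σ τ : Fin n → Bool) (p : Fin n ⊕ Bool) :
    Filter.Tendsto (fun k => G.reach σ τ k p) Filter.atTop
      (nhds (ext (G.winProb σ τ) sinkVal p)) := by
  rcases p with w | b
  · exact tendsto_atTop_ciSup (monotone_nat_of_le_succ (fun k => G.reach_mono_succ σ τ k _))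
      ⟨1, by rintro _ ⟨k, rfl⟩; exact G.reach_le_one σ τ k _⟩
  · simp only [reach_inr, ext]
    exact tendsto_const_nhds

theorem winProb_eq (σ τ : Fin n → Bool) (v : Fin n) :
    G.winProb σ τ v = (ext (G.winProb σ τ) sinkVal (G.next σ τ v false) +
      ext (G.winProb σ τ) sinkVal (G.next σ τ v true)) / 2 := by
  have h1 := (G.reach_tendsto σ τ (Sum.inl v)).comp (Filter.tendsto_add_atTop_nat 1)
  have h2 := ((G.reach_tendsto σ τ (G.next σ τ v false)).add
    (G.reach_tendsto σ τ (G.next σ τ v true))).div_const 2
  refine tendsto_nhds_unique h1 (h2.congr (fun k => ?_))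
  simp only [Function.comp]
  rw [reach_succ]

/-- Value iteration for the min player against `σ`. -/
noncomputable def iter (σ : Fin n → Bool) : ℕ → Fin n ⊕ Bool → ℝ
  | _, Sum.inr b => if b then 1 else 0
  | 0, Sum.inl _ => 0
  | k + 1, Sum.inl v => match G.kind v with
    | Kind.max => iter σ k (G.succ v (σ v))
    | Kind.min => min (iter σ k (G.succ v false)) (iter σ k (G.succ v true))
    | Kind.avg => (iter σ k (G.succ v false) + iter σ k (G.succ v true)) / 2

theorem iter_inr (σ : Fin n → Bool) (k : ℕ) (b : Bool) :
    G.iter σ k (Sum.inr b) = sinkVal b := by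
  cases k <;> rfl

theorem iter_bounds (σ : Fin n → Bool) : ∀ (k : ℕ) (p : Fin n ⊕ Bool),
    0 ≤ G.iter σ k p ∧ G.iter σ k p ≤ 1 := by
  intro k
  induction k with
  | zero =>
    intro p
    rcases p with w | b
    · simp [iter]
    · rw [iter_inr]; cases b <;> simp [sinkVal]
  | succ k ih =>
    intro p
    rcases p with w | b
    · simp only [iter]
      cases G.kind w with
      | max => exact ih _
      | min => exact ⟨le_min (ih _).1 (ih _).1, le_trans (min_le_left _ _) (ih _).2⟩
      | avg =>
        constructor
        · linarith [(ih (G.succ w false)).1, (ih (G.succ w true)).1]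
        · linarith [(ih (G.succ w false)).2, (ih (G.succ w true)).2]
    · rw [iter_inr]; cases b <;> simp [sinkVal]

theorem iter_mono_succ (σ : Fin n → Bool) : ∀ (k : ℕ) (p : Fin n ⊕ Bool),
    G.iter σ k p ≤ G.iter σ (k + 1) p := by
  intro k
  induction k with
  | zero =>
    intro p
    rcases p with w | b
    · exact (G.iter_bounds σ 1 _).1
    · rw [iter_inr, iter_inr]
  | succ k ih =>
    intro p
    rcases p with w | b
    · rw [iter, iter]
      cases G.kind w with
      | max => exact ih _
      | min => exact min_le_min (ih _) (ih _)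
      | avg => linarith [ih (G.succ w false), ih (G.succ w true)]
    · rw [iter_inr, iter_inr]

/-- The limit of value iteration. -/
noncomputable def lim (σ : Fin n → Bool) (v : Fin n) : ℝ := ⨆ k, G.iter σ k (Sum.inl v)

theorem iter_tendsto (σ : Fin n → Bool) (p : Fin n ⊕ Bool) :
    Filter.Tendsto (fun k => G.iter σ k p) Filter.atTop (nhds (ext (G.lim σ) sinkVal p)) := by
  rcases p with w | b
  · exact tendsto_atTop_ciSup (monotone_nat_of_le_succ (fun k => G.iter_mono_succ σ k _))
      ⟨1, by rintro _ ⟨k, rfl⟩; exact (G.iter_bounds σ k _).2⟩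
  · simp only [iter_inr, ext]
    exact tendsto_const_nhds

theorem lim_bounds (σ : Fin n → Bool) (v : Fin n) : 0 ≤ G.lim σ v ∧ G.lim σ v ≤ 1 := by
  have h := G.iter_tendsto σ (Sum.inl v)
  exact ⟨ge_of_tendsto' h (fun k => (G.iter_bounds σ k _).1),
    le_of_tendsto' h (fun k => (G.iter_bounds σ k _).2)⟩

theorem lim_max (σ : Fin n → Bool) (v : Fin n) (hk : G.kind v = Kind.max) :
    G.lim σ v = ext (G.lim σ) sinkVal (G.succ v (σ v)) := by
  have h1 := (G.iter_tendsto σ (Sum.inl v)).comp (Filter.tendsto_add_atTop_nat 1)
  have h2 := G.iter_tendsto σ (G.succ v (σ v))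
  refine tendsto_nhds_unique h1 (h2.congr (fun k => ?_))
  simp only [Function.comp, iter, hk]

theorem lim_min (σ : Fin n → Bool) (v : Fin n) (hk : G.kind v = Kind.min) :
    G.lim σ v = min (ext (G.lim σ) sinkVal (G.succ v false))
      (ext (G.lim σ) sinkVal (G.succ v true)) := by
  have h1 := (G.iter_tendsto σ (Sum.inl v)).comp (Filter.tendsto_add_atTop_nat 1)
  have h2 := (G.iter_tendsto σ (G.succ v false)).min (G.iter_tendsto σ (G.succ v true))
  refine tendsto_nhds_unique h1 (h2.congr (fun k => ?_))
  simp only [Function.comp, iter, hk]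

theorem lim_avg (σ : Fin n → Bool) (v : Fin n) (hk : G.kind v = Kind.avg) :
    G.lim σ v = (ext (G.lim σ) sinkVal (G.succ v false) +
      ext (G.lim σ) sinkVal (G.succ v true)) / 2 := by
  have h1 := (G.iter_tendsto σ (Sum.inl v)).comp (Filter.tendsto_add_atTop_nat 1)
  have h2 := ((G.iter_tendsto σ (G.succ v false)).add
    (G.iter_tendsto σ (G.succ v true))).div_const 2
  refine tendsto_nhds_unique h1 (h2.congr (fun k => ?_))
  simp only [Function.comp, iter, hk]

/-- In a stopping game, a strategy that guarantees `1/2` makes the limit at least `1/2`. -/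
theorem half_le_lim (hG : G.Stopping) (σ : Fin n → Bool) (v0 : Fin n)
    (h : ∀ τ : Fin n → Bool, 1 / 2 ≤ G.winProb σ τ v0) : 1 / 2 ≤ G.lim σ v0 := by
  classical
  set q := G.lim σ with hq
  let τ : Fin n → Bool := fun v =>
    if ext q sinkVal (G.succ v false) ≤ ext q sinkVal (G.succ v true) then false else true
  have hq_eq : ∀ v, q v = (ext q sinkVal (G.next σ τ v false) +
      ext q sinkVal (G.next σ τ v true)) / 2 := by
    intro v
    simp only [next]
    cases hk : G.kind v with
    | max =>
      simp only
      rw [hq, G.lim_max σ v hk]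
      ring
    | min =>
      simp only
      have h1 := G.lim_min σ v hk
      rw [← hq] at h1
      by_cases hle : ext q sinkVal (G.succ v false) ≤ ext q sinkVal (G.succ v true)
      · have : τ v = false := by simp only [τ]; rw [if_pos hle]
        rw [this, h1, min_eq_left hle]
        ring
      · have : τ v = true := by simp only [τ]; rw [if_neg hle]
        rw [this, h1, min_eq_right (not_le.1 hle).le]
        ring
    | avg =>
      simp only
      exact G.lim_avg σ v hk
  have hsub : ∀ p, ext (fun v => G.winProb σ τ v - q v) (fun _ => 0) p =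
      ext (G.winProb σ τ) sinkVal p - ext q sinkVal p := by
    intro p; rcases p with w | b <;> simp [ext]
  have h1 := max_principle (G.chainStopping hG σ τ) (fun v => G.winProb σ τ v - q v)
    (fun _ => 0) 0 le_rfl (fun _ => le_rfl) (fun v => by
      rw [hsub, hsub, add_zero, G.winProb_eq σ τ v, hq_eq v]
      linarith) v0
  have h2 := h τ
  simp only [mul_zero, zero_mul] at h1
  linarith

end SSG

end Pool.Agent.Work.MP_85af13_lc
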