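import Pool.Agent.Work.MP_85af13_lc.ChipFiring

set_option autoImplicit false
set_option linter.unusedSectionVars false
set_option linter.unusedSimpArgs false

namespace Pool.Agent.Work.MP_85af13_lc

/-- The undirected multigraph with edge list `e ↦ {tail e, head e}`, where the edge `e` is taken
with multiplicity `wt e`. -/
def ofEdges {V E : Type} [DecidableEq V] [Fintype E] (tail head : E → V) (wt : E → ℕ)
    (h : ∀ e, tail e ≠ head e) : MultiDigraph V where
  m p q := ∑ e : E, wt e * ((if tail e = p ∧ head e = q then 1 else 0) +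
    (if head e = p ∧ tail e = q then 1 else 0))
  loopless v := by
    apply Finset.sum_eq_zero
    intro e _
    have h1 : ¬ (tail e = v ∧ head e = v) := fun hh => h e (hh.1.trans hh.2.symm)
    have h2 : ¬ (head e = v ∧ tail e = v) := fun hh => h e (hh.2.trans hh.1.symm)
    simp [h1, h2]

section ofEdges

variable {V E : Type} [Fintype V] [DecidableEq V] [Fintype E] (tail head : E → V) (wt : E → ℕ)
  (h : ∀ e, tail e ≠ head e)

theorem ofEdges_symm (p q : V) : (ofEdges tail head wt h).m p q = (ofEdges tail head wt h).m q p := by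
  unfold ofEdges
  apply Finset.sum_congr rfl
  intro e _
  rw [add_comm]
  congr 2
  · simp only [and_comm]
  · simp only [and_comm]

theorem ofEdges_outDeg (p : V) : (ofEdges tail head wt h).outDeg p =
    ∑ e : E, wt e * ((if tail e = p then 1 else 0) + (if head e = p then 1 else 0)) := by
  unfold MultiDigraph.outDeg ofEdges
  simp only
  rw [Finset.sum_comm]
  apply Finset.sum_congr rfl
  intro e _
  rw [← Finset.mul_sum, Finset.sum_add_distrib]
  congr 2
  · by_cases h1 : tail e = p
    · simp [h1]
    · simp [h1]
  · by_cases h1 : head e = p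
    · simp [h1]
    · simp [h1]

theorem ofEdges_lap (z : V → ℤ) (p : V) : (ofEdges tail head wt h).lap z p =
    ∑ e : E, (wt e : ℤ) * ((if tail e = p then z p - z (head e) else 0) +
      (if head e = p then z p - z (tail e) else 0)) := by
  unfold MultiDigraph.lap
  rw [ofEdges_outDeg]
  have h1 : ∑ u, ((ofEdges tail head wt h).m u p : ℤ) * z u =
      ∑ e : E, (wt e : ℤ) * ((if tail e = p then z (head e) else 0) +
      (if head e = p then z (tail e) else 0)) := by
    unfold ofEdges
    simp only
    push_cast
    simp only [Finset.sum_mul]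
    rw [Finset.sum_comm]
    apply Finset.sum_congr rfl
    intro e _
    simp only [mul_assoc]
    rw [← Finset.mul_sum]
    congr 1
    simp only [add_mul, Finset.sum_add_distrib]
    rw [add_comm]
    congr 1
    · by_cases h1 : tail e = p
      · simp [h1, ite_and]
      · simp [h1]
    · by_cases h1 : head e = p
      · simp [h1, ite_and]
      · simp [h1]
  rw [h1]
  push_cast
  rw [Finset.sum_mul, ← Finset.sum_sub_distrib]
  apply Finset.sum_congr rfl
  intro e _
  by_cases h1 : tail e = p <;> by_cases h2 : head e = p <;> simp [h1, h2] <;> ring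

end ofEdges

/-- A min-max-average system: node `v` has a kind, two targets (`none` is the ground, whose value
is `0`) and two integer constants. -/
structure Sys (ι : Type) where
  /-- kind of a node -/
  kind : ι → Kind
  /-- the two targets of a node -/
  tgt : ι → Bool → Option ι
  /-- the two constants of a node -/
  c : ι → Bool → ℤ

/-- Numerical parameters of the gadget. -/
structure Params where
  /-- weight of the ties `s_v a_v` -/
  W : ℕ
  /-- weight of the switches `a_v b_v` -/
  H : ℕ
  /-- weight of the edge from `s_{v0}` to the ground -/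
  Q : ℕ
  /-- upper bound for the values -/
  R : ℕ
  /-- threshold for the value of `v0` -/
  θ : ℕ

section gadget

variable {ι : Type} [Fintype ι] [DecidableEq ι] (S : Sys ι) (P : Params) (v0 : ι)

/-- Vertices of the gadget graph: the ground `none`, and `s_v = (v,0)`, `a_v = (v,1)`,
`b_v = (v,2)` for each node `v`. -/
abbrev Vtx (ι : Type) : Type := Option (ι × Fin 3)

/-- The vertex carrying the value of a target. -/
def port : Option ι → Vtx ι
  | none => none
  | some u => some (u, 0)

/-- One endpoint of the edge `(v, i)`. -/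
def tailE : ι × Fin 5 → Vtx ι
  | (v, 0) => some (v, 1)
  | (v, 1) => some (v, 2)
  | (v, 2) => some (v, 1)
  | (v, 3) => if S.kind v = Kind.avg then some (v, 1) else some (v, 2)
  | (v, 4) => some (v, 0)

/-- The other endpoint of the edge `(v, i)`. -/
def headE : ι × Fin 5 → Vtx ι
  | (v, 0) => some (v, 0)
  | (v, 1) => some (v, 1)
  | (v, 2) => port (S.tgt v false)
  | (v, 3) => port (S.tgt v true)
  | (_, 4) => none

/-- Multiplicity of the edge `(v, i)`. -/
def wtE : ι × Fin 5 → ℕ
  | (_, 0) => P.W
  | (_, 1) => P.H
  | (_, 2) => 1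
  | (_, 3) => 1
  | (v, 4) => if v = v0 then P.Q else 1

theorem tail_ne_head (e : ι × Fin 5) : tailE S e ≠ headE S e := by
  obtain ⟨v, i⟩ := e
  fin_cases i
  · simp [tailE, headE]
  · simp [tailE, headE]
  · cases h : S.tgt v false <;> simp [tailE, headE, port, h]
  · cases h : S.tgt v true <;> by_cases hk : S.kind v = Kind.avg <;>
      simp [tailE, headE, port, h, hk]
  · simp [tailE, headE]

/-- The gadget graph, an undirected multigraph. -/
def gadget : MultiDigraph (Vtx ι) := ofEdges (tailE S) (headE S) (wtE P v0) (tail_ne_head S)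

/-- The allowances: a configuration `x` is stable iff `x p ≤ deg p - 1`, and the gadget starts
with `x p = deg p - 1 - slack p`. -/
def slack : Vtx ι → ℤ
  | none => 2 * Fintype.card ι - P.Q * P.θ
  | some (v, 0) => (if v = v0 then (P.Q : ℤ) else 1) * P.R + 2 * Fintype.card ι * (P.R + 1)
  | some (v, 1) => match S.kind v with
    | Kind.max => S.c v false + P.H
    | Kind.min => S.c v false
    | Kind.avg => S.c v false + S.c v true
  | some (v, 2) => if S.kind v = Kind.avg then 0 else S.c v true

/-- The initial chip configuration of the gadget. -/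
def chips : Vtx ι → ℕ := fun p => (((gadget S P v0).outDeg p : ℤ) - 1 - slack S P v0 p).toNat

theorem port_ne (t : Option ι) (v : ι) (i : Fin 3) (hi : i ≠ 0) : port t ≠ some (v, i) := by
  cases t with
  | none => simp [port]
  | some u => simp [port]; intro _ h; exact hi h.symm

theorem row_b (z : Vtx ι → ℤ) (v : ι) : (gadget S P v0).lap z (some (v, 2)) =
    P.H * (z (some (v, 2)) - z (some (v, 1))) +
      (if S.kind v = Kind.avg then 0 else z (some (v, 2)) - z (port (S.tgt v true))) := by
  unfold gadget
  rw [ofEdges_lap, Fintype.sum_prod_type]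
  simp only [Fin.sum_univ_five, tailE, headE, wtE]
  rw [Finset.sum_eq_single v]
  · have h1 := port_ne (S.tgt v false) v 2 (by decide)
    have h2 := port_ne (S.tgt v true) v 2 (by decide)
    by_cases hk : S.kind v = Kind.avg
    · simp [hk, h1, h2]
    · simp [hk, h1, h2]
  · intro u _ hu
    have h1 := port_ne (S.tgt u false) v 2 (by decide)
    have h2 := port_ne (S.tgt u true) v 2 (by decide)
    by_cases hk : S.kind u = Kind.avg
    · simp [hk, h1, h2, hu]
    · simp [hk, h1, h2, hu]
  · simp

theorem row_a (z : Vtx ι → ℤ) (v : ι) : (gadget S P v0).lap z (some (v, 1)) =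
    P.W * (z (some (v, 1)) - z (some (v, 0))) + P.H * (z (some (v, 1)) - z (some (v, 2))) +
      (z (some (v, 1)) - z (port (S.tgt v false))) +
      (if S.kind v = Kind.avg then z (some (v, 1)) - z (port (S.tgt v true)) else 0) := by
  unfold gadget
  rw [ofEdges_lap, Fintype.sum_prod_type]
  simp only [Fin.sum_univ_five, tailE, headE, wtE]
  rw [Finset.sum_eq_single v]
  · have h1 := port_ne (S.tgt v false) v 1 (by decide)
    have h2 := port_ne (S.tgt v true) v 1 (by decide)
    by_cases hk : S.kind v = Kind.avg
    · simp [hk, h1, h2]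
    · simp [hk, h1, h2]
  · intro u _ hu
    have h1 := port_ne (S.tgt u false) v 1 (by decide)
    have h2 := port_ne (S.tgt u true) v 1 (by decide)
    by_cases hk : S.kind u = Kind.avg
    · simp [hk, h1, h2, hu]
    · simp [hk, h1, h2, hu]
  · simp

theorem row_s (z : Vtx ι → ℤ) (v : ι) : (gadget S P v0).lap z (some (v, 0)) =
    P.W * (z (some (v, 0)) - z (some (v, 1))) +
      (if v = v0 then (P.Q : ℤ) else 1) * (z (some (v, 0)) - z none) +
      ∑ u, (if S.tgt u false = some v then z (some (v, 0)) - z (some (u, 1)) else 0) +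
      ∑ u, (if S.tgt u true = some v then z (some (v, 0)) - z (tailE S (u, 3)) else 0) := by
  unfold gadget
  rw [ofEdges_lap, Fintype.sum_prod_type]
  simp only [Fin.sum_univ_five, Finset.sum_add_distrib]
  have e0 : ∑ u : ι, ((wtE P v0 (u, 0) : ℕ) : ℤ) *
      ((if tailE S (u, 0) = some (v, 0) then z (some (v, 0)) - z (headE S (u, 0)) else 0) +
      (if headE S (u, 0) = some (v, 0) then z (some (v, 0)) - z (tailE S (u, 0)) else 0)) =
      P.W * (z (some (v, 0)) - z (some (v, 1))) := by
    rw [Finset.sum_eq_single v]
    · simp [tailE, headE, wtE]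
    · intro u _ hu
      simp [tailE, headE, wtE, hu]
    · simp
  have e1 : ∑ u : ι, ((wtE P v0 (u, 1) : ℕ) : ℤ) *
      ((if tailE S (u, 1) = some (v, 0) then z (some (v, 0)) - z (headE S (u, 1)) else 0) +
      (if headE S (u, 1) = some (v, 0) then z (some (v, 0)) - z (tailE S (u, 1)) else 0)) =
      0 := by
    apply Finset.sum_eq_zero
    intro u _
    simp [tailE, headE, wtE]
  have e2 : ∑ u : ι, ((wtE P v0 (u, 2) : ℕ) : ℤ) *
      ((if tailE S (u, 2) = some (v, 0) then z (some (v, 0)) - z (headE S (u, 2)) else 0) +
      (if headE S (u, 2) = some (v, 0) then z (some (v, 0)) - z (tailE S (u, 2)) else 0)) =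
      ∑ u, (if S.tgt u false = some v then z (some (v, 0)) - z (some (u, 1)) else 0) := by
    apply Finset.sum_congr rfl
    intro u _
    cases h : S.tgt u false with
    | none => simp [tailE, headE, wtE, port, h]
    | some w => simp [tailE, headE, wtE, port, h]
  have e3 : ∑ u : ι, ((wtE P v0 (u, 3) : ℕ) : ℤ) *
      ((if tailE S (u, 3) = some (v, 0) then z (some (v, 0)) - z (headE S (u, 3)) else 0) +
      (if headE S (u, 3) = some (v, 0) then z (some (v, 0)) - z (tailE S (u, 3)) else 0)) =
      ∑ u, (if S.tgt u true = some v then z (some (v, 0)) - z (tailE S (u, 3)) else 0) := by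
    apply Finset.sum_congr rfl
    intro u _
    by_cases hk : S.kind u = Kind.avg <;> cases h : S.tgt u true <;>
      simp [tailE, headE, wtE, port, h, hk]
  have e4 : ∑ u : ι, ((wtE P v0 (u, 4) : ℕ) : ℤ) *
      ((if tailE S (u, 4) = some (v, 0) then z (some (v, 0)) - z (headE S (u, 4)) else 0) +
      (if headE S (u, 4) = some (v, 0) then z (some (v, 0)) - z (tailE S (u, 4)) else 0)) =
      (if v = v0 then (P.Q : ℤ) else 1) * (z (some (v, 0)) - z none) := by
    rw [Finset.sum_eq_single v]
    · simp [tailE, headE, wtE]
    · intro u _ hu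
      simp [tailE, headE, wtE, hu]
    · simp
  rw [e0, e1, e2, e3, e4]
  ring

theorem row_g (z : Vtx ι → ℤ) : (gadget S P v0).lap z none =
      ∑ u, (if u = v0 then (P.Q : ℤ) else 1) * (z none - z (some (u, 0))) +
      ∑ u, (if S.tgt u false = none then z none - z (some (u, 1)) else 0) +
      ∑ u, (if S.tgt u true = none then z none - z (tailE S (u, 3)) else 0) := by
  unfold gadget
  rw [ofEdges_lap, Fintype.sum_prod_type]
  simp only [Fin.sum_univ_five, Finset.sum_add_distrib]
  have e0 : ∑ u : ι, ((wtE P v0 (u, 0) : ℕ) : ℤ) *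
      ((if tailE S (u, 0) = none then z none - z (headE S (u, 0)) else 0) +
      (if headE S (u, 0) = none then z none - z (tailE S (u, 0)) else 0)) = 0 := by
    apply Finset.sum_eq_zero
    intro u _
    simp [tailE, headE, wtE]
  have e1 : ∑ u : ι, ((wtE P v0 (u, 1) : ℕ) : ℤ) *
      ((if tailE S (u, 1) = none then z none - z (headE S (u, 1)) else 0) +
      (if headE S (u, 1) = none then z none - z (tailE S (u, 1)) else 0)) = 0 := by
    apply Finset.sum_eq_zero
    intro u _
    simp [tailE, headE, wtE]
  have e2 : ∑ u : ι, ((wtE P v0 (u, 2) : ℕ) : ℤ) *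
      ((if tailE S (u, 2) = none then z none - z (headE S (u, 2)) else 0) +
      (if headE S (u, 2) = none then z none - z (tailE S (u, 2)) else 0)) =
      ∑ u, (if S.tgt u false = none then z none - z (some (u, 1)) else 0) := by
    apply Finset.sum_congr rfl
    intro u _
    cases h : S.tgt u false with
    | none => simp [tailE, headE, wtE, port, h]
    | some w => simp [tailE, headE, wtE, port, h]
  have e3 : ∑ u : ι, ((wtE P v0 (u, 3) : ℕ) : ℤ) *
      ((if tailE S (u, 3) = none then z none - z (headE S (u, 3)) else 0) +
      (if headE S (u, 3) = none then z none - z (tailE S (u, 3)) else 0)) =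
      ∑ u, (if S.tgt u true = none then z none - z (tailE S (u, 3)) else 0) := by
    apply Finset.sum_congr rfl
    intro u _
    by_cases hk : S.kind u = Kind.avg <;> cases h : S.tgt u true <;>
      simp [tailE, headE, wtE, port, h, hk]
  have e4 : ∑ u : ι, ((wtE P v0 (u, 4) : ℕ) : ℤ) *
      ((if tailE S (u, 4) = none then z none - z (headE S (u, 4)) else 0) +
      (if headE S (u, 4) = none then z none - z (tailE S (u, 4)) else 0)) =
      ∑ u, (if u = v0 then (P.Q : ℤ) else 1) * (z none - z (some (u, 0))) := by
    apply Finset.sum_congr rfl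
    intro u _
    simp [tailE, headE, wtE]
  rw [e0, e1, e2, e3, e4]
  ring

end gadget

end Pool.Agent.Work.MP_85af13_lc
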