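import Pool.Agent.Work.MP_85af13_lc.Ops

/-!
Iterated growth of sets of vertices.
-/

set_option autoImplicit false
set_option linter.unusedSimpArgs false

namespace Pool.Agent.Work.MP_85af13_lc

open Pool.Agent.Work.PolyTime

/-- One round of growth. -/
def growStep (n : ℕ) (t : List ℕ → ℕ → Bool) (S : List ℕ) : List ℕ :=
  (List.range n).filter fun v => memB v S || t S v

/-- `k` rounds of growth. -/
def growN (n : ℕ) (t : List ℕ → ℕ → Bool) : ℕ → List ℕ
  | 0 => []
  | k + 1 => growStep n t (growN n t k)

theorem mem_growStep {n : ℕ} {t : List ℕ → ℕ → Bool} {S : List ℕ} {v : ℕ} :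
    v ∈ growStep n t S ↔ v < n ∧ (v ∈ S ∨ t S v = true) := by
  simp [growStep, memB_iff]

theorem growN_lt {n : ℕ} {t : List ℕ → ℕ → Bool} {k v : ℕ} (h : v ∈ growN n t k) : v < n := by
  cases k with
  | zero => simp [growN] at h
  | succ k => exact (mem_growStep.1 h).1

theorem growN_sub {n : ℕ} {t : List ℕ → ℕ → Bool} {k v : ℕ} (h : v ∈ growN n t k) :
    v ∈ growN n t (k + 1) := mem_growStep.2 ⟨growN_lt h, Or.inl h⟩

theorem growN_sublist (n : ℕ) (t : List ℕ → ℕ → Bool) (k : ℕ) :
    (growN n t k).Sublist (List.range n) := by
  cases k with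
  | zero => exact List.nil_sublist _
  | succ k => exact List.filter_sublist

theorem growN_nodup (n : ℕ) (t : List ℕ → ℕ → Bool) (k : ℕ) : (growN n t k).Nodup :=
  (growN_sublist n t k).nodup List.nodup_range

theorem growN_sublist_succ (n : ℕ) (t : List ℕ → ℕ → Bool) (k : ℕ) :
    (growN n t k).Sublist (growN n t (k + 1)) := by
  have h : growN n t k = (List.range n).filter fun v => memB v (growN n t k) := by
    apply List.Perm.eq_of_pairwise' (r := (· < ·))
    · exact List.Pairwise.sublist (growN_sublist n t k) List.pairwise_lt_range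
    · exact List.Pairwise.filter _ List.pairwise_lt_range
    · rw [List.perm_ext_iff_of_nodup (growN_nodup n t k) (List.nodup_range.filter _)]
      intro v
      simp only [List.mem_filter, List.mem_range, memB_iff]
      exact ⟨fun h => ⟨growN_lt h, h⟩, fun h => h.2⟩
  rw [h]
  refine List.monotone_filter_right _ ?_
  intro v hv
  simp only [memB_iff] at hv ⊢
  simp [memB_iff, hv]

theorem growN_length_le (n : ℕ) (t : List ℕ → ℕ → Bool) (k : ℕ) : (growN n t k).length ≤ n := by
  have := (growN_sublist n t k).length_le
  simpa using this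

theorem growN_stable (n : ℕ) (t : List ℕ → ℕ → Bool) : growN n t (n + 1) = growN n t n := by
  have h1 : ∃ k, k ≤ n ∧ growN n t (k + 1) = growN n t k := by
    by_contra hcon
    push Not at hcon
    have key : ∀ k, k ≤ n + 1 → k ≤ (growN n t k).length := by
      intro k
      induction k with
      | zero => intro _; exact Nat.zero_le _
      | succ k ih =>
        intro hk
        have h2 := ih (by omega)
        have h3 := hcon k (by omega)
        have h4 := (growN_sublist_succ n t k).length_le
        have h5 : (growN n t k).length ≠ (growN n t (k + 1)).length := fun h =>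
          h3 ((growN_sublist_succ n t k).eq_of_length h).symm
        omega
    have h6 := key (n + 1) le_rfl
    have h7 := growN_length_le n t (n + 1)
    omega
  obtain ⟨k, hk, he⟩ := h1
  have key : ∀ j, growN n t (k + j + 1) = growN n t (k + j) := by
    intro j
    induction j with
    | zero => exact he
    | succ j ih =>
      rw [show k + (j + 1) = k + j + 1 by ring]
      change growStep n t (growN n t (k + j + 1)) = growStep n t (growN n t (k + j))
      rw [ih]
  have h8 := key (n - k)
  rwa [show k + (n - k) = n by omega] at h8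

/-- After `n` rounds the set is closed. -/
theorem growN_closed {n : ℕ} {t : List ℕ → ℕ → Bool} {v : ℕ} (hv : v < n)
    (h : t (growN n t n) v = true) : v ∈ growN n t n := by
  rw [← growN_stable n t]
  exact mem_growStep.2 ⟨hv, Or.inr h⟩

theorem growN_full {n : ℕ} {t : List ℕ → ℕ → Bool} {k : ℕ} :
    (growN n t k).length = n ↔ ∀ v, v < n → v ∈ growN n t k := by
  constructor
  · intro h v hv
    have h1 := (growN_sublist n t k).eq_of_length (by simpa using h)
    rw [h1]
    exact List.mem_range.2 hv
  · intro h
    refine le_antisymm (growN_length_le n t k) ?_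
    have h1 : (List.range n).Subperm (growN n t k) :=
      List.subperm_of_subset List.nodup_range (fun v hv => h v (List.mem_range.1 hv))
    simpa using h1.length_le

section

variable {α : Type} [Code α]

theorem PTime.growN {n k : α → ℕ} {t : α → List ℕ → ℕ → Bool} (hn : PTime n) (hk : PTime k)
    (ht : PTime (fun y : α × List ℕ × ℕ => t y.1 y.2.1 y.2.2)) :
    PTime (fun x => MP_85af13_lc.growN (n x) (t x) (k x)) := by
  have h0 : ∀ (n : ℕ) (t : List ℕ → ℕ → Bool) (k : ℕ),
      (List.range k).foldl (fun S _ => growStep n t S) [] = MP_85af13_lc.growN n t k := by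
    intro n t k
    induction k with
    | zero => rfl
    | succ k ih => rw [List.range_succ, List.foldl_append, ih]; rfl
  have h1 : PTime (fun y : α × List ℕ × ℕ => growStep (n y.1) (t y.1) y.2.1) := by
    unfold growStep
    refine PTime.filter (p := fun (y : α × List ℕ × ℕ) v => memB v y.2.1 || t y.1 y.2.1 v)
      (PTime.range (hn.comp PTime.fst)) ?_
    refine PTime.or (PTime.memB PTime.snd (by fun_prop)) ?_
    exact ht.comp (f := fun y : (α × List ℕ × ℕ) × ℕ => (y.1.1, y.1.2.1, y.2)) (by fun_prop)
  have h2 : PB (fun x => sz (List.range (n x))) := (PTime.range hn).sz_le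
  have h3 : PTime (fun x => (List.range (k x)).foldl (fun S b =>
      (fun y : α × List ℕ × ℕ => growStep (n y.1) (t y.1) y.2.1) (x, S, b)) []) := by
    refine PTime.foldl (PTime.range hk) (PTime.const _) h1 h2 ?_
    intro x l' hl'
    have h4 : ∀ (l : List ℕ), ∃ k, l.foldl (fun S b =>
        (fun y : α × List ℕ × ℕ => growStep (n y.1) (t y.1) y.2.1) (x, S, b)) [] =
        MP_85af13_lc.growN (n x) (t x) k := by
      intro l
      induction l using List.reverseRecOn with
      | nil => exact ⟨0, rfl⟩
      | append_singleton l b ih =>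
        obtain ⟨k, hk⟩ := ih
        refine ⟨k + 1, ?_⟩
        rw [List.foldl_append, hk]
        rfl
    obtain ⟨k', hk'⟩ := h4 l'
    rw [hk']
    cases k' with
    | zero => simp only [MP_85af13_lc.growN]; exact (sz_prefix (List.nil_prefix)).trans le_rfl
    | succ k' => exact Pool.Agent.Work.MP_62a643_lc.sz_filter_le _ _
  exact h3.code_congr fun x => h0 (n x) (t x) (k x)

end

end Pool.Agent.Work.MP_85af13_lc
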