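import Pool.Agent.Work.PolyTime.NPDefs
import Pool.Agent.Work.PolyTime.Typed
import Pool.Agent.Work.MP_85af13_lc.Defs

/-!
Instances of the chip-firing halting problem as bit strings, and the class UP.
-/

set_option autoImplicit false

namespace Pool.Agent.Work.MP_85af13_lc

open Pool.Agent.Work.PolyTime

/-- Value of a binary number, least significant digit first. -/
def binVal : List Bool → ℕ
  | [] => 0
  | b :: l => b.toNat + 2 * binVal l

/-- An instance: the matrix of multiplicities (row `u`, column `v`: number of edges from `u` to
`v`) and the configuration, all numbers in binary. Missing entries are read as zero, the diagonal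
is ignored. -/
abbrev Inst : Type := List (List (List Bool)) × List (List Bool)

/-- The number of edges from `u` to `v`. -/
def mult (I : Inst) (u v : ℕ) : ℕ := if u = v then 0 else binVal ((I.1.getD u []).getD v [])

/-- The multidigraph of an instance. Its vertices are the positions of the configuration. -/
def graphOf (I : Inst) : MultiDigraph (Fin I.2.length) where
  m u v := mult I u v
  loopless v := by simp [mult]

/-- The chip configuration of an instance. -/
def chipsOf (I : Inst) (v : Fin I.2.length) : ℕ := binVal (I.2.getD v [])

/-- The chip-firing halting problem on Eulerian multidigraphs. -/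
def haltingEulerian : Set (List Bool) :=
  {w | ∃ I : Inst, w = (code I).ser ∧ (graphOf I).Eulerian ∧ (graphOf I).Terminates (chipsOf I)}

/-- The class UP: every member has exactly one certificate of polynomially bounded length and a
word that is not a member has none; certificates are checked in polynomial time. -/
def InUP (L : Set (List Bool)) : Prop :=
  ∃ (R : List Bool → List Bool) (p : Polynomial ℕ), PolyTimeComputable R ∧
    ∀ x, (x ∈ L → ∃! y : List Bool, y.length ≤ p.eval x.length ∧ R (pairW x y) = [true]) ∧
      (x ∉ L → ∀ y : List Bool, y.length ≤ p.eval x.length → R (pairW x y) ≠ [true])

end Pool.Agent.Work.MP_85af13_lc
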