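import Pool.Agent.Work.MP_85af13_lc.SSG

set_option autoImplicit false
set_option linter.unusedSectionVars false
set_option linter.unusedSimpArgs false

namespace Pool.Agent.Work.MP_85af13_lc

namespace SSG

variable {n : ℕ} (G : SSG n)

/-- The min-max-average system of a simple stochastic game: the values are multiplied by
`scale n`, sinks are replaced by the ground together with a constant, and average vertices get
the additional constant `1` which absorbs rounding. -/
def toSys : Sys (Fin n) where
  kind := G.kind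
  tgt v i := match G.succ v i with
    | Sum.inl u => some u
    | Sum.inr _ => none
  c v i := (if G.succ v i = Sum.inr true then (scale n : ℤ) else 0) +
    (if G.kind v = Kind.avg ∧ i = false then 1 else 0)

/-- The numerical parameters used for a game with `n` vertices. -/
def params (n : ℕ) : Params where
  W := wtW n
  H := wtH n
  Q := wtQ n
  R := scale n
  θ := 2 ^ ((n + 1) ^ 2)

/-- The undirected multigraph assigned to a game and a start vertex. -/
def igraph (v0 : Fin n) : MultiDigraph (Vtx n) := gadget G.toSys (params n) v0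

/-- The chip configuration assigned to a game and a start vertex. -/
def ichips (v0 : Fin n) : Vtx n → ℕ := Work.MP_85af13_lc.chips G.toSys (params n) v0

theorem scale_ge (n : ℕ) : 4 ≤ scale n ∨ n = 0 := by
  rcases Nat.eq_zero_or_pos n with h | h
  · right; exact h
  · left
    unfold scale
    calc 4 = 2 ^ 2 := by norm_num
      _ ≤ 2 ^ ((n + 1) ^ 2 + 1) := Nat.pow_le_pow_right (by norm_num) (by nlinarith)

theorem good (hn : 0 < n) : Good G.toSys (params n) (scale n + 1) (n + 1)
    (4 * (n + 1) ^ 2 * scale n) (80 * (n + 1) ^ 5 * scale n ^ 2)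
    ((n + 1) * (256 * (n + 1) ^ 5 * scale n ^ 2)) := by
  have hN : 4 ≤ scale n := by
    rcases scale_ge n with h | h
    · exact h
    · omega
  have hc : ∀ v i, |G.toSys.c v i| ≤ ((scale n + 1 : ℕ) : ℤ) := by
    intro v i
    simp only [toSys]
    push_cast
    rw [abs_le]
    constructor
    · split_ifs <;> linarith
    · split_ifs <;> linarith
  obtain ⟨j, rfl⟩ : ∃ j, n = j + 1 := ⟨n - 1, by omega⟩
  obtain ⟨k, hk⟩ : ∃ k, scale (j + 1) = k + 4 := ⟨scale (j + 1) - 4, by omega⟩
  refine ⟨hc, ?_, ?_, ?_, ?_, ?_, ?_, ?_⟩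
  all_goals simp only [params, wtW, wtH, wtQ, Fintype.card_fin, hk]
  · zify
    rw [← sub_nonneg]
    ring_nf
    positivity
  · rw [Nat.lt_iff_add_one_le]
    zify
    rw [← sub_nonneg]
    ring_nf
    positivity
  · zify
    rw [← sub_nonneg]
    ring_nf
    positivity
  · rw [Nat.lt_iff_add_one_le]
    zify
    rw [← sub_nonneg]
    ring_nf
    positivity
  · zify
    rw [← sub_nonneg]
    ring_nf
    positivity
  · rw [Nat.lt_iff_add_one_le]
    zify
    rw [← sub_nonneg]
    ring_nf
    positivity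
  · rw [Nat.lt_iff_add_one_le]
    zify
    rw [← sub_nonneg]
    ring_nf
    positivity

/-- Integer value of a position. -/
def extZ (x : Fin n → ℤ) : Fin n ⊕ Bool → ℤ
  | Sum.inl v => x v
  | Sum.inr b => if b then (scale n : ℤ) else 0

theorem elim_add (x : Fin n → ℤ) (v : Fin n) (i : Bool) :
    (G.toSys.tgt v i).elim 0 x + G.toSys.c v i =
      extZ x (G.succ v i) + (if G.kind v = Kind.avg ∧ i = false then 1 else 0) := by
  simp only [toSys]
  cases h : G.succ v i with
  | inl u => simp [extZ]
  | inr b => cases b <;> simp [extZ]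

theorem isSol_iff (x : Fin n → ℤ) (v0 : Fin n) :
    IsSol G.toSys (params n) v0 x ↔ ((2 ^ ((n + 1) ^ 2) : ℕ) : ℤ) ≤ x v0 ∧
      ∀ v, match G.kind v with
        | Kind.max => x v ≤ extZ x (G.succ v false) ∨ x v ≤ extZ x (G.succ v true)
        | Kind.min => x v ≤ extZ x (G.succ v false) ∧ x v ≤ extZ x (G.succ v true)
        | Kind.avg => 2 * x v ≤ extZ x (G.succ v false) + extZ x (G.succ v true) + 1 := by
  unfold IsSol
  have key : ∀ v, (match G.toSys.kind v with
    | Kind.max => x v ≤ (G.toSys.tgt v false).elim 0 x + G.toSys.c v false ∨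
        x v ≤ (G.toSys.tgt v true).elim 0 x + G.toSys.c v true
    | Kind.min => x v ≤ (G.toSys.tgt v false).elim 0 x + G.toSys.c v false ∧
        x v ≤ (G.toSys.tgt v true).elim 0 x + G.toSys.c v true
    | Kind.avg => 2 * x v ≤ (G.toSys.tgt v false).elim 0 x + (G.toSys.tgt v true).elim 0 x +
        G.toSys.c v false + G.toSys.c v true) ↔ (match G.kind v with
        | Kind.max => x v ≤ extZ x (G.succ v false) ∨ x v ≤ extZ x (G.succ v true)
        | Kind.min => x v ≤ extZ x (G.succ v false) ∧ x v ≤ extZ x (G.succ v true)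
        | Kind.avg => 2 * x v ≤ extZ x (G.succ v false) + extZ x (G.succ v true) + 1) := by
    intro v
    have h1 := G.elim_add x v false
    have h2 := G.elim_add x v true
    have hkk : G.toSys.kind v = G.kind v := rfl
    rw [hkk]
    cases hk : G.kind v with
    | max =>
      simp only [hk, reduceCtorEq, false_and, if_false, add_zero] at h1 h2
      simp only [h1, h2]
    | min =>
      simp only [hk, reduceCtorEq, false_and, if_false, add_zero] at h1 h2
      simp only [h1, h2]
    | avg =>
      simp only [hk, true_and, if_true, reduceCtorEq, if_false, add_zero] at h1 h2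
      constructor
      · intro h
        simp only at h ⊢
        linarith
      · intro h
        simp only at h ⊢
        linarith
  constructor
  · rintro ⟨h1, h2⟩
    exact ⟨h1, fun v => (key v).1 (h2 v)⟩
  · rintro ⟨h1, h2⟩
    exact ⟨h1, fun v => (key v).2 (h2 v)⟩

theorem scale_eq (n : ℕ) : scale n = 2 * 2 ^ ((n + 1) ^ 2) := by
  unfold scale
  rw [pow_succ]; ring

theorem factorial_bound (n : ℕ) : (n.factorial : ℤ) * 2 ^ n * (2 * 2 ^ n) < (scale n : ℤ) := by
  have h1 : n.factorial ≤ 2 ^ (n * n) := by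
    calc n.factorial ≤ n ^ n := Nat.factorial_le_pow n
      _ ≤ (2 ^ n) ^ n := Nat.pow_le_pow_left (Nat.lt_two_pow_self).le n
      _ = 2 ^ (n * n) := by rw [← pow_mul]
  have h2 : n.factorial * 2 ^ n * (2 * 2 ^ n) < scale n := by
    calc n.factorial * 2 ^ n * (2 * 2 ^ n) ≤ 2 ^ (n * n) * 2 ^ n * (2 * 2 ^ n) :=
          Nat.mul_le_mul_right _ (Nat.mul_le_mul_right _ h1)
      _ = 2 ^ ((n + 1) ^ 2) := by
          rw [show (n + 1) ^ 2 = n * n + n + (1 + n) by ring, pow_add, pow_add, pow_add]; ring
      _ < scale n := by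
          rw [scale_eq]
          have : 0 < 2 ^ ((n + 1) ^ 2) := by positivity
          omega
  exact_mod_cast h2

theorem value_of_isSol (hG : G.Stopping) (v0 : Fin n) (x : Fin n → ℤ)
    (hx : IsSol G.toSys (params n) v0 x) : G.ValueAtLeastHalf v0 := by
  classical
  rw [isSol_iff] at hx
  obtain ⟨hθ, hx⟩ := hx
  have hN0 : (0 : ℝ) < scale n := by
    have : 0 < scale n := by unfold scale; positivity
    exact_mod_cast this
  refine ⟨fun v => decide (x v ≤ extZ x (G.succ v true)), fun τ => ?_⟩
  set σ : Fin n → Bool := fun v => decide (x v ≤ extZ x (G.succ v true)) with hσ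
  set w := G.winProb σ τ with hw
  have hext : ∀ p, ext (fun v => (x v : ℝ) - scale n * w v) (fun _ => 0) p =
      ((extZ x p : ℤ) : ℝ) - scale n * ext w sinkVal p := by
    intro p
    rcases p with u | b
    · simp [ext, extZ]
    · cases b <;> simp [ext, extZ, sinkVal]
  have hstep : ∀ v, 2 * x v ≤ extZ x (G.next σ τ v false) + extZ x (G.next σ τ v true) + 1 := by
    intro v
    have hv := hx v
    simp only [next]
    cases hk : G.kind v with
    | max =>
      simp only [hk] at hv ⊢
      by_cases h : x v ≤ extZ x (G.succ v true)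
      · have : σ v = true := by simp [hσ, h]
        rw [this]; linarith
      · have : σ v = false := by simp [hσ, h]
        rw [this]
        rcases hv with h' | h'
        · linarith
        · exact absurd h' h
    | min =>
      simp only [hk] at hv ⊢
      cases τ v
      · linarith [hv.1]
      · linarith [hv.2]
    | avg =>
      simp only [hk] at hv ⊢
      exact hv
  have hmax := max_principle (G.chainStopping hG σ τ) (fun v => (x v : ℝ) - scale n * w v)
    (fun _ => 0) (1 / 2) (by norm_num) (fun _ => le_rfl) (fun v => by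
      rw [hext, hext]
      have h1 := G.winProb_eq σ τ v
      rw [← hw] at h1
      have h2 : (2 * x v : ℝ) ≤ extZ x (G.next σ τ v false) + extZ x (G.next σ τ v true) + 1 := by
        exact_mod_cast hstep v
      rw [h1]
      linarith) v0
  obtain ⟨a, d, hd0, hd1, hda⟩ := rational_value (G.chainStopping hG σ τ) w
    (fun v => G.winProb_eq σ τ v) v0
  have hfb := factorial_bound n
  have hθ' : (scale n : ℝ) / 2 ≤ x v0 := by
    have h1 : ((2 ^ ((n + 1) ^ 2) : ℕ) : ℝ) ≤ x v0 := by exact_mod_cast hθ
    have h2 : (scale n : ℝ) = 2 * ((2 ^ ((n + 1) ^ 2) : ℕ) : ℝ) := by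
      rw [scale_eq]; push_cast; ring
    rw [h2]
    linarith
  by_contra hcon
  push Not at hcon
  have hdR : (0 : ℝ) < d := by exact_mod_cast hd0
  have h1 : (2 * a : ℤ) < d := by
    have : (2 * a : ℝ) < d := by rw [← hda]; nlinarith
    exact_mod_cast this
  have h2 : (2 * a : ℤ) + 1 ≤ d := by omega
  have h3 : (2 : ℝ) * (w v0 * d) + 1 ≤ d := by rw [hda]; exact_mod_cast h2
  have h4 : (scale n : ℝ) * (1 / 2 - w v0) ≤ 2 ^ n := by
    have : (2 : ℝ) * (1 / 2) * 2 ^ n = 2 ^ n := by ring
    linarith
  have h5 : (scale n : ℝ) ≤ 2 * 2 ^ n * d := by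
    have h6 : (1 : ℝ) ≤ 2 * d * (1 / 2 - w v0) := by nlinarith
    calc (scale n : ℝ) = scale n * 1 := by ring
      _ ≤ scale n * (2 * d * (1 / 2 - w v0)) := mul_le_mul_of_nonneg_left h6 hN0.le
      _ = 2 * d * (scale n * (1 / 2 - w v0)) := by ring
      _ ≤ 2 * d * 2 ^ n := mul_le_mul_of_nonneg_left h4 (by positivity)
      _ = 2 * 2 ^ n * d := by ring
  have h7 : (d : ℝ) ≤ (n.factorial : ℝ) * 2 ^ n := by exact_mod_cast hd1
  have h8 : (n.factorial : ℝ) * 2 ^ n * (2 * 2 ^ n) < (scale n : ℝ) := by exact_mod_cast hfb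
  have h9 : 2 * 2 ^ n * (d : ℝ) ≤ 2 * 2 ^ n * ((n.factorial : ℝ) * 2 ^ n) :=
    mul_le_mul_of_nonneg_left h7 (by positivity)
  linarith

theorem isSol_of_value (hG : G.Stopping) (v0 : Fin n) (h : G.ValueAtLeastHalf v0) :
    ∃ x : Fin n → ℤ, (∀ v, 0 ≤ x v) ∧ (∀ v, x v ≤ (params n).R) ∧
      IsSol G.toSys (params n) v0 x := by
  obtain ⟨σ, hσ⟩ := h
  have hhalf := G.half_le_lim hG σ v0 hσ
  set q := G.lim σ with hq
  have hq0 : ∀ v, 0 ≤ q v := fun v => (G.lim_bounds σ v).1
  have hq1 : ∀ v, q v ≤ 1 := fun v => (G.lim_bounds σ v).2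
  have hN0 : (0 : ℝ) < scale n := by
    have : 0 < scale n := by unfold scale; positivity
    exact_mod_cast this
  set x : Fin n → ℤ := fun v => ⌊(scale n : ℝ) * q v⌋ with hx
  have hfl : ∀ p, extZ x p = ⌊(scale n : ℝ) * ext q sinkVal p⌋ := by
    intro p
    rcases p with u | b
    · simp [ext, extZ, hx]
    · cases b <;> simp [ext, extZ, sinkVal]
  have hle : ∀ (p : Fin n ⊕ Bool) (v : Fin n), q v ≤ ext q sinkVal p → x v ≤ extZ x p := by
    intro p v hpv
    rw [hfl]
    exact Int.floor_le_floor (mul_le_mul_of_nonneg_left hpv hN0.le)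
  refine ⟨x, fun v => ?_, fun v => ?_, ?_⟩
  · exact Int.floor_nonneg.2 (mul_nonneg hN0.le (hq0 v))
  · simp only [params, wtW, wtH, wtQ]
    have : (scale n : ℝ) * q v ≤ ((scale n : ℤ) : ℝ) := by
      push_cast
      nlinarith [hq1 v]
    exact_mod_cast Int.floor_le_iff.2 (by linarith)
  · rw [isSol_iff]
    refine ⟨?_, fun v => ?_⟩
    · rw [Int.le_floor]
      have h2 : (scale n : ℝ) = 2 * ((2 ^ ((n + 1) ^ 2) : ℕ) : ℝ) := by
        rw [scale_eq]; push_cast; ring
      rw [h2]
      push_cast
      have : (0 : ℝ) < 2 ^ ((n + 1) ^ 2) := by positivity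
      nlinarith
    · cases hk : G.kind v with
      | max =>
        simp only
        have h1 := G.lim_max σ v hk
        rw [← hq] at h1
        cases hs : σ v
        · left; rw [hs] at h1; exact hle _ _ h1.le
        · right; rw [hs] at h1; exact hle _ _ h1.le
      | min =>
        simp only
        have h1 := G.lim_min σ v hk
        rw [← hq] at h1
        exact ⟨hle _ _ (h1.le.trans (min_le_left _ _)), hle _ _ (h1.le.trans (min_le_right _ _))⟩
      | avg =>
        simp only
        have h1 := G.lim_avg σ v hk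
        rw [← hq] at h1
        rw [hfl, hfl]
        have h2 := Int.floor_le ((scale n : ℝ) * q v)
        have h3 := Int.lt_floor_add_one ((scale n : ℝ) * ext q sinkVal (G.succ v false))
        have h4 := Int.lt_floor_add_one ((scale n : ℝ) * ext q sinkVal (G.succ v true))
        have h5 : (2 * x v : ℝ) < ⌊(scale n : ℝ) * ext q sinkVal (G.succ v false)⌋ +
            ⌊(scale n : ℝ) * ext q sinkVal (G.succ v true)⌋ + 2 := by
          have : (x v : ℝ) ≤ scale n * q v := h2
          rw [h1] at this
          linarith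
        have h6 : 2 * x v < ⌊(scale n : ℝ) * ext q sinkVal (G.succ v false)⌋ +
            ⌊(scale n : ℝ) * ext q sinkVal (G.succ v true)⌋ + 2 := by exact_mod_cast h5
        omega

theorem params_pos (hn : 0 < n) : 0 < (params n).W ∧ 0 < (params n).H ∧ 0 < (params n).Q := by
  have hN : 0 < scale n := by unfold scale; positivity
  refine ⟨?_, ?_, ?_⟩
  all_goals simp only [params, wtW, wtH, wtQ]; positivity

theorem outDeg_le (v0 : Fin n) (p : Vtx n) : (G.igraph v0).outDeg p ≤
    n * ((params n).W + (params n).H + 2) + (params n).Q + n := by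
  unfold igraph gadget
  rw [ofEdges_outDeg]
  have h1 : ∀ e : Fin n × Fin 5, wtE (params n) v0 e *
      ((if tailE G.toSys e = p then 1 else 0) + (if headE G.toSys e = p then 1 else 0)) ≤
      wtE (params n) v0 e := by
    intro e
    have hne := tail_ne_head G.toSys e
    by_cases h1 : tailE G.toSys e = p
    · by_cases h2 : headE G.toSys e = p
      · exact absurd (h1.trans h2.symm) hne
      · simp [h1, h2]
    · by_cases h2 : headE G.toSys e = p
      · simp [h1, h2]
      · simp [h1, h2]
  refine le_trans (Finset.sum_le_sum (fun e _ => h1 e)) ?_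
  rw [Fintype.sum_prod_type]
  simp only [Fin.sum_univ_five, wtE]
  have h2 : ∀ v : Fin n, (params n).W + (params n).H + 1 + 1 +
      (if v = v0 then (params n).Q else 1) ≤ ((params n).W + (params n).H + 2 + 1) +
      (if v = v0 then (params n).Q else 0) := by
    intro v
    split_ifs <;> omega
  refine le_trans (Finset.sum_le_sum (fun v _ => h2 v)) ?_
  rw [Finset.sum_add_distrib]
  simp only [Finset.sum_const, Finset.card_univ, Fintype.card_fin, smul_eq_mul,
    Finset.sum_ite_eq', Finset.mem_univ, if_true]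
  nlinarith

theorem big_bound (hn : 0 < n) : n * ((params n).W + (params n).H + 2) + (params n).Q + n +
    (params n).Q * (params n).θ + 2 * (scale n + 1) ≤ 2 ^ (16 * (n + 1) ^ 2) := by
  have hN : 4 ≤ scale n := by
    rcases scale_ge n with h | h
    · exact h
    · omega
  have hθ : 2 * (params n).θ = scale n := by simp only [params, wtW, wtH, wtQ]; rw [scale_eq]
  have h1 : 2 * (n * ((params n).W + (params n).H + 2) + (params n).Q + n +
      (params n).Q * (params n).θ + 2 * (scale n + 1)) ≤ 2 * (1024 * (n + 1) ^ 7 * scale n ^ 2) := by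
    have e : 2 * (n * ((params n).W + (params n).H + 2) + (params n).Q + n +
      (params n).Q * (params n).θ + 2 * (scale n + 1)) = 2 * (n * ((params n).W + (params n).H + 2)
      + (params n).Q + n + 2 * (scale n + 1)) + (params n).Q * (2 * (params n).θ) := by ring
    rw [e, hθ]
    simp only [params, wtW, wtH, wtQ]
    obtain ⟨j, rfl⟩ : ∃ j, n = j + 1 := ⟨n - 1, by omega⟩
    obtain ⟨k, hk⟩ : ∃ k, scale (j + 1) = k + 4 := ⟨scale (j + 1) - 4, by omega⟩
    rw [hk]
    zify
    rw [← sub_nonneg]
    ring_nf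
    positivity
  have h2 : 1024 * (n + 1) ^ 7 * scale n ^ 2 ≤ 2 ^ (16 * (n + 1) ^ 2) := by
    have h3 : n + 1 ≤ 2 ^ n := Nat.lt_two_pow_self
    calc 1024 * (n + 1) ^ 7 * scale n ^ 2
        ≤ 1024 * (2 ^ n) ^ 7 * scale n ^ 2 :=
          Nat.mul_le_mul_right _ (Nat.mul_le_mul_left _ (Nat.pow_le_pow_left h3 7))
      _ = 2 ^ (10 + n * 7 + ((n + 1) ^ 2 + 1) * 2) := by
          have : scale n = 2 ^ ((n + 1) ^ 2 + 1) := rfl
          rw [this]
          generalize (n + 1) ^ 2 + 1 = X
          rw [pow_add, pow_add, pow_mul, pow_mul]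
          norm_num
      _ ≤ 2 ^ (16 * (n + 1) ^ 2) := Nat.pow_le_pow_right (by norm_num) (by nlinarith)
  omega

theorem igraph_le (v0 : Fin n) (p q : Vtx n) :
    (G.igraph v0).m p q ≤ 2 ^ (16 * (n + 1) ^ 2) := by
  have hn : 0 < n := Fin.pos v0
  have h1 : (G.igraph v0).m p q ≤ (G.igraph v0).outDeg p :=
    Finset.single_le_sum (f := fun q => (G.igraph v0).m p q) (fun _ _ => Nat.zero_le _)
      (Finset.mem_univ q)
  have h2 := G.outDeg_le v0 p
  have h3 := big_bound hn
  have h4 : 0 ≤ (params n).Q * (params n).θ := Nat.zero_le _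
  omega

theorem ichips_le (v0 : Fin n) (p : Vtx n) :
    G.ichips v0 p ≤ 2 ^ (16 * (n + 1) ^ 2) := by
  have hn : 0 < n := Fin.pos v0
  have hg := G.good hn
  have h1 := chips_cast (v0 := v0) hg p
  have h2 := G.outDeg_le v0 p
  have h3 := big_bound hn
  have h4 : -(((params n).Q * (params n).θ : ℕ) : ℤ) - 2 * ((scale n + 1 : ℕ) : ℤ) ≤
      Work.MP_85af13_lc.slack G.toSys (params n) v0 p := slack_ge (v0 := v0) hg p
  have h5 : ((G.ichips v0 p : ℕ) : ℤ) = ((G.igraph v0).outDeg p : ℤ) - 1 -
      Work.MP_85af13_lc.slack G.toSys (params n) v0 p := h1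
  have h6 : ((G.igraph v0).outDeg p : ℤ) ≤
      ((n * ((params n).W + (params n).H + 2) + (params n).Q + n : ℕ) : ℤ) := by exact_mod_cast h2
  have h7 : ((n * ((params n).W + (params n).H + 2) + (params n).Q + n +
    (params n).Q * (params n).θ + 2 * (scale n + 1) : ℕ) : ℤ) ≤
    ((2 ^ (16 * (n + 1) ^ 2) : ℕ) : ℤ) := by exact_mod_cast h3
  have h8 : ((G.ichips v0 p : ℕ) : ℤ) ≤ ((2 ^ (16 * (n + 1) ^ 2) : ℕ) : ℤ) := by
    generalize (2 ^ (16 * (n + 1) ^ 2) : ℕ) = B at h7 ⊢
    generalize (params n).Q * (params n).θ = A at h4 h7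
    generalize n * ((params n).W + (params n).H + 2) + (params n).Q + n = E at h6 h7
    generalize scale n = N at h4 h7
    generalize (G.igraph v0).outDeg p = F at h5 h6
    generalize Work.MP_85af13_lc.slack G.toSys (params n) v0 p = K at h4 h5
    push_cast at h7 h4
    linarith
  exact_mod_cast h8

/-- The reduction from stopping simple stochastic games to chip-firing halting. -/
theorem reduction (hG : G.Stopping) (v0 : Fin n) :
    (∀ p q, (G.igraph v0).m p q = (G.igraph v0).m q p) ∧
    (G.igraph v0).Eulerian ∧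
    (∀ p q, (G.igraph v0).m p q ≤ 2 ^ (16 * (n + 1) ^ 2)) ∧
    (∀ p, G.ichips v0 p ≤ 2 ^ (16 * (n + 1) ^ 2)) ∧
    (G.ValueAtLeastHalf v0 ↔ (G.igraph v0).Terminates (G.ichips v0)) ∧
    (G.ValueAtLeastHalf v0 ↔ ¬ (G.igraph v0).HasInfiniteGame (G.ichips v0)) := by
  have hn : 0 < n := Fin.pos v0
  have hg := G.good hn
  have hpos := params_pos hn
  have hE := gadget_eulerian G.toSys (params n) v0 hpos.1 hpos.2.1 hpos.2.2
  have hmain : G.ValueAtLeastHalf v0 ↔ (G.igraph v0).Terminates (G.ichips v0) := by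
    have h1 := terminates_gadget_iff (v0 := v0) hg hE.2
    constructor
    · intro h
      obtain ⟨x, hx0, hx1, hx2⟩ := G.isSol_of_value hG v0 h
      exact h1.2 (complete hg x hx0 hx1 hx2)
    · intro h
      obtain ⟨z, hz⟩ := h1.1 h
      obtain ⟨x, hx⟩ := sound hg z hz
      exact G.value_of_isSol hG v0 x hx
  refine ⟨gadget_symm _ _ _, hE, G.igraph_le v0, G.ichips_le v0, hmain, ?_⟩
  rw [hmain]
  exact MultiDigraph.terminates_iff_not_infinite _ hE.2 _

theorem endA_eq : G.endA = tailE G.toSys := by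
  funext e
  obtain ⟨v, i⟩ := e
  fin_cases i <;> rfl

theorem endB_eq : G.endB = headE G.toSys := by
  funext e
  obtain ⟨v, i⟩ := e
  have hp : ∀ j, SSG.port (G.succ v j) = Work.MP_85af13_lc.port (G.toSys.tgt v j) := by
    intro j
    simp only [toSys]
    cases G.succ v j <;> rfl
  fin_cases i
  · rfl
  · rfl
  · exact hp false
  · exact hp true
  · rfl

theorem wt_eq (v0 : Fin n) : wt v0 = wtE (params n) v0 := by
  funext e
  obtain ⟨v, i⟩ := e
  fin_cases i <;> rfl

theorem graph_m_eq (v0 : Fin n) : (G.graph v0).m = (G.igraph v0).m := by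
  funext p q
  simp only [graph, igraph, gadget, ofEdges, G.endA_eq, G.endB_eq, wt_eq]

theorem graph_eq (v0 : Fin n) : G.graph v0 = G.igraph v0 := by
  have h := G.graph_m_eq v0
  cases hg : G.graph v0
  cases hi : G.igraph v0
  rw [hg, hi] at h
  simp only at h
  subst h
  rfl

theorem slack_eq (v0 : Fin n) (p : Vtx n) :
    G.slack v0 p = Work.MP_85af13_lc.slack G.toSys (params n) v0 p := by
  match p with
  | none =>
    simp only [SSG.slack, Work.MP_85af13_lc.slack, params, Fintype.card_fin]
    push_cast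
    rfl
  | some (v, 0) =>
    simp only [SSG.slack, Work.MP_85af13_lc.slack, params, Fintype.card_fin]
  | some (v, 1) => rfl
  | some (v, 2) => rfl

theorem chips_eq (v0 : Fin n) : G.chips v0 = G.ichips v0 := by
  funext p
  simp only [SSG.chips, ichips, Work.MP_85af13_lc.chips]
  rw [G.graph_eq v0, G.slack_eq v0 p]
  rfl

/-- The reduction from stopping simple stochastic games to chip-firing halting. -/
theorem main_reduction (hG : G.Stopping) (v0 : Fin n) :
    (∀ p q, (G.graph v0).m p q = (G.graph v0).m q p) ∧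
    (G.graph v0).Eulerian ∧
    (∀ p q, (G.graph v0).m p q ≤ 2 ^ (16 * (n + 1) ^ 2)) ∧
    (∀ p, G.chips v0 p ≤ 2 ^ (16 * (n + 1) ^ 2)) ∧
    (G.ValueAtLeastHalf v0 ↔ (G.graph v0).Terminates (G.chips v0)) ∧
    (G.ValueAtLeastHalf v0 ↔ ¬ (G.graph v0).HasInfiniteGame (G.chips v0)) := by
  rw [G.graph_eq v0, G.chips_eq v0]
  exact G.reduction hG v0

end SSG

end Pool.Agent.Work.MP_85af13_lc
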