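import Pool.Agent.Work.MP_85af13_lc.Reduction

set_option autoImplicit false

open Pool.Agent.Work.MP_85af13_lc

namespace Pool.Agent.Work.MP_85af13_lc.RetiredStochastic

/-- The value problem of stopping simple stochastic games reduces to the chip-firing halting
problem on undirected multigraphs (which are Eulerian multidigraphs): the explicit instance
`G.graph v0`, `G.chips v0` has `3 n + 1` vertices and numbers of `O(n^2)` binary digits, and the
game on it terminates if and only if the value of `v0` in `G` is at least `1/2`. -/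
theorem result (n : ℕ) (G : SSG n) (hG : G.Stopping) (v0 : Fin n) :
    (∀ p q, (G.graph v0).m p q = (G.graph v0).m q p) ∧
    (G.graph v0).Eulerian ∧
    (∀ p q, (G.graph v0).m p q ≤ 2 ^ (16 * (n + 1) ^ 2)) ∧
    (∀ p, G.chips v0 p ≤ 2 ^ (16 * (n + 1) ^ 2)) ∧
    (G.ValueAtLeastHalf v0 ↔ (G.graph v0).Terminates (G.chips v0)) ∧
    (G.ValueAtLeastHalf v0 ↔ ¬ (G.graph v0).HasInfiniteGame (G.chips v0)) :=
  G.main_reduction hG v0

end Pool.Agent.Work.MP_85af13_lc.RetiredStochastic
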